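import Pool.Agent.S5.E.E4.Row
import Pool.Agent.S5.Ctx
import Pool.Agent.S5.I.FrmB

/-!
# The slots of the ends with four half twists in the context
-/

set_option autoImplicit false

namespace Pool.Agent.S5

open Complex
open Pool.Agent.H63.VC3 (hh)
open Pool.Agent.S3 (he he_eq_hh)
open Pool.Agent.S5.G (kp Sd sy)
open Pool.Agent.S5.E (Vt)
open Pool.Agent.S5.E.B2 (InR)
open Pool.Agent.S5.E.E4 (H4)

namespace Ctx

variable {T : Vt → Vt → E.B2.Rg} {R : ℕ} {a : ℕ → ℕ} {S : ℕ → Bool} {r : ℕ → ℤ}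
  {z ql qr : ℕ → ℂ} {zF : Fin (R + 1) → ℂ}

theorem ly_of {q w : ℂ} {l : ℂ} (hs : G.Slot q w) (hp : 0 < (sy q w - w / Real.pi).re)
    (hl : l = 2 * hh (1 / 2 - sy q w) - he (sy q w - w / Real.pi) - he (sy q w + w / Real.pi)) :
    ly 2 (sy q w) (w / Real.pi) = l := by
  have y1 := hs.ymv
  have y2 := hs.yv
  rw [hl, he_eq_hh hp (by linarith [y1.2]), he_eq_hh y2.1 y2.2]
  unfold ly
  push_cast
  ring

/-- **The right slot of the left end.** -/
theorem h4r (h : Ctx T R a S r z ql qr zF) (h0 : a 0 = 4) {g : E.B2.Rg}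
    (hg : InR g (cos (z 0)).re (-(cos (z 0)).im)) (k : 600 ≤ g.k0) (t : g.t1 ≤ 300) :
    H4 (S 0) (cos (z 1)) (qr 0) (z 0) := by
  have hR : 0 < R := h.hg.crt.hR
  have hd := h.sdr hR
  refine ⟨hd, ?_, E.E4.u0_of hg k t, ?_⟩
  · have h1 := h.hg.crt.eq 0 (Nat.zero_le _)
    rw [h0, h.hg.crt.l0, zero_add] at h1
    push_cast at h1
    exact h1
  · exact ly_of hd.slot (h.hg.bx.vr 0 hR (Or.inr ⟨h0, rfl⟩)).2 (h.hg.lamR hR)

/-- **The left slot of the right end.** -/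
theorem h4l (h : Ctx T R a S r z ql qr zF) {i : ℕ} (hi : i + 1 = R) (h0 : a (i + 1) = 4)
    {g : E.B2.Rg} (hg : InR g (cos (z (i + 1))).re (-(cos (z (i + 1))).im)) (k : 600 ≤ g.k0)
    (t : g.t1 ≤ 300) : H4 (S i) (cos (z i)) (ql (i + 1)) (z (i + 1)) := by
  have hd := h.sdl (i := i) (by omega)
  refine ⟨hd, ?_, E.E4.u0_of hg k t, ?_⟩
  · have h1 := h.hg.crt.eq (i + 1) (by omega)
    have h2 := h.hg.crt.rR
    rw [← hi] at h2
    rw [h0, h2, add_zero] at h1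
    push_cast at h1
    exact h1
  · exact ly_of hd.slot (h.hg.bx.vl i (by omega) (Or.inr ⟨h0, hi⟩)).2 (h.hg.lamL (by omega))

end Ctx

end Pool.Agent.S5
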