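import Pool.Agent.S5.E.E4.Val

/-!
# The check of a leaf
-/

set_option autoImplicit false

namespace Pool.Agent.S5.E.E4

open Complex Set Pool.Agent.S5.Num Pool.Agent.S5.G
open Pool.Agent.H63.VC3 (hh)
open Pool.Agent.S3 (Rf)
open Pool.Agent.S5.Tb (Vw pla P4 Gd Ps)

/-- The data for the value: the point `((t + e i), (x + n i)) / 100000`. -/
structure Vd where
  t : ℤ
  e : ℤ
  x : ℤ
  n : ℤ
  M : ℕ
  f1 : ℚ
  k1 : ℚ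
  l1 : ℚ
  a1 : ℚ
  f2 : ℚ
  k2 : ℚ
  l2 : ℚ
  a2 : ℚ
  f3 : ℚ
  k3 : ℚ
  l3 : ℚ
  a3 : ℚ
  u1 : ℚ
  s1 : ℚ
  K1 : ℚ
  u2 : ℚ
  s2 : ℚ
  K2 : ℚ
  u3 : ℚ
  s3 : ℚ
  K3 : ℚ

def Vd.P1 (c : Vd) : Pt := ⟨50000 - c.t, -c.e, c.f1, c.k1, c.l1, c.a1⟩
def Vd.P2 (c : Vd) : Pt := ⟨c.t - c.x, c.e - c.n, c.f2, c.k2, c.l2, c.a2⟩
def Vd.P3 (c : Vd) : Pt := ⟨c.t + c.x, c.e + c.n, c.f3, c.k3, c.l3, c.a3⟩

/-- The deviations. -/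
structure Dv where
  T : ℚ
  E : ℚ
  X : ℚ
  N : ℚ
  r2 : ℚ
  i2 : ℚ
  r3 : ℚ
  i3 : ℚ

def Ct.o1r (x : Ct) : Lin := (x.oT.sm (-1)).ac (1 / 2)
def Ct.o1i (x : Ct) : Lin := x.oE.sm (-1)
def Ct.o2r (x : Ct) : Lin := x.oT.add (x.oX.sm (-1))
def Ct.o2i (x : Ct) : Lin := x.oE.add (x.oN.sm (-1))
def Ct.o3r (x : Ct) : Lin := x.oT.add x.oX
def Ct.o3i (x : Ct) : Lin := x.oE.add x.oN

def dvs (x : Ct) (R : Rc) (c : Vd) : Dv :=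
  ⟨x.oT.dev R (c.t / 100000), x.oE.dev R (c.e / 100000), x.oX.dev R (c.x / 100000),
    x.oN.dev R (c.n / 100000), x.o2r.dev R ((c.t - c.x) / 100000),
    x.o2i.dev R ((c.e - c.n) / 100000), x.o3r.dev R ((c.t + c.x) / 100000),
    x.o3i.dev R ((c.e + c.n) / 100000)⟩

/-- The check of the data for the value. -/
def vok (x : Ct) (R : Rc) (c : Vd) : Bool :=
  c.P1.ok c.M && c.P2.ok c.M && c.P3.ok c.M &&
  crv c.u1 c.s1 c.K1 (x.o1r.lo R) (x.o1r.hi R) (x.o1i.lo R) (x.o1i.hi R) c.P1 &&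
  crv c.u2 c.s2 c.K2 (x.o2r.lo R) (x.o2r.hi R) (x.o2i.lo R) (x.o2i.hi R) c.P2 &&
  crv c.u3 c.s3 c.K3 (x.o3r.lo R) (x.o3r.hi R) (x.o3i.lo R) (x.o3i.hi R) c.P3 &&
  decide (0 ≤ c.x) && decide (c.x ≤ 100000) && decide (0 ≤ c.n) && decide (c.n ≤ 100000)

/-- `π`. -/
def pq : ℚ := 3141592653589793 / 10 ^ 15

theorem pq_ok : |Real.pi - (pq : ℝ)| ≤ 1 / 10 ^ 14 := by
  have h1 := Real.pi_gt_d20
  have h2 := Real.pi_lt_d20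
  unfold pq
  push_cast
  rw [abs_le]
  constructor <;> linarith

/-- The value at the centre. -/
def bas (w : ℚ) (c : Vd) : ℚ :=
  -(2 * pq * (c.n / 100000) * (1 - 4 * (c.x / 100000))) - w * (c.f1 + c.k1) - (c.f2 + c.k2) -
    (c.f3 + c.k3) - 1 / 10 ^ 12

def gGr (w : ℚ) (c : Vd) : ℚ := w * c.l1 - c.l2 - c.l3
def gGi (w : ℚ) (c : Vd) : ℚ := w * c.a1 - c.a2 - c.a3
def gX (c : Vd) : ℚ := c.l2 - c.l3 + 8 * pq * (c.n / 100000)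
def gN (c : Vd) : ℚ := c.a3 - c.a2 - 2 * pq * (1 - 4 * (c.x / 100000))

/-- The terms of second order. -/
def pen (w : ℚ) (c : Vd) (D : Dv) : ℚ :=
  (|gX c| + 1 / 10 ^ 7) * D.X + (|gN c| + 1 / 10 ^ 7) * D.N +
  w * c.K1 / 2 * (D.T ^ 2 + D.E ^ 2) + c.K2 / 2 * (D.r2 ^ 2 + D.i2 ^ 2) +
    c.K3 / 2 * (D.r3 ^ 2 + D.i3 ^ 2) + 8 * (pq + 1 / 10 ^ 14) * (D.X * D.N)

/-- The slope with the weight `w`. -/
def lyr (w : ℚ) (x : Ct) : Lin := x.oLr.add (x.oHr.sm (w - 2))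
def lyi (w : ℚ) (x : Ct) : Lin := x.oLi.add (x.oHi.sm (w - 2))

/-- The lower bound of the plane. -/
def vlo (w : ℚ) (x : Ct) (R : Rc) (c : Vd) (ta tb : ℚ) : ℚ :=
  let D := dvs x R c
  bas w c + (((lyr w x).sm (ta - c.t / 100000)).add ((lyi w x).sm (-(tb - c.e / 100000)))).lo R -
    ((lyr w x).dev R (gGr w c) + (w + 2) / 10 ^ 8) * D.T -
    ((lyi w x).dev R (gGi w c) + (w + 2) / 10 ^ 8) * D.E - pen w c D

/-- The lower bound on the flat. -/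
def vfl (w : ℚ) (x : Ct) (R : Rc) (c : Vd) (ta tb kq : ℚ) : ℚ :=
  let D := dvs x R c
  bas w c + (((lyr w x).sm (ta - c.t / 100000)).add
    (((x.oE.ac (-(c.e / 100000))).sm (-(gGi w c))).add ((x.oE.ac (-tb)).sm kq))).lo R -
    ((lyr w x).dev R (gGr w c) + (w + 2) / 10 ^ 8) * D.T - (w + 2) / 10 ^ 8 * D.E - pen w c D

/-- The check of a class. -/
def cls (x : Ct) (R : Rc) (c : Vd) (w : ℕ) (g : Gd) : Bool :=
  decide (w = 1 ∨ w = 2 ∨ w = 3) &&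
  decide ((g.e0 : ℚ) ≤ x.oE.lo R * 25600 + 102400) && decide (x.oE.hi R * 25600 + 102400 ≤ g.e1) &&
  decide ((g.n0 : ℚ) ≤ x.oN.lo R * 25600 + 102400) && decide (x.oN.hi R * 25600 + 102400 ≤ g.n1) &&
  decide ((g.l0 : ℚ) * 200 ≤ (lyr w x).lo R * 1048576) &&
  decide ((lyr w x).hi R * 1048576 ≤ (g.l1 : ℚ) * 200) &&
  decide ((g.m0 : ℚ) * 200 ≤ (lyi w x).lo R * 1048576) &&
  decide ((lyi w x).hi R * 1048576 ≤ (g.m1 : ℚ) * 200) &&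
  decide ((g.v0 : ℚ) ≤ vlo w x R c (g.a / 200) (g.b / 200) * 1048576) &&
  decide ((g.vF : ℚ) ≤ vfl w x R c (g.a / 200) (g.b / 200) (g.k * 200 / 1048576) * 1048576) &&
  (decide (w = 2) || (decide ((g.q0 : ℚ) ≤ x.oHi.lo R * 1048576) &&
    decide (x.oHi.hi R * 1048576 ≤ g.q1)))

/-- The check of a leaf. -/
def leaf (B : Bx) (x : Ct) (c : Vd) (l : List (ℕ × Gd)) : Bool :=
  x.ok B && x.ok2 B && vok x (x.rc B) c && l.all fun p => cls x (x.rc B) c p.1 p.2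

end Pool.Agent.S5.E.E4
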