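import Pool.Agent.S5.E.E4.Snd
import Pool.Agent.S5.I.RwD

/-!
# Soundness of the check of a class
-/

set_option autoImplicit false

namespace Pool.Agent.S5.E.E4

open Complex Set Pool.Agent.S5.Num Pool.Agent.S5.G
open Pool.Agent.H63.VC3 (hh)
open Pool.Agent.S3 (Rf)
open Pool.Agent.S5.Tb (Vw pla P4 Gd Ps Rd Q4)

variable {x : Ct} {R : Rc} {c : Vd} {d y v l H : ℂ}

theorem ly_two (w : ℝ) (ys vs : ℂ) : ly w ys vs = ly 2 ys vs + (w - 2) * hh (1 / 2 - ys) := by
  unfold ly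
  push_cast
  ring

/-- The slopes. -/
theorem lyr_ok (hM : Md8 x d y v (ly 2 y v) (hh (1 / 2 - y))) (w : ℚ) :
    (lyr w x).Ok d (ly w y v).re ∧ (lyi w x).Ok d (ly w y v).im := by
  have h1 := hM.Lr.add (hM.Hr.sm (w - 2))
  have h2 := hM.Li.add (hM.Hi.sm (w - 2))
  have e := ly_two w y v
  have e0 : (((w : ℝ) : ℂ) - 2) = (((w : ℝ) - 2 : ℝ) : ℂ) := by push_cast; ring
  rw [e0] at e
  have e1 : (ly w y v).re = (ly 2 y v).re + ((w - 2 : ℚ) : ℝ) * (hh (1 / 2 - y)).re := by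
    rw [e, add_re, re_ofReal_mul]
    push_cast
    ring
  have e2 : (ly w y v).im = (ly 2 y v).im + ((w - 2 : ℚ) : ℝ) * (hh (1 / 2 - y)).im := by
    rw [e, add_im, im_ofReal_mul]
    push_cast
    ring
  rw [e1, e2]
  exact ⟨h1, h2⟩

/-- The product with a deviation. -/
theorem dev_mul {u q t T e : ℝ} (h : |u - q| ≤ e) (ht : |t| ≤ T) : -(e * T) ≤ (q - u) * t := by
  have h1 : |(q - u) * t| ≤ e * T := by
    rw [abs_mul, abs_sub_comm]
    exact mul_le_mul h ht (abs_nonneg _) ((abs_nonneg _).trans h)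
  exact (abs_le.1 h1).1

theorem y0_re (g : Gd) : g.y0.re = (g.a : ℝ) / 200 := by
  unfold Gd.y0
  simp

theorem y0_im (g : Gd) : g.y0.im = (g.b : ℝ) / 200 := by
  unfold Gd.y0
  simp

/-- The plane. -/
theorem pla_eq (w : ℝ) (g : Gd) (ys vs : ℂ) : pla w ys vs g.y0 = Vw w ys vs +
    (ly w ys vs).re * ((g.a : ℝ) / 200 - ys.re) - (ly w ys vs).im * ((g.b : ℝ) / 200 - ys.im) := by
  unfold pla
  rw [mul_re, sub_re, sub_im, y0_re, y0_im]
  ring

theorem vlo_le (hF : VF x R c) (hR : R.In d) (hM : Md8 x d y v (ly 2 y v) (hh (1 / 2 - y))) {w : ℚ}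
    (hw : 0 ≤ w) (g : Gd) : ((vlo w x R c (g.a / 200) (g.b / 200) : ℚ) : ℝ) ≤ pla w y v g.y0 := by
  have hv := val_ge hF hR hM hw
  obtain ⟨hr, hi⟩ := lyr_ok hM w
  have dT := hM.T.dev hR (c.t / 100000)
  have dE := hM.S.dev hR (c.e / 100000)
  have dr := hr.dev hR (gGr w c)
  have di := hi.dev hR (gGi w c)
  have hlo := ((hr.sm (g.a / 200 - c.t / 100000)).add (hi.sm (-(g.b / 200 - c.e / 100000)))).lo hR
  have eT : (dvs x R c).T = x.oT.dev R (c.t / 100000) := rfl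
  have eE : (dvs x R c).E = x.oE.dev R (c.e / 100000) := rfl
  rw [pla_eq]
  unfold vlo
  dsimp only
  rw [← eT] at dT
  rw [← eE] at dE
  push_cast at dT dE hlo ⊢
  have m1 := dev_mul dr dT
  have m2 := dev_mul (t := -(y.im - (c.e : ℝ) / 100000)) (T := ((dvs x R c).E : ℝ)) di
    (by rw [abs_neg]; exact dE)
  linarith

theorem vfl_le (hF : VF x R c) (hR : R.In d) (hM : Md8 x d y v (ly 2 y v) (hh (1 / 2 - y))) {w : ℚ}
    (hw : 0 ≤ w) (g : Gd) (kq : ℚ) : ((vfl w x R c (g.a / 200) (g.b / 200) kq : ℚ) : ℝ) ≤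
      pla w y v g.y0 - (ly w y v).im * (y.im - g.b / 200) + kq * (y.im - g.b / 200) := by
  have hv := val_ge hF hR hM hw
  obtain ⟨hr, hi⟩ := lyr_ok hM w
  have dT := hM.T.dev hR (c.t / 100000)
  have dr := hr.dev hR (gGr w c)
  have hlo := ((hr.sm (g.a / 200 - c.t / 100000)).add
    (((hM.S.ac (-(c.e / 100000))).sm (-(gGi w c))).add ((hM.S.ac (-(g.b / 200))).sm kq))).lo hR
  have eT : (dvs x R c).T = x.oT.dev R (c.t / 100000) := rfl
  rw [pla_eq]
  unfold vfl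
  dsimp only
  rw [← eT] at dT
  push_cast at dT hlo ⊢
  have m1 := dev_mul dr dT
  linarith

theorem rat_cast_le {a b : ℚ} (h : a ≤ b) : (a : ℝ) ≤ (b : ℝ) := Rat.cast_le.2 h

/-- **The slot belongs to the class.** -/
theorem cls_sound (hF : VF x R c) (hR : R.In d) (hM : Md8 x d y v (ly 2 y v) (hh (1 / 2 - y)))
    {w : ℕ} {g : Gd} (h : cls x R c w g = true) : P4 w g y v := by
  unfold cls at h
  simp only [Bool.and_eq_true, decide_eq_true_eq, Bool.or_eq_true] at h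
  obtain ⟨⟨⟨⟨⟨⟨⟨⟨⟨⟨⟨h0, h1⟩, h2⟩, h3⟩, h4⟩, h5⟩, h6⟩, h7⟩, h8⟩, h9⟩, h10⟩, h11⟩ := h
  have hw : (0 : ℚ) ≤ (w : ℚ) := by positivity
  have ew : (((w : ℚ) : ℝ)) = (w : ℝ) := by push_cast; rfl
  obtain ⟨hr, hi⟩ := lyr_ok hM w
  have v1 := vlo_le hF hR hM hw g
  have v2 := vfl_le hF hR hM hw g (g.k * 200 / 1048576)
  rw [ew] at hr hi v1 v2
  have k1 := rat_cast_le h1
  have k2 := rat_cast_le h2
  have k3 := rat_cast_le h3
  have k4 := rat_cast_le h4
  have k5 := rat_cast_le h5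
  have k6 := rat_cast_le h6
  have k7 := rat_cast_le h7
  have k8 := rat_cast_le h8
  have k9 := rat_cast_le h9
  have k10 := rat_cast_le h10
  push_cast at k1 k2 k3 k4 k5 k6 k7 k8 k9 k10 v2
  have a1 := hM.S.lo hR
  have a2 := hM.S.hi hR
  have a3 := hM.N.lo hR
  have a4 := hM.N.hi hR
  have a5 := hr.lo hR
  have a6 := hr.hi hR
  have a7 := hi.lo hR
  have a8 := hi.hi hR
  refine ⟨⟨by linarith, by linarith⟩, ⟨by linarith, by linarith⟩, by linarith, by linarith,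
    by linarith, by linarith, by linarith, by linarith, ?_, ?_⟩
  · intro h2
    rcases h11 with h11 | h11
    · exact absurd (by rw [h11]; norm_num) h2
    · have := rat_cast_le h11.1
      push_cast at this
      have := hM.Hi.lo hR
      linarith
  · intro h2
    rcases h11 with h11 | h11
    · exact absurd (by rw [h11]; norm_num) h2
    · have := rat_cast_le h11.2
      push_cast at this
      have := hM.Hi.hi hR
      linarith

/-- The check of the region. -/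
def qls (x : Ct) (R : Rc) (r : Rd) : Bool :=
  decide ((r.T0 : ℚ) ≤ x.oT.lo R * 25600) && decide (x.oT.hi R * 25600 ≤ r.T1) &&
  decide ((r.M0 : ℚ) ≤ x.o2r.lo R * 25600) && decide (x.o2r.hi R * 25600 ≤ r.M1) &&
  decide ((r.P0 : ℚ) ≤ x.o3r.lo R * 25600) && decide (x.o3r.hi R * 25600 ≤ r.P1) &&
  decide (-(r.ja : ℚ) ≤ x.oE.lo R * 200) && decide (x.oE.hi R * 200 ≤ r.ja) &&
  decide (-(r.jb : ℚ) ≤ x.o2i.lo R * 200) && decide (x.o2i.hi R * 200 ≤ r.jb)

theorem Md8.m2r (hM : Md8 x d y v l H) : x.o2r.Ok d (y.re - v.re) := by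
  have := hM.T.add (hM.X.sm (-1))
  have e : y.re + ((-1 : ℚ) : ℝ) * v.re = y.re - v.re := by
    push_cast
    ring
  rw [e] at this
  exact this

theorem Md8.m2i (hM : Md8 x d y v l H) : x.o2i.Ok d (y.im - v.im) := by
  have := hM.S.add (hM.N.sm (-1))
  have e : y.im + ((-1 : ℚ) : ℝ) * v.im = y.im - v.im := by
    push_cast
    ring
  rw [e] at this
  exact this

/-- **The real parts are in the region.** -/
theorem qls_sound (hR : R.In d) (hM : Md8 x d y v l H) {r : Rd} (h : qls x R r = true) :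
    Q4 r y v := by
  unfold qls at h
  simp only [Bool.and_eq_true, decide_eq_true_eq] at h
  obtain ⟨⟨⟨⟨⟨⟨⟨⟨⟨h1, h2⟩, h3⟩, h4⟩, h5⟩, h6⟩, h7⟩, h8⟩, h9⟩, h10⟩ := h
  have k1 := rat_cast_le h1
  have k2 := rat_cast_le h2
  have k3 := rat_cast_le h3
  have k4 := rat_cast_le h4
  have k5 := rat_cast_le h5
  have k6 := rat_cast_le h6
  have k7 := rat_cast_le h7
  have k8 := rat_cast_le h8
  have k9 := rat_cast_le h9
  have k10 := rat_cast_le h10
  push_cast at k1 k2 k3 k4 k5 k6 k7 k8 k9 k10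
  have a1 := hM.T.lo hR
  have a2 := hM.T.hi hR
  have a3 := hM.m2r.lo hR
  have a4 := hM.m2r.hi hR
  have a5 := (hM.T.add hM.X).lo hR
  have a6 := (hM.T.add hM.X).hi hR
  have a7 := hM.S.lo hR
  have a8 := hM.S.hi hR
  have a9 := hM.m2i.lo hR
  have a10 := hM.m2i.hi hR
  unfold Ct.o3r at k5 k6
  have e1 : |y.im| * 200 = |y.im * 200| := by rw [abs_mul, abs_of_pos (show (0 : ℝ) < 200 by norm_num)]
  have e2 : |y.im - v.im| * 200 = |(y.im - v.im) * 200| := by
    rw [abs_mul, abs_of_pos (show (0 : ℝ) < 200 by norm_num)]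
  refine ⟨by linarith, by linarith, by linarith, by linarith, by linarith, by linarith, ?_, ?_⟩
  · rw [e1, abs_le]
    constructor <;> linarith
  · rw [e2, abs_le]
    constructor <;> linarith

end Pool.Agent.S5.E.E4
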