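import Pool.Agent.S5.E.E4.Path

/-!
# The end with four half twists: the derivatives along the path
-/

set_option autoImplicit false

namespace Pool.Agent.S5.E.E4

open Complex Set

variable {l d : ℂ} {k1 m : ℝ}

/-- The quadratic polynomial in the edge variable. -/
noncomputable def QQ (u : ℂ) : ℂ := 1 + u - u ^ 2

/-- The slope. -/
noncomputable def LL (l d : ℂ) (s : ℝ) : ℂ := 2 * (l + s * d) - log ((1 + uu l d s) / 4)

/-- The variable of the edge. -/
noncomputable def YY (l d : ℂ) (s : ℝ) : ℂ :=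
  1 / 2 + (log (uu l d s) - log (QQ (uu l d s))) / (2 * Real.pi * I)

/-- The logarithm of `2 cos π y`. -/
noncomputable def HH (l d : ℂ) (s : ℝ) : ℂ :=
  Real.log 2 + (l + s * d) - (log (uu l d s) + log (QQ (uu l d s))) / 2

/-- The square root of `1 - w²`, `w = (u - 1) / 2`. -/
noncomputable def rr (l d : ℂ) (s : ℝ) : ℂ := cexp (log (1 - ((uu l d s - 1) / 2) ^ 2) / 2)

/-- `exp (2 i z)`. -/
noncomputable def ze (l d : ℂ) (s : ℝ) : ℂ := (uu l d s - 1) / 2 + I * rr l d s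

/-- The variable of the node. -/
noncomputable def ZZ (l d : ℂ) (s : ℝ) : ℂ := log (ze l d s) / (2 * I)

theorem line_der (l d : ℂ) (s : ℝ) : HasDerivAt (fun s : ℝ => l + (s : ℂ) * d) d s := by
  have h1 : HasDerivAt (fun s : ℝ => l + (s : ℂ) * d) (1 * d) s :=
    ((Complex.ofRealCLM.hasDerivAt (x := s)).mul_const d).const_add l
  rwa [one_mul] at h1

theorem Pth.dLL (h : Pth l d k1 m) {s : ℝ} (hs : s ∈ Icc (0 : ℝ) 1) :
    HasDerivAt (LL l d) (d * (3 / 2 + 1 / 2 * (uu l d s)⁻¹)) s := by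
  have hu := h.ne hs
  have h1 := ((h.du hs).const_add 1).div_const 4
  have h2 : (1 + uu l d s) / 4 ∈ slitPlane := by
    left
    rw [show (4 : ℂ) = ((4 : ℝ) : ℂ) by norm_num, div_ofReal_re, add_re, one_re]
    have := h.re hs
    positivity
  have h3 := ((line_der l d s).const_mul 2).sub (h1.clog_real h2)
  refine h3.congr_deriv ?_
  have h4 := slitPlane_ne_zero h2
  have h5 : 1 + uu l d s ≠ 0 := fun h0 => h4 (by rw [h0]; simp)
  field_simp
  ring

theorem QQ_im (u : ℂ) : (QQ u).im = u.im * (1 - 2 * u.re) := by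
  unfold QQ
  simp only [sub_im, add_im, one_im, pow_two, mul_im]
  ring

theorem Pth.Q_slit (h : Pth l d k1 m) {s : ℝ} (hs : s ∈ Icc (0 : ℝ) 1)
    (hx : 1 / 2 < (uu l d s).re) : QQ (uu l d s) ∈ slitPlane := by
  apply slit_of_im
  rw [QQ_im]
  have := h.im hs
  exact mul_ne_zero this.ne (by linarith)

theorem Pth.dQ (h : Pth l d k1 m) {s : ℝ} (hs : s ∈ Icc (0 : ℝ) 1) :
    HasDerivAt (fun s => QQ (uu l d s))
      (d * ((uu l d s ^ 2 - 1) / (2 * uu l d s)) * (1 - 2 * uu l d s)) s := by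
  have h1 := h.du hs
  have h2 := (h1.const_add 1).sub (h1.pow 2)
  refine h2.congr_deriv ?_
  simp only [Nat.cast_ofNat, Nat.add_one_sub_one, pow_one]
  ring

/-- The derivative of `4 π i y`. -/
noncomputable def gy (u : ℂ) : ℂ := -1 + u⁻¹ - (u⁻¹) ^ 2 + (2 * u - 1) * (QQ u)⁻¹

/-- The derivative of `4 h`. -/
noncomputable def gh (u : ℂ) : ℂ := 1 + u⁻¹ + (u⁻¹) ^ 2 + (2 * u - 1) * (QQ u)⁻¹

theorem Pth.dYY (h : Pth l d k1 m) {s : ℝ} (hs : s ∈ Icc (0 : ℝ) 1)
    (hx : 1 / 2 < (uu l d s).re) :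
    HasDerivAt (YY l d) (d * gy (uu l d s) / (4 * Real.pi * I)) s := by
  have hu := h.ne hs
  have hpi : (Real.pi : ℂ) ≠ 0 := ofReal_ne_zero.2 Real.pi_ne_zero
  have hQ := slitPlane_ne_zero (h.Q_slit hs hx)
  have h1 := (h.du hs).clog_real (Or.inl (h.re hs))
  have h2 := (h.dQ hs).clog_real (h.Q_slit hs hx)
  have h3 := ((h1.sub h2).div_const (2 * Real.pi * I)).const_add (1 / 2)
  refine h3.congr_deriv ?_
  unfold gy
  have e : QQ (uu l d s) = 1 + uu l d s - uu l d s ^ 2 := rfl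
  have hI := I_ne_zero
  generalize uu l d s = u at *
  have key : d * ((u ^ 2 - 1) / (2 * u)) / u - d * ((u ^ 2 - 1) / (2 * u)) * (1 - 2 * u) / QQ u =
      d * (-1 + u⁻¹ - (u⁻¹) ^ 2 + (2 * u - 1) * (QQ u)⁻¹) / 2 := by
    rw [e] at hQ ⊢
    field_simp
    ring
  rw [key]
  field_simp
  ring

theorem Pth.dHH (h : Pth l d k1 m) {s : ℝ} (hs : s ∈ Icc (0 : ℝ) 1)
    (hx : 1 / 2 < (uu l d s).re) :
    HasDerivAt (HH l d) (d * gh (uu l d s) / 4) s := by
  have hu := h.ne hs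
  have hQ := slitPlane_ne_zero (h.Q_slit hs hx)
  have h1 := (h.du hs).clog_real (Or.inl (h.re hs))
  have h2 := (h.dQ hs).clog_real (h.Q_slit hs hx)
  have h3 := ((line_der l d s).const_add (Real.log 2 : ℂ)).sub ((h1.add h2).div_const 2)
  refine HasDerivAt.congr_deriv (f := HH l d) h3 ?_
  unfold gh
  have e : QQ (uu l d s) = 1 + uu l d s - uu l d s ^ 2 := rfl
  generalize uu l d s = u at *
  rw [e] at hQ ⊢
  field_simp
  ring

/-! ### The variable of the node -/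

theorem r_slit {s : ℝ} (hw : ‖uu l d s - 1‖ ≤ 1) :
    1 - ((uu l d s - 1) / 2) ^ 2 ∈ slitPlane ∧ 3 / 4 ≤ (1 - ((uu l d s - 1) / 2) ^ 2).re := by
  have h1 : ‖((uu l d s - 1) / 2) ^ 2‖ ≤ 1 / 4 := by
    rw [norm_pow, norm_div, Complex.norm_two]
    have := norm_nonneg (uu l d s - 1)
    nlinarith
  have h2 := (abs_le.1 ((abs_re_le_norm _).trans h1)).2
  have h3 : 3 / 4 ≤ (1 - ((uu l d s - 1) / 2) ^ 2).re := by
    rw [sub_re, one_re]
    linarith
  exact ⟨Or.inl (by linarith), h3⟩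

theorem r_sq {s : ℝ} (hw : ‖uu l d s - 1‖ ≤ 1) :
    rr l d s ^ 2 = 1 - ((uu l d s - 1) / 2) ^ 2 :=
  sq_exp_half (slitPlane_ne_zero (r_slit hw).1)

theorem r_pos {s : ℝ} (hw : ‖uu l d s - 1‖ ≤ 1) : 0 < (rr l d s).re :=
  exp_half_re (r_slit hw).1

/-- A bound of the real part. -/
theorem r_re {s : ℝ} (hw : ‖uu l d s - 1‖ ≤ 1) : 4 / 5 ≤ (rr l d s).re := by
  have h1 := (r_slit hw).2
  have h2 := congrArg Complex.re (r_sq hw)
  have h3 := r_pos hw
  rw [pow_two, mul_re] at h2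
  have h4 : 3 / 4 ≤ (rr l d s).re ^ 2 := by
    have := mul_self_nonneg (rr l d s).im
    nlinarith
  nlinarith

theorem z_slit {s : ℝ} (hw : ‖uu l d s - 1‖ ≤ 1) :
    ze l d s ∈ slitPlane ∧ 0 < (ze l d s).im := by
  have h1 := r_re hw
  have h2 : |(uu l d s - 1).im| ≤ 1 := (abs_im_le_norm _).trans hw
  have h3 : (ze l d s).im = (uu l d s - 1).im / 2 + (rr l d s).re := by
    unfold ze
    rw [add_im, mul_im, I_re, I_im, show (2 : ℂ) = ((2 : ℝ) : ℂ) by norm_num, div_ofReal_im]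
    ring
  have h4 := (abs_le.1 h2).1
  have h5 : 0 < (ze l d s).im := by
    rw [h3]
    linarith
  exact ⟨slit_of_im h5.ne', h5⟩

theorem Pth.drr (h : Pth l d k1 m) {s : ℝ} (hs : s ∈ Icc (0 : ℝ) 1) (hw : ‖uu l d s - 1‖ ≤ 1) :
    HasDerivAt (rr l d) (-(d * ((uu l d s - 1) * (uu l d s ^ 2 - 1)) /
      (8 * uu l d s * rr l d s))) s := by
  have hu := h.ne hs
  have h0 := r_slit hw
  have h1 : HasDerivAt (fun s => (uu l d s - 1) / 2) (d * ((uu l d s ^ 2 - 1) / (2 * uu l d s)) / 2)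
    s := ((h.du hs).sub_const 1).div_const 2
  have h2 : HasDerivAt (fun s => 1 - ((uu l d s - 1) / 2) ^ 2)
      (-(d * ((uu l d s - 1) * (uu l d s ^ 2 - 1)) / (4 * uu l d s))) s := by
    refine HasDerivAt.congr_deriv ((h1.pow 2).const_sub 1) ?_
    simp only [Nat.cast_ofNat, Nat.add_one_sub_one, pow_one]
    field_simp
    ring
  have h3 : HasDerivAt (fun s => log (1 - ((uu l d s - 1) / 2) ^ 2) / 2)
      (-(d * ((uu l d s - 1) * (uu l d s ^ 2 - 1)) / (4 * uu l d s)) /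
        (1 - ((uu l d s - 1) / 2) ^ 2) / 2) s := (h2.clog_real h0.1).div_const 2
  have h4 : HasDerivAt (rr l d) (rr l d s * (-(d * ((uu l d s - 1) * (uu l d s ^ 2 - 1)) /
      (4 * uu l d s)) / (1 - ((uu l d s - 1) / 2) ^ 2) / 2)) s := h3.cexp
  refine h4.congr_deriv ?_
  rw [← r_sq hw]
  have hr : rr l d s ≠ 0 := fun h0 => by
    have := r_pos hw
    rw [h0] at this
    simp at this
  field_simp
  ring

theorem Pth.dZZ (h : Pth l d k1 m) {s : ℝ} (hs : s ∈ Icc (0 : ℝ) 1) (hw : ‖uu l d s - 1‖ ≤ 1) :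
    HasDerivAt (ZZ l d) (-(d * ((uu l d s - (uu l d s)⁻¹) * (rr l d s)⁻¹) / 8)) s := by
  have hu := h.ne hs
  have h1 : HasDerivAt (fun s => (uu l d s - 1) / 2) (d * ((uu l d s ^ 2 - 1) / (2 * uu l d s)) / 2)
    s := ((h.du hs).sub_const 1).div_const 2
  have h4 : HasDerivAt (ze l d) (d * ((uu l d s ^ 2 - 1) / (2 * uu l d s)) / 2 +
      I * (-(d * ((uu l d s - 1) * (uu l d s ^ 2 - 1)) / (8 * uu l d s * rr l d s)))) s :=
    h1.add ((h.drr hs hw).const_mul I)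
  have h5 := (h4.clog_real (z_slit hw).1).div_const (2 * I)
  refine HasDerivAt.congr_deriv (f := ZZ l d) h5 ?_
  have e2 := r_sq hw
  have hr : rr l d s ≠ 0 := fun h0 => by
    have := r_pos hw
    rw [h0] at this
    simp at this
  have hz := slitPlane_ne_zero (z_slit hw).1
  have e3 : ze l d s = (uu l d s - 1) / 2 + I * rr l d s := rfl
  rw [e3] at hz ⊢
  have hI := I_sq
  have hI0 := I_ne_zero
  generalize rr l d s = r at *
  generalize uu l d s = u at *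
  have key : d * ((u ^ 2 - 1) / (2 * u)) / 2 + I * (-(d * ((u - 1) * (u ^ 2 - 1)) / (8 * u * r))) =
      -(2 * I) * (d * ((u - u⁻¹) * r⁻¹) / 8) * ((u - 1) / 2 + I * r) := by
    field_simp
    linear_combination (8 * d * (u ^ 2 - 1) * r) * hI
  rw [key, mul_div_assoc, div_self hz, mul_one, neg_mul, neg_div,
    mul_div_cancel_left₀ _ (mul_ne_zero (two_ne_zero' ℂ) hI0)]

end Pool.Agent.S5.E.E4
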