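import Pool.Agent.S5.I.NumLb
import Pool.Agent.S5.I.NumLa

/-!
# Rational evaluation of logarithms and arguments
-/

set_option autoImplicit false

namespace Pool.Agent.S5.E.E4

open Complex Pool.Agent.S5.Num

/-- Complex numbers with rational parts. -/
structure G where
  re : ℚ
  im : ℚ

/-- The complex number. -/
noncomputable def G.c (g : G) : ℂ := ⟨(g.re : ℝ), (g.im : ℝ)⟩

/-- The norm. -/
def G.ns (g : G) : ℚ := g.re * g.re + g.im * g.im

def G.add (a b : G) : G := ⟨a.re + b.re, a.im + b.im⟩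
def G.sub (a b : G) : G := ⟨a.re - b.re, a.im - b.im⟩
def G.mul (a b : G) : G := ⟨a.re * b.re - a.im * b.im, a.re * b.im + a.im * b.re⟩
def G.sm (q : ℚ) (a : G) : G := ⟨q * a.re, q * a.im⟩
def G.inv (a : G) : G := ⟨a.re / a.ns, -(a.im / a.ns)⟩

theorem G.c_re (a : G) : a.c.re = (a.re : ℝ) := rfl
theorem G.c_im (a : G) : a.c.im = (a.im : ℝ) := rfl

theorem G.c_add (a b : G) : (a.add b).c = a.c + b.c := by
  apply Complex.ext <;> simp [G.c, G.add]

theorem G.c_sub (a b : G) : (a.sub b).c = a.c - b.c := by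
  apply Complex.ext <;> simp [G.c, G.sub]

theorem G.c_mul (a b : G) : (a.mul b).c = a.c * b.c := by
  apply Complex.ext <;> simp [G.c, G.mul]

theorem G.c_sm (q : ℚ) (a : G) : (G.sm q a).c = ((q : ℝ) : ℂ) * a.c := by
  apply Complex.ext <;> simp [G.c, G.sm]

theorem G.ns_eq (a : G) : ((a.ns : ℚ) : ℝ) = ‖a.c‖ ^ 2 := by
  rw [← normSq_eq_norm_sq, normSq_apply, c_re, c_im, G.ns]
  push_cast
  ring

theorem G.c_inv (a : G) : a.inv.c = (a.c)⁻¹ := by
  have h : normSq a.c = ((a.ns : ℚ) : ℝ) := by rw [G.ns_eq, normSq_eq_norm_sq]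
  apply Complex.ext
  · rw [inv_re, h, c_re, c_re, G.inv]
    push_cast
    rfl
  · rw [inv_im, h, c_im, c_im, G.inv]
    push_cast
    ring

theorem G.ne_of_re {a : G} (h : 0 < a.re) : a.c ≠ 0 := fun h0 => by
  have h1 := congrArg Complex.re h0
  rw [c_re, zero_re] at h1
  have : (0 : ℝ) < (a.re : ℝ) := by exact_mod_cast h
  linarith

/-- A lower bound of the norm. -/
theorem G.le_norm {a : G} {q : ℚ} (h0 : 0 ≤ q) (h : q * q ≤ a.ns) : (q : ℝ) ≤ ‖a.c‖ := by
  have h1 : (q : ℝ) * q ≤ ‖a.c‖ ^ 2 := by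
    rw [← G.ns_eq]
    exact_mod_cast h
  have h2 : (0 : ℝ) ≤ q := by exact_mod_cast h0
  have h3 := norm_nonneg a.c
  nlinarith

/-- An upper bound of the norm. -/
theorem G.norm_le {a : G} {q : ℚ} (h0 : 0 ≤ q) (h : a.ns ≤ q * q) : ‖a.c‖ ≤ (q : ℝ) := by
  have h1 : ‖a.c‖ ^ 2 ≤ (q : ℝ) * q := by
    rw [← G.ns_eq]
    exact_mod_cast h
  have h2 : (0 : ℝ) ≤ q := by exact_mod_cast h0
  have h3 := norm_nonneg a.c
  nlinarith

/-! ### Logarithm and arctangent of rational numbers -/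

/-- Half of the logarithm. -/
def lnR (q : ℚ) : ℚ := ((lnh q.num.toNat : ℚ) - (lnh q.den : ℚ)) / 281474976710656

/-- The condition for the logarithm. -/
def okR (q : ℚ) : Bool :=
  decide (0 < q.num) && Nat.ble (Nat.succ q.num.toNat) (2 ^ 120) && Nat.ble (Nat.succ q.den) (2 ^ 120)

theorem UU_eq : UU = 281474976710656 := rfl

theorem okR_pos {q : ℚ} (h : okR q = true) : 0 < q := by
  unfold okR at h
  rw [Bool.and_eq_true, Bool.and_eq_true, decide_eq_true_eq] at h
  exact Rat.num_pos.1 h.1.1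

theorem lnR_sound {q : ℚ} (h : okR q = true) :
    |(lnR q : ℝ) - 1 / 2 * Real.log q| ≤ 1 / 10 ^ 12 := by
  have hq := okR_pos h
  unfold okR at h
  rw [Bool.and_eq_true, Bool.and_eq_true, decide_eq_true_eq] at h
  obtain ⟨⟨h1, h2⟩, h3⟩ := h
  have h2 : q.num.toNat < 2 ^ 120 := Nat.ble_eq.mp h2
  have h3 : q.den < 2 ^ 120 := Nat.ble_eq.mp h3
  have h4 : 0 < q.num.toNat := by omega
  have s1 := lnh_sound h4 h2
  have s2 := lnh_sound q.den_pos h3
  have e1 : ((q.num.toNat : ℕ) : ℝ) = (q.num : ℝ) := by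
    have : ((q.num.toNat : ℕ) : ℤ) = q.num := Int.toNat_of_nonneg h1.le
    exact_mod_cast this
  have e2 : (q : ℝ) = (q.num : ℝ) / (q.den : ℝ) := by
    exact_mod_cast congrArg (fun x : ℚ => (x : ℝ)) (Rat.num_div_den q).symm
  have n0 : (0 : ℝ) < q.num := by exact_mod_cast h1
  have d0 : (0 : ℝ) < q.den := by exact_mod_cast q.den_pos
  have e3 : Real.log q = Real.log q.num - Real.log q.den := by
    rw [e2, Real.log_div n0.ne' d0.ne']
  rw [e1, UU_eq] at s1
  rw [UU_eq] at s2
  have a1 := abs_le.1 s1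
  have a2 := abs_le.1 s2
  rw [e3]
  unfold lnR
  push_cast
  rw [abs_le]
  constructor
  · linarith
  · linarith

/-- The arctangent. -/
def atR (q : ℚ) : ℚ :=
  if 0 ≤ q.num then (atq q.num.toNat q.den : ℚ) / 281474976710656
  else -((atq (-q.num).toNat q.den : ℚ) / 281474976710656)

theorem atR_sound (q : ℚ) : |(atR q : ℝ) - Real.arctan q| ≤ 1 / 10 ^ 12 := by
  have e2 : (q : ℝ) = (q.num : ℝ) / (q.den : ℝ) := by
    exact_mod_cast congrArg (fun x : ℚ => (x : ℝ)) (Rat.num_div_den q).symm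
  unfold atR
  split_ifs with h
  · have s1 := atq_sound (p := q.num.toNat) q.den_pos
    have e1 : ((q.num.toNat : ℕ) : ℝ) = (q.num : ℝ) := by
      have : ((q.num.toNat : ℕ) : ℤ) = q.num := Int.toNat_of_nonneg h
      exact_mod_cast this
    rw [e1, ← e2, UU_eq] at s1
    have a1 := abs_le.1 s1
    push_cast
    rw [abs_le]
    constructor <;> linarith
  · have s1 := atq_sound (p := (-q.num).toNat) q.den_pos
    have e1 : (((-q.num).toNat : ℕ) : ℝ) = -(q.num : ℝ) := by
      have : (((-q.num).toNat : ℕ) : ℤ) = -q.num := Int.toNat_of_nonneg (by omega)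
      exact_mod_cast this
    rw [e1, neg_div, ← e2, Real.arctan_neg, UU_eq] at s1
    have a1 := abs_le.1 s1
    push_cast
    rw [abs_le]
    constructor <;> linarith

/-! ### The principal logarithm -/

theorem arg_right {z : ℂ} (h : 0 < z.re) : z.arg = Real.arctan (z.im / z.re) := by
  have h1 := abs_lt.1 (abs_arg_lt_pi_div_two_iff.2 (Or.inl h))
  rw [← Complex.tan_arg, Real.arctan_tan h1.1 h1.2]

theorem arg_upper {z : ℂ} (h : 0 < z.im) : z.arg = Real.pi / 2 - Real.arctan (z.re / z.im) := by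
  have hw : 0 < (-(I * z)).re := by simpa using h
  have h1 := abs_lt.1 (abs_arg_lt_pi_div_two_iff.2 (Or.inl hw))
  have h2 := arg_right hw
  have e1 : (-(I * z)).im / (-(I * z)).re = -(z.re / z.im) := by
    simp
    ring
  rw [e1, Real.arctan_neg] at h2
  have hz : z ≠ 0 := fun h0 => by rw [h0] at h; simp at h
  have hw0 : -(I * z) ≠ 0 := neg_ne_zero.2 (mul_ne_zero I_ne_zero hz)
  have e2 : log z = Real.pi / 2 * I + log (-(I * z)) := by
    have e3 : exp (Real.pi / 2 * I + log (-(I * z))) = z := by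
      rw [exp_add, exp_log hw0, exp_pi_div_two_mul_I]
      linear_combination (-z) * I_sq
    have e4 : (Real.pi / 2 * I + log (-(I * z))).im = Real.pi / 2 + (-(I * z)).arg := by
      rw [add_im, log_im]
      simp
    rw [← e3, log_exp]
    · rw [e3]
    · rw [e4]; linarith [Real.pi_pos]
    · rw [e4]; linarith [Real.pi_pos]
  have e5 := congrArg Complex.im e2
  rw [log_im, add_im, log_im, h2] at e5
  rw [e5]
  simp
  ring

/-- The logarithm in the right half plane. -/
theorem log_right {g : G} (h : 0 < g.re) (hn : okR g.ns = true) :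
    |(log g.c).re - lnR g.ns| ≤ 1 / 10 ^ 12 ∧ |(log g.c).im - atR (g.im / g.re)| ≤ 1 / 10 ^ 12 := by
  have h' : 0 < g.c.re := by rw [G.c_re]; exact_mod_cast h
  constructor
  · have h1 := lnR_sound hn
    rw [G.ns_eq, Real.log_pow] at h1
    rw [log_re, abs_sub_comm]
    push_cast at h1
    have e : 1 / 2 * (2 * Real.log ‖g.c‖) = Real.log ‖g.c‖ := by ring
    rw [e] at h1
    exact h1
  · have h1 := atR_sound (g.im / g.re)
    rw [log_im, arg_right h', abs_sub_comm, G.c_re, G.c_im]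
    push_cast at h1
    exact h1

/-- The logarithm in the upper half plane. -/
theorem log_upper {g : G} (h : 0 < g.im) (hn : okR g.ns = true) :
    |(log g.c).re - lnR g.ns| ≤ 1 / 10 ^ 12 ∧
      |(log g.c).im - (Real.pi / 2 - atR (g.re / g.im))| ≤ 1 / 10 ^ 12 := by
  have h' : 0 < g.c.im := by rw [G.c_im]; exact_mod_cast h
  constructor
  · have h1 := lnR_sound hn
    rw [G.ns_eq, Real.log_pow] at h1
    rw [log_re, abs_sub_comm]
    push_cast at h1
    have e : 1 / 2 * (2 * Real.log ‖g.c‖) = Real.log ‖g.c‖ := by ring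
    rw [e] at h1
    exact h1
  · have h1 := atR_sound (g.re / g.im)
    rw [log_im, arg_upper h', G.c_re, G.c_im]
    push_cast at h1
    have h2 := abs_le.1 h1
    rw [abs_le]
    constructor <;> linarith

end Pool.Agent.S5.E.E4
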