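import Pool.Agent.S5.E.E4.Lip
import Pool.Agent.S5.G.SlotM

/-!
# The end with four half twists: the end points of the path
-/

set_option autoImplicit false

namespace Pool.Agent.S5.E.E4

open Complex Set Pool.Agent.S5.G
open Pool.Agent.H63.VC3 (hh)

/-- A solution of the equation of an end with four half twists. -/
structure Z4 (z b : ℂ) : Prop where
  z0 : 0 < z.re
  z1 : z.re < Real.pi / 2
  zi : 0 < z.im
  eb : b = 4 * I * cos z ^ 2 * cos (2 * z)
  u0 : 0 < (4 * cos z ^ 2 - 1).re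

/-- The number `q` of the slot. -/
noncomputable def q4 (z : ℂ) : ℂ := I * (Real.pi - 4 * z)

variable {z b l d : ℂ}

theorem Z4.uq (h : Z4 z b) : 1 - 2 * I * b = (4 * cos z ^ 2 - 1) ^ 2 := by
  rw [h.eb, cos_two_mul]
  linear_combination (-(8 * cos z ^ 2 * (2 * cos z ^ 2 - 1))) * I_sq

theorem Z4.b0 (hb : b ≠ 0) (hl : l + d = log b) : bb l d 1 = b := by
  unfold bb
  rw [ofReal_one, one_mul, hl, exp_log hb]

theorem Z4.uu1 (h : Z4 z b) (hb : b ≠ 0) (hl : l + d = log b) :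
    uu l d 1 = 4 * cos z ^ 2 - 1 := by
  unfold uu
  rw [Z4.b0 hb hl]
  exact exp_half_eq h.uq h.u0

theorem Z4.cosz (h : Z4 z b) : 0 < (cos z).re := by
  rw [cos_re]
  exact mul_pos (Real.cos_pos_of_mem_Ioo ⟨by linarith [h.z0, Real.pi_pos], h.z1⟩) (Real.cosh_pos _)

theorem Z4.LL1 (h : Z4 z b) (hb : b ≠ 0) (hl : l + d = log b) :
    LL l d 1 = 2 * (log b - log (cos z)) := by
  unfold LL
  rw [h.uu1 hb hl, ofReal_one, one_mul, hl,
    show (1 + (4 * cos z ^ 2 - 1)) / 4 = cos z ^ 2 by ring, log_sq h.cosz]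
  ring

theorem Z4.ZZ1 (h : Z4 z b) (hb : b ≠ 0) (hl : l + d = log b) : ZZ l d 1 = z := by
  have e1 : (uu l d 1 - 1) / 2 = cos (2 * z) := by
    rw [h.uu1 hb hl, cos_two_mul]
    ring
  have e2 : rr l d 1 = sin (2 * z) := by
    unfold rr
    rw [e1]
    apply exp_half_eq
    · rw [← Complex.sin_sq_add_cos_sq (2 * z)]
      ring
    · rw [show (2 : ℂ) * z = ((2 : ℝ) : ℂ) * z by norm_num, sin_re, re_ofReal_mul, im_ofReal_mul]
      exact mul_pos (Real.sin_pos_of_pos_of_lt_pi (by linarith [h.z0]) (by linarith [h.z1]))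
        (Real.cosh_pos _)
  have e3 : ze l d 1 = exp (2 * I * z) := by
    unfold ze
    rw [e1, e2, show 2 * I * z = 2 * z * I by ring, exp_mul_I]
    ring
  have e4 : (2 * I * z).im = 2 * z.re := by
    rw [show 2 * I * z = ((2 : ℝ) : ℂ) * (I * z) by push_cast; ring, im_ofReal_mul, I_mul_im]
  unfold ZZ
  rw [e3, log_exp (by rw [e4]; linarith [h.z0, Real.pi_pos]) (by rw [e4]; linarith [h.z1])]
  rw [mul_div_cancel_left₀]
  exact mul_ne_zero two_ne_zero I_ne_zero

theorem sin_five (z : ℂ) : sin (5 * z) = sin z * ((4 * cos z ^ 2 - 1) ^ 2 -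
    (4 * cos z ^ 2 - 1) - 1) := by
  have e : 5 * z = 3 * z + 2 * z := by ring
  have h1 := Complex.sin_sq_add_cos_sq z
  have e2 : sin z ^ 2 = 1 - cos z ^ 2 := by rw [← h1]; ring
  rw [e, sin_add, sin_three_mul, cos_three_mul, sin_two_mul, cos_two_mul,
    show (3 * sin z - 4 * sin z ^ 3) = sin z * (3 - 4 * sin z ^ 2) by ring, e2]
  ring

theorem sin_three (z : ℂ) : sin (3 * z) = sin z * (4 * cos z ^ 2 - 1) := by
  have h1 := Complex.sin_sq_add_cos_sq z
  have e2 : sin z ^ 2 = 1 - cos z ^ 2 := by rw [← h1]; ring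
  rw [sin_three_mul, show (3 * sin z - 4 * sin z ^ 3) = sin z * (3 - 4 * sin z ^ 2) by ring, e2]
  ring

theorem sinh_q4_add (z : ℂ) : sinh (q4 z + I * z) = I * sin (3 * z) := by
  have e : q4 z + I * z = (Real.pi - 3 * z) * I := by unfold q4; ring
  rw [e, sinh_mul_I, sin_pi_sub]
  ring

theorem sinh_q4_sub (z : ℂ) : sinh (q4 z - I * z) = I * sin (5 * z) := by
  have e : q4 z - I * z = (Real.pi - 5 * z) * I := by unfold q4; ring
  rw [e, sinh_mul_I, sin_pi_sub]
  ring

/-- The equality of two numbers with the same exponential. -/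
theorem eq_of_exp {x y : ℂ} (h : exp (2 * Real.pi * I * x) = exp (2 * Real.pi * I * y))
    (h1 : x.re - y.re < 1) (h2 : -1 < x.re - y.re) : x = y := by
  rw [exp_eq_exp_iff_exists_int] at h
  obtain ⟨n, hn⟩ := h
  have h3 : x = y + n := by
    have h4 : 2 * Real.pi * I * x = 2 * Real.pi * I * (y + n) := by rw [hn]; ring
    exact mul_left_cancel₀ Complex.two_pi_I_ne_zero h4
  have h4 : x.re - y.re = n := by
    rw [h3, add_re, intCast_re]
    ring
  rw [h4] at h1 h2
  have h5 : n < 1 := by exact_mod_cast h1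
  have h6 : -1 < n := by exact_mod_cast h2
  have h7 : n = 0 := by omega
  rw [h3, h7]
  simp

theorem Z4.YY1 {k1 m D K ρ mc g q qc n3 w1 vc : ℝ} (hC : Cs l d k1 m D K ρ mc g q qc n3 w1 vc)
    (h : Z4 z b) (hb : b ≠ 0) (hl : l + d = log b) (hs : Slot (q4 z) z) :
    YY l d 1 = sy (q4 z) z := by
  have hpi := Real.pi_pos
  have hx := hC.x one_mem_Icc'
  have hi := hC.toPth.im one_mem_Icc'
  have hQ := hC.toPth.Q_slit one_mem_Icc' hx
  have hu := hC.toPth.ne one_mem_Icc'
  have hQ0 := slitPlane_ne_zero hQ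
  have hQi : 0 < (QQ (uu l d 1)).im := by
    rw [QQ_im]
    exact mul_pos_of_neg_of_neg hi (by linarith)
  have e1 : 2 * Real.pi * I * YY l d 1 = Real.pi * I + (log (uu l d 1) - log (QQ (uu l d 1))) := by
    unfold YY
    rw [mul_add, mul_div_cancel₀ _ Complex.two_pi_I_ne_zero]
    ring
  have hsz : sin z ≠ 0 := fun h0 => by
    have := (sin_quad h.z0 h.z1 h.zi).1
    rw [h0] at this
    simp at this
  have hsum : exp (2 * Real.pi * I * YY l d 1) = exp (2 * Real.pi * I * sy (q4 z) z) := by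
    rw [e1, exp_add, exp_pi_mul_I, exp_sub, exp_log hu, exp_log hQ0, sy_mul, exp_sub, hs.eA, hs.eB,
      sinh_q4_add, sinh_q4_sub, sin_three, sin_five]
    have e2 := h.uu1 hb hl
    rw [← e2]
    have e3 : uu l d 1 ^ 2 - uu l d 1 - 1 = -QQ (uu l d 1) := by
      unfold QQ
      ring
    rw [e3]
    have hI := I_ne_zero
    field_simp
  have a1 := abs_arg_lt_pi_div_two_iff.2 (Or.inl (hC.toPth.re one_mem_Icc'))
  have a1 := abs_lt.1 a1
  have a2 : 0 < (QQ (uu l d 1)).arg := by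
    have h1 := arg_nonneg_iff.2 hQi.le
    refine lt_of_le_of_ne h1 (fun h0 => ?_)
    have := arg_eq_zero_iff.1 h0.symm
    linarith [this.2]
  have a3 := arg_le_pi (QQ (uu l d 1))
  have a4 : (uu l d 1).arg < 0 := arg_neg_iff.2 hi
  have h1 : 2 * Real.pi * (YY l d 1).re = Real.pi + ((uu l d 1).arg - (QQ (uu l d 1)).arg) := by
    rw [← two_pi_I_mul_im, e1, add_im, sub_im, log_im, log_im, im_ofReal_mul, I_im, mul_one]
  obtain ⟨s1, s2⟩ := hs.sy_re
  apply eq_of_exp hsum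
  · by_contra h5
    push Not at h5
    nlinarith
  · by_contra h5
    push Not at h5
    nlinarith

theorem Z4.HH1 {k1 m D K ρ mc g q qc n3 w1 vc : ℝ} (hC : Cs l d k1 m D K ρ mc g q qc n3 w1 vc)
    (h : Z4 z b) (hb : b ≠ 0) (hl : l + d = log b) (hs : Slot (q4 z) z)
    (hH : |(HH l d 1).im| < Real.pi / 2) :
    HH l d 1 = hh (1 / 2 - sy (q4 z) z) := by
  have hpi := Real.pi_pos
  have hx := hC.x one_mem_Icc'
  have hi := hC.toPth.im one_mem_Icc'
  have hQ := hC.toPth.Q_slit one_mem_Icc' hx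
  have hu := hC.toPth.ne one_mem_Icc'
  have hQ0 := slitPlane_ne_zero hQ
  have hb1 := Z4.b0 hb hl
  have hsq := hC.toPth.sq one_mem_Icc'
  rw [hb1] at hsq
  -- `4 cos² π y = 4 b² / (u Q)`
  have hY := Z4.YY1 hC h hb hl hs
  have e1 : exp (2 * Real.pi * I * sy (q4 z) z) = -(uu l d 1 / QQ (uu l d 1)) := by
    rw [← hY]
    unfold YY
    rw [mul_add, mul_div_cancel₀ _ Complex.two_pi_I_ne_zero, exp_add, exp_sub, exp_log hu,
      exp_log hQ0, show (2 : ℂ) * Real.pi * I * (1 / 2) = Real.pi * I by ring, exp_pi_mul_I]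
    ring
  set y := sy (q4 z) z with hy
  set u := uu l d 1 with hu'
  have hlog2 : exp (Real.log 2 : ℂ) = 2 := by
    rw [← ofReal_exp, Real.exp_log two_pos]
    norm_num
  have e2 : exp (HH l d 1) ^ 2 = 4 * b ^ 2 / (u * QQ u) := by
    have e3 : exp ((log u + log (QQ u)) / 2) ^ 2 = u * QQ u := by
      rw [← Complex.exp_nat_mul]
      push_cast
      rw [mul_div_cancel₀ _ (two_ne_zero' ℂ), exp_add, exp_log hu, exp_log hQ0]
    have e4 : HH l d 1 = Real.log 2 + log b - (log u + log (QQ u)) / 2 := by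
      unfold HH
      rw [ofReal_one, one_mul, hl]
    rw [e4, exp_sub, exp_add, exp_log hb, hlog2, div_pow, e3]
    ring
  have e3 : (2 * cos (Real.pi * y)) ^ 2 = 4 * b ^ 2 / (u * QQ u) := by
    have e5 : (2 * cos (Real.pi * y)) ^ 2 * exp (2 * Real.pi * I * y) =
        (exp (2 * Real.pi * I * y) + 1) ^ 2 := by
      have e6 : exp (2 * Real.pi * I * y) = exp (Real.pi * y * I) ^ 2 := by
        rw [← Complex.exp_nat_mul]
        congr 1
        push_cast
        ring
      have e7 : 2 * cos (Real.pi * y) = exp (Real.pi * y * I) + exp (-(Real.pi * y * I)) := by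
        rw [Complex.cos]
        ring_nf
      have e8 : exp (-(Real.pi * y * I)) * exp (Real.pi * y * I) = 1 := by
        rw [← exp_add]
        simp
      rw [e6, e7]
      linear_combination (2 * exp (Real.pi * y * I) ^ 2 +
        exp (-(Real.pi * y * I)) * exp (Real.pi * y * I) + 1) * e8
    rw [e1] at e5
    have e6 : (2 * cos (Real.pi * y)) ^ 2 = -((QQ u - u) ^ 2 / (u * QQ u)) := by
      have h1 : u / QQ u ≠ 0 := div_ne_zero hu hQ0
      apply mul_right_cancel₀ (neg_ne_zero.2 h1)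
      rw [e5]
      field_simp
      ring
    have e7 : QQ u - u = -(u ^ 2 - 1) := by
      unfold QQ
      ring
    rw [e6, e7, hsq, neg_sq, show (1 - 2 * I * b - 1 : ℂ) ^ 2 = 4 * I ^ 2 * b ^ 2 by ring, I_sq]
    ring
  -- the signs
  have hs1 := hs.sy_re
  have hyl : y.re ≤ 1 / 2 := hs1.2
  have e4 : exp (HH l d 1) = 2 * cos (Real.pi * y) := by
    rcases sq_eq_sq_iff_eq_or_eq_neg.1 (e2.trans e3.symm) with h1 | h1
    · exact h1
    · exfalso
      have h2 := congrArg Complex.re h1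
      rw [exp_re, neg_re] at h2
      have h3 := abs_lt.1 hH
      have h4 := mul_pos (Real.exp_pos (HH l d 1).re)
        (Real.cos_pos_of_mem_Ioo ⟨by linarith, h3.2⟩)
      have h5 : 0 ≤ (2 * cos (Real.pi * y)).re := by
        rw [show (2 : ℂ) = ((2 : ℝ) : ℂ) by norm_num, re_ofReal_mul, cos_re, re_ofReal_mul]
        have : 0 ≤ Real.cos (Real.pi * y.re) := by
          apply Real.cos_nonneg_of_mem_Icc
          constructor
          · have := mul_pos hpi hs1.1
            linarith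
          · nlinarith
        positivity
      linarith
  have e5 : 2 * sin (Real.pi * (1 / 2 - y)) = exp (HH l d 1) := by
    rw [e4, show (Real.pi : ℂ) * (1 / 2 - y) = Real.pi / 2 - Real.pi * y by ring, sin_pi_div_two_sub]
  unfold hh
  rw [e5, log_exp]
  · have := (abs_lt.1 hH).1
    linarith
  · have := (abs_lt.1 hH).2
    linarith

/-! ### The centre -/

/-- The centre. -/
structure Ctr (t c r bc : ℂ) : Prop where
  t0 : t ≠ 0
  ec : c = 1 + t + t⁻¹
  c0 : 0 < c.re
  er : r = (t - t⁻¹) / (2 * I)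
  r0 : 0 < r.re
  ebc : bc = I * (c ^ 2 - 1) / 2
  b0 : 0 < bc.re

theorem Ctr.bne {t c r bc : ℂ} (h : Ctr t c r bc) : bc ≠ 0 := fun h0 => by
  have := h.b0
  rw [h0] at this
  simp at this

theorem Ctr.bb0 {t c r bc : ℂ} (h : Ctr t c r bc) (d : ℂ) : bb (log bc) d 0 = bc := by
  unfold bb
  rw [ofReal_zero, zero_mul, add_zero, exp_log h.bne]

theorem Ctr.uu0 {t c r bc : ℂ} (h : Ctr t c r bc) (d : ℂ) : uu (log bc) d 0 = c := by
  unfold uu
  rw [h.bb0]
  apply exp_half_eq _ h.c0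
  rw [h.ebc]
  linear_combination (-(c ^ 2 - 1)) * I_sq

theorem Ctr.rr0 {t c r bc : ℂ} (h : Ctr t c r bc) (d : ℂ) : rr (log bc) d 0 = r := by
  unfold rr
  rw [h.uu0]
  apply exp_half_eq _ h.r0
  have ht := h.t0
  have hI := I_ne_zero
  rw [h.ec, h.er, div_pow _ (2 * I), mul_pow, I_sq]
  field_simp
  ring

theorem Ctr.ZZ0 {t c r bc : ℂ} (h : Ctr t c r bc) (d : ℂ) : ZZ (log bc) d 0 = log t / (2 * I) := by
  have e : ze (log bc) d 0 = t := by
    unfold ze
    rw [h.uu0, h.rr0, h.ec, h.er]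
    have hI := I_ne_zero
    have ht := h.t0
    field_simp
    ring
  unfold ZZ
  rw [e]

theorem Ctr.LL0 {t c r bc : ℂ} (h : Ctr t c r bc) (d : ℂ) :
    LL (log bc) d 0 = 2 * log bc - log ((1 + c) / 4) := by
  unfold LL
  rw [h.uu0, ofReal_zero, zero_mul, add_zero]

theorem Ctr.YY0 {t c r bc : ℂ} (h : Ctr t c r bc) (d : ℂ) :
    YY (log bc) d 0 = 1 / 2 + (log c - log (QQ c)) / (2 * Real.pi * I) := by
  unfold YY
  rw [h.uu0]

theorem Ctr.HH0 {t c r bc : ℂ} (h : Ctr t c r bc) (d : ℂ) :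
    HH (log bc) d 0 = Real.log 2 + log bc - (log c + log (QQ c)) / 2 := by
  unfold HH
  rw [h.uu0, ofReal_zero, zero_mul, add_zero]

end Pool.Agent.S5.E.E4
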