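import Pool.Agent.S5.E.E4.Der

/-!
# The end with four half twists: linear approximation
-/

set_option autoImplicit false

namespace Pool.Agent.S5.E.E4

open Complex Set

/-- The constants of the path. -/
structure Cs (l d : ℂ) (k1 m D K ρ mc g q qc n3 w1 vc : ℝ) : Prop extends Pth l d k1 m where
  hD : ‖d‖ ≤ D
  hK : k1 ≤ K * m
  hρ : K * D ≤ ρ
  c0 : 0 < mc
  hc : mc ≤ ‖uu l d 0‖
  hg : ‖2 * uu l d 0 - 1‖ ≤ g
  q0 : 0 < q
  hq : q + ρ * (g + ρ) ≤ qc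
  hqc : qc ≤ ‖QQ (uu l d 0)‖
  h3 : ‖3 - 2 * uu l d 0 + 2 * uu l d 0 ^ 2‖ ≤ n3
  hw : ‖uu l d 0 - 1‖ ≤ w1
  hw1 : w1 + ρ ≤ 1
  hx : 1 / 2 + ρ < (uu l d 0).re
  hv : ‖uu l d 0 - (uu l d 0)⁻¹‖ ≤ vc

variable {l d : ℂ} {k1 m D K ρ mc g q qc n3 w1 vc : ℝ}

theorem zero_mem_Icc' : (0 : ℝ) ∈ Icc (0 : ℝ) 1 := by simp

theorem one_mem_Icc' : (1 : ℝ) ∈ Icc (0 : ℝ) 1 := by simp

theorem Cs.D0 (h : Cs l d k1 m D K ρ mc g q qc n3 w1 vc) : 0 ≤ D := (norm_nonneg _).trans h.hD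

theorem Cs.K0 (h : Cs l d k1 m D K ρ mc g q qc n3 w1 vc) : 0 ≤ K := by
  have h1 : 0 ≤ k1 := (norm_nonneg _).trans (h.hk 0 zero_mem_Icc')
  have h2 := h.m0
  by_contra h3
  push Not at h3
  have := mul_neg_of_neg_of_pos h3 h2
  linarith [h.hK]

theorem Cs.u (h : Cs l d k1 m D K ρ mc g q qc n3 w1 vc) {s : ℝ} (hs : s ∈ Icc (0 : ℝ) 1) :
    ‖uu l d s - uu l d 0‖ ≤ K * D * s := by
  refine (h.toPth.lipU hs).trans ?_
  have h1 : k1 / m ≤ K := by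
    rw [div_le_iff₀ h.m0]
    exact h.hK
  apply mul_le_mul_of_nonneg_right _ hs.1
  exact mul_le_mul h1 h.hD (norm_nonneg _) h.K0

theorem Cs.u' (h : Cs l d k1 m D K ρ mc g q qc n3 w1 vc) {s : ℝ} (hs : s ∈ Icc (0 : ℝ) 1) :
    ‖uu l d s - uu l d 0‖ ≤ ρ := by
  refine (h.u hs).trans (le_trans ?_ h.hρ)
  have := mul_nonneg h.K0 h.D0
  nlinarith [hs.2]

theorem Cs.ρ0 (h : Cs l d k1 m D K ρ mc g q qc n3 w1 vc) : 0 ≤ ρ :=
  (norm_nonneg _).trans (h.u' zero_mem_Icc')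

theorem Cs.x (h : Cs l d k1 m D K ρ mc g q qc n3 w1 vc) {s : ℝ} (hs : s ∈ Icc (0 : ℝ) 1) :
    1 / 2 < (uu l d s).re := by
  have h1 := (abs_le.1 ((abs_re_le_norm _).trans (h.u' hs))).1
  rw [sub_re] at h1
  linarith [h.hx]

theorem Cs.w (h : Cs l d k1 m D K ρ mc g q qc n3 w1 vc) {s : ℝ} (hs : s ∈ Icc (0 : ℝ) 1) :
    ‖uu l d s - 1‖ ≤ 1 := by
  have e : uu l d s - 1 = (uu l d s - uu l d 0) + (uu l d 0 - 1) := by ring
  rw [e]
  have h1 := norm_add_le (uu l d s - uu l d 0) (uu l d 0 - 1)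
  linarith [h.u' hs, h.hw, h.hw1]

theorem Cs.Q (h : Cs l d k1 m D K ρ mc g q qc n3 w1 vc) {s : ℝ} (hs : s ∈ Icc (0 : ℝ) 1) :
    q ≤ ‖QQ (uu l d s)‖ := by
  have e : QQ (uu l d 0) = QQ (uu l d s) - (uu l d s - uu l d 0) *
      (-(2 * uu l d 0 - 1) - (uu l d s - uu l d 0)) := by
    unfold QQ
    ring
  have h1 := norm_sub_le (QQ (uu l d s)) ((uu l d s - uu l d 0) *
      (-(2 * uu l d 0 - 1) - (uu l d s - uu l d 0)))
  rw [← e, norm_mul] at h1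
  have h2 := norm_sub_le (-(2 * uu l d 0 - 1)) (uu l d s - uu l d 0)
  rw [norm_neg] at h2
  have h3 := h.u' hs
  have h4 : ‖uu l d s - uu l d 0‖ * ‖-(2 * uu l d 0 - 1) - (uu l d s - uu l d 0)‖ ≤
      ρ * (g + ρ) := mul_le_mul h3 (by linarith [h.hg]) (norm_nonneg _) h.ρ0
  linarith [h.hq, h.hqc]

/-- The inverse. -/
theorem inv_lip {u c : ℂ} {m mc : ℝ} (hm : 0 < m) (hmc : 0 < mc) (hu : m ≤ ‖u‖) (hc : mc ≤ ‖c‖) :
    ‖u⁻¹ - c⁻¹‖ ≤ ‖u - c‖ * (1 / (m * mc)) := by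
  have h1 : u ≠ 0 := fun h0 => by rw [h0, norm_zero] at hu; linarith
  have h2 : c ≠ 0 := fun h0 => by rw [h0, norm_zero] at hc; linarith
  have e : u⁻¹ - c⁻¹ = -((u - c) * (u * c)⁻¹) := by
    field_simp
    ring
  rw [e, norm_neg, norm_mul, norm_inv, norm_mul]
  apply mul_le_mul_of_nonneg_left _ (norm_nonneg _)
  rw [one_div]
  apply inv_anti₀ (mul_pos hm hmc)
  exact mul_le_mul hu hc hmc.le (hm.le.trans hu)

theorem norm_inv_le {u : ℂ} {m : ℝ} (hm : 0 < m) (hu : m ≤ ‖u‖) : ‖u⁻¹‖ ≤ 1 / m := by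
  rw [norm_inv, one_div]
  exact inv_anti₀ hm hu

/-- The three Lipschitz constants. -/
theorem Cs.e1 (h : Cs l d k1 m D K ρ mc g q qc n3 w1 vc) {s : ℝ} (hs : s ∈ Icc (0 : ℝ) 1) :
    ‖(uu l d s)⁻¹ - (uu l d 0)⁻¹‖ ≤ K * D * s * (1 / (m * mc)) := by
  have h1 := inv_lip h.m0 h.c0 (h.hm s hs) h.hc
  have h2 := h.u hs
  have h3 : 0 ≤ 1 / (m * mc) := by
    have := h.m0
    have := h.c0
    positivity
  exact h1.trans (mul_le_mul_of_nonneg_right h2 h3)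

theorem Cs.e2 (h : Cs l d k1 m D K ρ mc g q qc n3 w1 vc) {s : ℝ} (hs : s ∈ Icc (0 : ℝ) 1) :
    ‖(uu l d s)⁻¹ ^ 2 - (uu l d 0)⁻¹ ^ 2‖ ≤
      K * D * s * (1 / (m * mc)) * (1 / m + 1 / mc) := by
  have h1 := h.e1 hs
  have h2 := norm_inv_le h.m0 (h.hm s hs)
  have h3 := norm_inv_le h.c0 h.hc
  have h4 := norm_add_le (uu l d s)⁻¹ (uu l d 0)⁻¹
  rw [sq_sub_sq, mul_comm, norm_mul]
  exact mul_le_mul h1 (by linarith) (norm_nonneg _) ((norm_nonneg _).trans h1)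

theorem Cs.e3 (h : Cs l d k1 m D K ρ mc g q qc n3 w1 vc) {s : ℝ} (hs : s ∈ Icc (0 : ℝ) 1) :
    ‖(2 * uu l d s - 1) * (QQ (uu l d s))⁻¹ - (2 * uu l d 0 - 1) * (QQ (uu l d 0))⁻¹‖ ≤
      K * D * s * ((n3 + ρ * g) / (q * qc)) := by
  have hq1 := h.Q hs
  have hq0 := h.q0
  have hρ := h.ρ0
  have hg0 : 0 ≤ g := (norm_nonneg _).trans h.hg
  have hqc : 0 < qc := by
    have := mul_nonneg hρ (add_nonneg hg0 hρ)
    linarith [h.hq]
  have h1 := h.u hs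
  have h2 := h.u' hs
  have h3 := h.h3
  have hg := h.hg
  have hqc' := h.hqc
  have e : ∀ u c : ℂ, QQ u ≠ 0 → QQ c ≠ 0 → (2 * u - 1) * (QQ u)⁻¹ - (2 * c - 1) * (QQ c)⁻¹ =
      (u - c) * ((3 - 2 * c + 2 * c ^ 2) + (u - c) * (2 * c - 1)) * (QQ u * QQ c)⁻¹ := by
    intro u c h1 h2
    have e1 : (2 * u - 1) * QQ c - (2 * c - 1) * QQ u =
      (u - c) * ((3 - 2 * c + 2 * c ^ 2) + (u - c) * (2 * c - 1)) := by
      unfold QQ
      ring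
    rw [← e1]
    field_simp
  have n1 : QQ (uu l d s) ≠ 0 := fun h0 => by rw [h0, norm_zero] at hq1; linarith
  have n2 : QQ (uu l d 0) ≠ 0 := fun h0 => by rw [h0, norm_zero] at hqc'; linarith
  rw [e _ _ n1 n2, norm_mul, norm_mul, norm_inv, norm_mul, div_eq_mul_inv, mul_assoc]
  generalize uu l d s = u at *
  generalize uu l d 0 = c at *
  have h4 : ‖(3 - 2 * c + 2 * c ^ 2) + (u - c) * (2 * c - 1)‖ ≤ n3 + ρ * g := by
    refine (norm_add_le _ _).trans ?_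
    rw [norm_mul]
    have := mul_le_mul h2 hg (norm_nonneg _) hρ
    linarith
  have h5 : (‖QQ u‖ * ‖QQ c‖)⁻¹ ≤ (q * qc)⁻¹ :=
    inv_anti₀ (mul_pos hq0 hqc) (mul_le_mul hq1 hqc' hqc.le (hq0.le.trans hq1))
  apply mul_le_mul h1 _ (by positivity) ((norm_nonneg _).trans h1)
  exact mul_le_mul h4 h5 (by positivity) ((norm_nonneg _).trans h4)

theorem Cs.e4 (h : Cs l d k1 m D K ρ mc g q qc n3 w1 vc) {s : ℝ} (hs : s ∈ Icc (0 : ℝ) 1) :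
    ‖(uu l d s - (uu l d s)⁻¹) * (rr l d s)⁻¹ - (uu l d 0 - (uu l d 0)⁻¹) * (rr l d 0)⁻¹‖ ≤
      K * D * s * ((1 + 1 / (m * mc)) * (5 / 4) + vc * ((w1 + ρ / 2) / 2 * (125 / 128))) := by
  have hw := h.w hs
  have hw0 := h.w zero_mem_Icc'
  have r1 := r_re hw
  have r2 := r_re hw0
  have q1 := r_sq hw
  have q2 := r_sq hw0
  have h1 := h.u hs
  have h2 := h.u' hs
  have h3 := h.e1 hs
  have hm0 := h.m0
  have hc0 := h.c0
  have hvc := h.hv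
  have hw1 := h.hw
  have hK := mul_nonneg (mul_nonneg h.K0 h.D0) hs.1
  have n1 : rr l d s ≠ 0 := fun h0 => by rw [h0] at r1; simp at r1; linarith
  have n2 : rr l d 0 ≠ 0 := fun h0 => by rw [h0] at r2; simp at r2; linarith
  have m1 : 4 / 5 ≤ ‖rr l d s‖ := r1.trans ((le_abs_self _).trans (abs_re_le_norm _))
  have m2 : 4 / 5 ≤ ‖rr l d 0‖ := r2.trans ((le_abs_self _).trans (abs_re_le_norm _))
  have m3 : 8 / 5 ≤ ‖rr l d s + rr l d 0‖ := by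
    refine le_trans ?_ ((le_abs_self _).trans (abs_re_le_norm _))
    rw [add_re]
    linarith
  have i1 : ‖(rr l d s)⁻¹‖ ≤ 5 / 4 := by
    have := norm_inv_le (by norm_num : (0 : ℝ) < 4 / 5) m1
    linarith
  generalize uu l d s = u at *
  generalize uu l d 0 = c at *
  generalize rr l d s = r at *
  generalize rr l d 0 = r' at *
  -- the square roots
  have h4 : ‖r - r'‖ ≤ K * D * s * ((w1 + ρ / 2) / 2 * (5 / 8)) := by
    have e : (r - r') * (r + r') = -((u - c) * ((u - c) + 2 * (c - 1)) / 4) := by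
      have : (r - r') * (r + r') = r ^ 2 - r' ^ 2 := by ring
      rw [this, q1, q2]
      ring
    have e2 : ‖r - r'‖ * ‖r + r'‖ = ‖u - c‖ * ‖(u - c) + 2 * (c - 1)‖ / 4 := by
      rw [← norm_mul, e, norm_neg, norm_div, norm_mul]
      norm_num
    have h5 : ‖(u - c) + 2 * (c - 1)‖ ≤ 2 * (w1 + ρ / 2) := by
      refine (norm_add_le _ _).trans ?_
      rw [norm_mul, Complex.norm_two]
      linarith
    have h6 : ‖r - r'‖ * (8 / 5) ≤ ‖r - r'‖ * ‖r + r'‖ :=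
      mul_le_mul_of_nonneg_left m3 (norm_nonneg _)
    have h7 : ‖u - c‖ * ‖(u - c) + 2 * (c - 1)‖ ≤ K * D * s * (2 * (w1 + ρ / 2)) :=
      mul_le_mul h1 h5 (norm_nonneg _) hK
    linarith
  have h5 : ‖r⁻¹ - r'⁻¹‖ ≤ K * D * s * ((w1 + ρ / 2) / 2 * (125 / 128)) := by
    have h6 := inv_lip (by norm_num : (0 : ℝ) < 4 / 5) (by norm_num : (0 : ℝ) < 4 / 5) m1 m2
    linarith
  have e : (u - u⁻¹) * r⁻¹ - (c - c⁻¹) * r'⁻¹ = ((u - c) - (u⁻¹ - c⁻¹)) * r⁻¹ +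
      (c - c⁻¹) * (r⁻¹ - r'⁻¹) := by ring
  rw [e]
  refine (norm_add_le _ _).trans ?_
  rw [norm_mul, norm_mul]
  have h6 : ‖(u - c) - (u⁻¹ - c⁻¹)‖ ≤ K * D * s * (1 + 1 / (m * mc)) := by
    refine (norm_sub_le _ _).trans ?_
    linarith
  have h7 : ‖(u - c) - (u⁻¹ - c⁻¹)‖ * ‖r⁻¹‖ ≤ K * D * s * (1 + 1 / (m * mc)) * (5 / 4) :=
    mul_le_mul h6 i1 (norm_nonneg _) ((norm_nonneg _).trans h6)
  have h8 : ‖c - c⁻¹‖ * ‖r⁻¹ - r'⁻¹‖ ≤ vc * (K * D * s * ((w1 + ρ / 2) / 2 * (125 / 128))) :=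
    mul_le_mul hvc h5 (norm_nonneg _) ((norm_nonneg _).trans hvc)
  linarith

/-! ### The linear approximations -/

theorem Cs.mul_d (h : Cs l d k1 m D K ρ mc g q qc n3 w1 vc) {s : ℝ} {x : ℂ} {L : ℝ}
    (hx : ‖x‖ ≤ K * D * s * L) : ‖d * x‖ ≤ K * D ^ 2 * L * s := by
  rw [norm_mul]
  have h1 := mul_le_mul h.hD hx (norm_nonneg _) h.D0
  calc _ ≤ _ := h1
    _ = _ := by ring

theorem Cs.LL_lin (h : Cs l d k1 m D K ρ mc g q qc n3 w1 vc) :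
    ‖LL l d 1 - LL l d 0 - d * (3 / 2 + 1 / 2 * (uu l d 0)⁻¹)‖ ≤
      K * D ^ 2 * (1 / (m * mc)) / 4 := by
  have h1 := tay (F := LL l d) (F' := fun s => d * (3 / 2 + 1 / 2 * (uu l d s)⁻¹))
    (M := K * D ^ 2 * (1 / (m * mc)) / 2) (fun s hs => h.toPth.dLL hs) (fun s hs => by
      have h2 := h.mul_d (h.e1 hs)
      have e : d * (3 / 2 + 1 / 2 * (uu l d s)⁻¹) - d * (3 / 2 + 1 / 2 * (uu l d 0)⁻¹) =
        ((1 / 2 : ℝ) : ℂ) * (d * ((uu l d s)⁻¹ - (uu l d 0)⁻¹)) := by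
        push_cast
        ring
      rw [e, norm_mul, norm_real, Real.norm_of_nonneg (by norm_num : (0 : ℝ) ≤ 1 / 2)]
      linarith)
  linarith

/-- The error of the logarithms. -/
noncomputable def N123 (D K m mc ρ g q qc n3 : ℝ) : ℝ :=
  K * D ^ 2 * ((1 / (m * mc)) + (1 / (m * mc)) * (1 / m + 1 / mc) + (n3 + ρ * g) / (q * qc))

theorem Cs.ge (h : Cs l d k1 m D K ρ mc g q qc n3 w1 vc) {s : ℝ} (hs : s ∈ Icc (0 : ℝ) 1)
    {e : ℝ} (he : e = 1 ∨ e = -1) {x y : ℂ}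
    (hx : x - y = ((uu l d s)⁻¹ - (uu l d 0)⁻¹) + e * ((uu l d s)⁻¹ ^ 2 - (uu l d 0)⁻¹ ^ 2) +
      ((2 * uu l d s - 1) * (QQ (uu l d s))⁻¹ - (2 * uu l d 0 - 1) * (QQ (uu l d 0))⁻¹)) :
    ‖d * x - d * y‖ ≤ N123 D K m mc ρ g q qc n3 * s := by
  rw [← mul_sub]
  have h1 := h.mul_d (s := s) (x := x - y) (L := (1 / (m * mc)) + (1 / (m * mc)) * (1 / m + 1 / mc) +
    (n3 + ρ * g) / (q * qc)) (by
      rw [hx]
      refine (norm_add_le _ _).trans ?_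
      have h2 := norm_add_le ((uu l d s)⁻¹ - (uu l d 0)⁻¹)
        (e * ((uu l d s)⁻¹ ^ 2 - (uu l d 0)⁻¹ ^ 2))
      have h3 : ‖(e : ℂ) * ((uu l d s)⁻¹ ^ 2 - (uu l d 0)⁻¹ ^ 2)‖ =
          ‖(uu l d s)⁻¹ ^ 2 - (uu l d 0)⁻¹ ^ 2‖ := by
        rw [norm_mul]
        rcases he with he | he <;> rw [he] <;> simp
      have h4 := h.e1 hs
      have h5 := h.e2 hs
      have h6 := h.e3 hs
      linarith)
  exact h1

theorem Cs.YY_lin (h : Cs l d k1 m D K ρ mc g q qc n3 w1 vc) :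
    ‖YY l d 1 - YY l d 0 - d * gy (uu l d 0) / (4 * Real.pi * I)‖ ≤
      N123 D K m mc ρ g q qc n3 / (8 * Real.pi) := by
  have hpi := Real.pi_pos
  have h1 := tay (F := YY l d) (F' := fun s => d * gy (uu l d s) / (4 * Real.pi * I))
    (M := N123 D K m mc ρ g q qc n3 / (4 * Real.pi)) (fun s hs => h.toPth.dYY hs (h.x hs))
    (fun s hs => by
      have h2 := h.ge hs (e := -1) (Or.inr rfl) (x := gy (uu l d s)) (y := gy (uu l d 0)) (by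
        unfold gy
        push_cast
        ring)
      have e : d * gy (uu l d s) / (4 * Real.pi * I) - d * gy (uu l d 0) / (4 * Real.pi * I) =
        (d * gy (uu l d s) - d * gy (uu l d 0)) / (4 * Real.pi * I) := by ring
      have e2 : ‖(4 * (Real.pi : ℂ) * I)‖ = 4 * Real.pi := by
        rw [norm_mul, norm_mul, norm_I, norm_real, Real.norm_of_nonneg hpi.le]
        norm_num
      rw [e, norm_div, e2, div_mul_eq_mul_div]
      exact div_le_div_of_nonneg_right h2 (by positivity))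
  refine h1.trans (le_of_eq ?_)
  rw [div_div]
  congr 1
  ring

theorem Cs.HH_lin (h : Cs l d k1 m D K ρ mc g q qc n3 w1 vc) :
    ‖HH l d 1 - HH l d 0 - d * gh (uu l d 0) / 4‖ ≤ N123 D K m mc ρ g q qc n3 / 8 := by
  have h1 := tay (F := HH l d) (F' := fun s => d * gh (uu l d s) / 4)
    (M := N123 D K m mc ρ g q qc n3 / 4) (fun s hs => h.toPth.dHH hs (h.x hs))
    (fun s hs => by
      have h2 := h.ge hs (e := 1) (Or.inl rfl) (x := gh (uu l d s)) (y := gh (uu l d 0)) (by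
        unfold gh
        push_cast
        ring)
      have e : d * gh (uu l d s) / 4 - d * gh (uu l d 0) / 4 =
        (d * gh (uu l d s) - d * gh (uu l d 0)) / 4 := by ring
      have e2 : ‖(4 : ℂ)‖ = 4 := by norm_num
      rw [e, norm_div, e2, div_mul_eq_mul_div]
      exact div_le_div_of_nonneg_right h2 (by norm_num))
  linarith

theorem Cs.ZZ_lin (h : Cs l d k1 m D K ρ mc g q qc n3 w1 vc) :
    ‖ZZ l d 1 - ZZ l d 0 + d * ((uu l d 0 - (uu l d 0)⁻¹) * (rr l d 0)⁻¹) / 8‖ ≤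
      K * D ^ 2 * ((1 + 1 / (m * mc)) * (5 / 4) + vc * ((w1 + ρ / 2) / 2 * (125 / 128))) / 16 := by
  have h1 := tay (F := ZZ l d)
    (F' := fun s => -(d * ((uu l d s - (uu l d s)⁻¹) * (rr l d s)⁻¹) / 8))
    (M := K * D ^ 2 * ((1 + 1 / (m * mc)) * (5 / 4) + vc * ((w1 + ρ / 2) / 2 * (125 / 128))) / 8)
    (fun s hs => h.toPth.dZZ hs (h.w hs))
    (fun s hs => by
      have h2 := h.mul_d (h.e4 hs)
      have e : -(d * ((uu l d s - (uu l d s)⁻¹) * (rr l d s)⁻¹) / 8) -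
          -(d * ((uu l d 0 - (uu l d 0)⁻¹) * (rr l d 0)⁻¹) / 8) =
          -((d * ((uu l d s - (uu l d s)⁻¹) * (rr l d s)⁻¹ -
            (uu l d 0 - (uu l d 0)⁻¹) * (rr l d 0)⁻¹)) / 8) := by ring
      have e2 : ‖(8 : ℂ)‖ = 8 := by norm_num
      rw [e, norm_neg, norm_div, e2]
      linarith)
  rw [sub_neg_eq_add] at h1
  linarith

end Pool.Agent.S5.E.E4
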