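import Pool.Agent.S5.E.E4.Gq
import Pool.Agent.S5.E.E4.Link

/-!
# The linear model of the quantities of an end with four half twists
-/

set_option autoImplicit false

namespace Pool.Agent.S5.E.E4

open Complex Set Pool.Agent.S5.Num Pool.Agent.S5.G
open Pool.Agent.H63.VC3 (hh)

/-- A box for the slot: `k0 ≤ |b| ≤ k1`, `lo ≤ tan (arg b) ≤ hi`. -/
structure Bx where
  k0 : ℚ
  k1 : ℚ
  lo : ℚ
  hi : ℚ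

/-- The slot is in the box. -/
structure InB (B : Bx) (b : ℂ) : Prop where
  b0 : 0 < b.re
  k0 : (B.k0 : ℝ) ≤ ‖b‖
  k1 : ‖b‖ ≤ (B.k1 : ℝ)
  lo : (B.lo : ℝ) * b.re ≤ b.im
  hi : b.im ≤ (B.hi : ℝ) * b.re

/-- The centre and the constants. -/
structure Ct where
  t : G
  sg : ℚ
  m : ℚ
  K : ℚ
  D : ℚ
  mc : ℚ
  g : ℚ
  qc : ℚ
  n3 : ℚ
  w1 : ℚ
  vc : ℚ

def Ct.ti (x : Ct) : G := x.t.inv
def Ct.c (x : Ct) : G := ⟨1 + x.t.re + x.ti.re, x.t.im + x.ti.im⟩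
def Ct.ci (x : Ct) : G := x.c.inv
def Ct.c2 (x : Ct) : G := x.c.mul x.c
def Ct.Q (x : Ct) : G := ⟨1 + x.c.re - x.c2.re, x.c.im - x.c2.im⟩
def Ct.Qi (x : Ct) : G := x.Q.inv
def Ct.r (x : Ct) : G := ⟨(x.t.im - x.ti.im) / 2, -((x.t.re - x.ti.re) / 2)⟩
def Ct.ri (x : Ct) : G := x.r.inv
def Ct.b (x : Ct) : G := ⟨-(x.c2.im / 2), (x.c2.re - 1) / 2⟩
def Ct.ρ (x : Ct) : ℚ := x.K * x.D
def Ct.q (x : Ct) : ℚ := x.qc - x.ρ * (x.g + x.ρ)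
/-- `2 c - 1`. -/
def Ct.d1 (x : Ct) : G := ⟨2 * x.c.re - 1, 2 * x.c.im⟩
/-- `3 - 2 c + 2 c²`. -/
def Ct.d3 (x : Ct) : G := ⟨3 - 2 * x.c.re + 2 * x.c2.re, 2 * x.c2.im - 2 * x.c.im⟩
/-- `(2 c - 1) / Q`. -/
def Ct.e3 (x : Ct) : G := x.d1.mul x.Qi
def Ct.ci2 (x : Ct) : G := x.ci.mul x.ci
/-- The derivative of `4 π i y`. -/
def Ct.gy (x : Ct) : G := ⟨-1 + x.ci.re - x.ci2.re + x.e3.re, x.ci.im - x.ci2.im + x.e3.im⟩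
/-- The derivative of `4 h`. -/
def Ct.gh (x : Ct) : G := ⟨1 + x.ci.re + x.ci2.re + x.e3.re, x.ci.im + x.ci2.im + x.e3.im⟩
/-- `- 8` times the derivative of `z`. -/
def Ct.gz (x : Ct) : G := (x.c.sub x.ci).mul x.ri

/-- The rectangle of the logarithms. -/
structure Rc where
  a0 : ℚ
  a1 : ℚ
  c0 : ℚ
  c1 : ℚ

def Ct.lbr (x : Ct) : ℚ := lnR x.b.ns
def Ct.lbi (x : Ct) : ℚ := atR (x.b.im / x.b.re)

def Ct.rc (x : Ct) (B : Bx) : Rc :=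
  ⟨lnR (B.k0 * B.k0) - x.lbr - 1 / 10 ^ 11, lnR (B.k1 * B.k1) - x.lbr + 1 / 10 ^ 11,
    atR B.lo - x.lbi - 1 / 10 ^ 11, atR B.hi - x.lbi + 1 / 10 ^ 11⟩

/-- The logarithm of the ratio is in the rectangle. -/
structure Rc.In (R : Rc) (d : ℂ) : Prop where
  a0 : (R.a0 : ℝ) ≤ d.re
  a1 : d.re ≤ (R.a1 : ℝ)
  c0 : (R.c0 : ℝ) ≤ d.im
  c1 : d.im ≤ (R.c1 : ℝ)

/-- The check of the centre. -/
def Ct.ok (x : Ct) (B : Bx) : Bool :=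
  let R := x.rc B
  decide (0 < x.t.im) && decide (0 < x.c.re) && decide (0 < x.Q.re) && decide (0 < x.r.re) &&
  decide (0 < x.b.re) && decide (0 < B.k0) &&
  okR (B.k0 * B.k0) && okR (B.k1 * B.k1) && okR x.b.ns && okR x.t.ns && okR x.c.ns && okR x.Q.ns &&
  okR (((1 + x.c.re) * (1 + x.c.re) + x.c.im * x.c.im) / 16) &&
  decide (R.a0 + 2 / 10 ^ 11 ≤ 0) && decide (2 / 10 ^ 11 ≤ R.a1) &&
  decide (R.c0 + 2 / 10 ^ 11 ≤ 0) && decide (2 / 10 ^ 11 ≤ R.c1) &&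
  decide ((max (-R.a0) R.a1) ^ 2 + (max (-R.c0) R.c1) ^ 2 ≤ x.D * x.D) && decide (0 ≤ x.D) &&
  decide (x.D ≤ 1) &&
  decide (0 < x.m) && decide (x.sg * x.sg ≤ 1) &&
  (decide (0 ≤ B.lo ∧ x.sg * x.sg * (1 + B.lo * B.lo) ≤ B.lo * B.lo) ||
    decide (x.sg ≤ 0 ∧ B.lo * B.lo ≤ x.sg * x.sg * (1 + B.lo * B.lo))) &&
  decide (0 ≤ x.sg + 2 * B.k0) &&
  decide (x.m ^ 4 ≤ 1 + 4 * B.k0 * x.sg + 4 * B.k0 * B.k0) && decide (B.k1 ≤ x.K * x.m) &&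
  decide (0 < x.mc) && decide (x.mc * x.mc ≤ x.c.ns) &&
  decide (0 ≤ x.g) && decide (x.d1.ns ≤ x.g * x.g) &&
  decide (0 < x.qc) && decide (x.qc * x.qc ≤ x.Q.ns) && decide (0 < x.q) &&
  decide (0 ≤ x.n3) && decide (x.d3.ns ≤ x.n3 * x.n3) &&
  decide (0 ≤ x.w1) && decide ((x.c.re - 1) ^ 2 + x.c.im ^ 2 ≤ x.w1 * x.w1) &&
  decide (x.w1 + x.ρ ≤ 1) && decide (1 / 2 + x.ρ < x.c.re) &&
  decide (0 ≤ x.vc) && decide ((x.c.sub x.ci).ns ≤ x.vc * x.vc) &&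
  decide (x.gy.ns ≤ 10 ^ 6) && decide (x.gh.ns ≤ 10 ^ 6) && decide (x.gz.ns ≤ 10 ^ 6)

end Pool.Agent.S5.E.E4
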