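import Pool.Agent.S5.E.E4.Mdl

/-!
# The linear model: soundness of the check of the centre
-/

set_option autoImplicit false

namespace Pool.Agent.S5.E.E4

open Complex Set Pool.Agent.S5.Num Pool.Agent.S5.G
open Pool.Agent.H63.VC3 (hh)

/-- The facts of the check. -/
structure Ct.OK (x : Ct) (B : Bx) : Prop where
  ti0 : 0 < x.t.im
  cre : 0 < x.c.re
  Qre : 0 < x.Q.re
  rre : 0 < x.r.re
  bre : 0 < x.b.re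
  k0 : 0 < B.k0
  o1 : okR (B.k0 * B.k0) = true
  o2 : okR (B.k1 * B.k1) = true
  o3 : okR x.b.ns = true
  o4 : okR x.t.ns = true
  o5 : okR x.c.ns = true
  o6 : okR x.Q.ns = true
  o7 : okR (((1 + x.c.re) * (1 + x.c.re) + x.c.im * x.c.im) / 16) = true
  ra0 : (x.rc B).a0 + 2 / 10 ^ 11 ≤ 0
  ra1 : 2 / 10 ^ 11 ≤ (x.rc B).a1
  rc0 : (x.rc B).c0 + 2 / 10 ^ 11 ≤ 0
  rc1 : 2 / 10 ^ 11 ≤ (x.rc B).c1
  hD : (max (-(x.rc B).a0) (x.rc B).a1) ^ 2 + (max (-(x.rc B).c0) (x.rc B).c1) ^ 2 ≤ x.D * x.D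
  D0 : 0 ≤ x.D
  D1 : x.D ≤ 1
  m0 : 0 < x.m
  sg1 : x.sg * x.sg ≤ 1
  sgl : (0 ≤ B.lo ∧ x.sg * x.sg * (1 + B.lo * B.lo) ≤ B.lo * B.lo) ∨
    (x.sg ≤ 0 ∧ B.lo * B.lo ≤ x.sg * x.sg * (1 + B.lo * B.lo))
  sg2 : 0 ≤ x.sg + 2 * B.k0
  hm : x.m ^ 4 ≤ 1 + 4 * B.k0 * x.sg + 4 * B.k0 * B.k0
  hK : B.k1 ≤ x.K * x.m
  mc0 : 0 < x.mc
  hmc : x.mc * x.mc ≤ x.c.ns
  g0 : 0 ≤ x.g
  hg : x.d1.ns ≤ x.g * x.g
  qc0 : 0 < x.qc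
  hqc : x.qc * x.qc ≤ x.Q.ns
  q0 : 0 < x.q
  n30 : 0 ≤ x.n3
  hn3 : x.d3.ns ≤ x.n3 * x.n3
  w10 : 0 ≤ x.w1
  hw : (x.c.re - 1) ^ 2 + x.c.im ^ 2 ≤ x.w1 * x.w1
  hw1 : x.w1 + x.ρ ≤ 1
  hx : 1 / 2 + x.ρ < x.c.re
  vc0 : 0 ≤ x.vc
  hv : (x.c.sub x.ci).ns ≤ x.vc * x.vc
  hgy : x.gy.ns ≤ 10 ^ 6
  hgh : x.gh.ns ≤ 10 ^ 6
  hgz : x.gz.ns ≤ 10 ^ 6

theorem Ct.OK_of {x : Ct} {B : Bx} (h : x.ok B = true) : x.OK B := by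
  unfold Ct.ok at h
  simp only [Bool.and_eq_true, decide_eq_true_eq, Bool.or_eq_true] at h
  obtain ⟨⟨⟨⟨⟨⟨⟨⟨⟨⟨⟨⟨⟨⟨⟨⟨⟨⟨⟨⟨⟨⟨⟨⟨⟨⟨⟨⟨⟨⟨⟨⟨⟨⟨⟨⟨⟨⟨⟨⟨⟨⟨⟨ti0, cre⟩, Qre⟩, rre⟩, bre⟩, k0⟩, o1⟩, o2⟩,
    o3⟩, o4⟩, o5⟩, o6⟩, o7⟩, ra0⟩, ra1⟩, rc0⟩, rc1⟩, hD⟩, D0⟩, D1⟩, m0⟩, sg1⟩, sgl⟩, sg2⟩, hm⟩,
    hK⟩, mc0⟩, hmc⟩, g0⟩, hg⟩, qc0⟩, hqc⟩, q0⟩, n30⟩, hn3⟩, w10⟩, hw⟩, hw1⟩, hx⟩, vc0⟩, hv⟩,
    hgy⟩, hgh⟩, hgz⟩ := h
  exact ⟨ti0, cre, Qre, rre, bre, k0, o1, o2, o3, o4, o5, o6, o7, ra0, ra1, rc0, rc1, hD, D0, D1,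
    m0, sg1, sgl, sg2, hm, hK, mc0, hmc, g0, hg, qc0, hqc, q0, n30, hn3, w10, hw, hw1, hx, vc0, hv,
    hgy, hgh, hgz⟩

variable {x : Ct} {B : Bx} {z b : ℂ}

theorem Ct.t_ne (h : x.OK B) : x.t.c ≠ 0 := fun h0 => by
  have h1 := congrArg Complex.im h0
  rw [G.c_im, zero_im] at h1
  have : (0 : ℝ) < (x.t.im : ℝ) := by exact_mod_cast h.ti0
  linarith

theorem Ct.c_eq (x : Ct) : x.c.c = 1 + x.t.c + (x.t.c)⁻¹ := by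
  rw [← G.c_inv]
  apply Complex.ext
  · simp [G.c, Ct.c, Ct.ti]
  · simp [G.c, Ct.c, Ct.ti]

theorem Ct.r_eq (x : Ct) : x.r.c = (x.t.c - (x.t.c)⁻¹) / (2 * I) := by
  rw [← G.c_inv, eq_div_iff (mul_ne_zero two_ne_zero I_ne_zero)]
  apply Complex.ext
  · simp [G.c, Ct.r, Ct.ti]
  · simp [G.c, Ct.r, Ct.ti]

theorem Ct.c2_eq (x : Ct) : x.c2.c = x.c.c ^ 2 := by
  unfold Ct.c2
  rw [G.c_mul, sq]

theorem Ct.b_eq (x : Ct) : x.b.c = I * (x.c.c ^ 2 - 1) / 2 := by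
  rw [← Ct.c2_eq]
  apply Complex.ext
  · simp [G.c, Ct.b]
    ring
  · simp [G.c, Ct.b]

theorem Ct.Q_eq (x : Ct) : x.Q.c = QQ x.c.c := by
  unfold QQ
  rw [← Ct.c2_eq]
  apply Complex.ext
  · simp [G.c, Ct.Q]
  · simp [G.c, Ct.Q]

theorem pos_re {g : G} (h : 0 < g.re) : 0 < g.c.re := by
  rw [G.c_re]
  exact_mod_cast h

theorem Ct.ctr (h : x.OK B) : Ctr x.t.c x.c.c x.r.c x.b.c :=
  ⟨Ct.t_ne h, x.c_eq, pos_re h.cre, x.r_eq, pos_re h.rre, x.b_eq, pos_re h.bre⟩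

theorem Ct.d1_eq (x : Ct) : x.d1.c = 2 * x.c.c - 1 := by
  apply Complex.ext
  · simp [G.c, Ct.d1]
  · simp [G.c, Ct.d1]

theorem Ct.d3_eq (x : Ct) : x.d3.c = 3 - 2 * x.c.c + 2 * x.c.c ^ 2 := by
  rw [← Ct.c2_eq]
  apply Complex.ext
  · simp [G.c, Ct.d3]
  · simp [G.c, Ct.d3]
    ring

theorem Ct.gy_eq (x : Ct) : x.gy.c = E4.gy x.c.c := by
  unfold E4.gy
  have e1 : x.e3.c = (2 * x.c.c - 1) * (QQ x.c.c)⁻¹ := by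
    unfold Ct.e3
    rw [G.c_mul, Ct.d1_eq, Ct.Qi, G.c_inv, Ct.Q_eq]
  have e2 : x.ci2.c = (x.c.c)⁻¹ ^ 2 := by
    unfold Ct.ci2
    rw [G.c_mul, Ct.ci, G.c_inv, sq]
  have e3 : x.ci.c = (x.c.c)⁻¹ := by rw [Ct.ci, G.c_inv]
  rw [← e1, ← e2, ← e3]
  apply Complex.ext
  · simp [G.c, Ct.gy]
  · simp [G.c, Ct.gy]

theorem Ct.gh_eq (x : Ct) : x.gh.c = E4.gh x.c.c := by
  unfold E4.gh
  have e1 : x.e3.c = (2 * x.c.c - 1) * (QQ x.c.c)⁻¹ := by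
    unfold Ct.e3
    rw [G.c_mul, Ct.d1_eq, Ct.Qi, G.c_inv, Ct.Q_eq]
  have e2 : x.ci2.c = (x.c.c)⁻¹ ^ 2 := by
    unfold Ct.ci2
    rw [G.c_mul, Ct.ci, G.c_inv, sq]
  have e3 : x.ci.c = (x.c.c)⁻¹ := by rw [Ct.ci, G.c_inv]
  rw [← e1, ← e2, ← e3]
  apply Complex.ext
  · simp [G.c, Ct.gh]
  · simp [G.c, Ct.gh]

theorem Ct.gz_eq (x : Ct) : x.gz.c = (x.c.c - (x.c.c)⁻¹) * (x.r.c)⁻¹ := by
  unfold Ct.gz
  rw [G.c_mul, G.c_sub, Ct.ci, G.c_inv, Ct.ri, G.c_inv]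

/-! ### The box -/

theorem InB.ne (hB : InB B b) : b ≠ 0 := fun h0 => by
  have := hB.b0
  rw [h0] at this
  simp at this

theorem InB.arg (hB : InB B b) : Real.arctan B.lo ≤ b.arg ∧ b.arg ≤ Real.arctan B.hi := by
  rw [arg_right hB.b0]
  constructor
  · apply Real.arctan_strictMono.monotone
    rw [le_div_iff₀ hB.b0]
    exact hB.lo
  · apply Real.arctan_strictMono.monotone
    rw [div_le_iff₀ hB.b0]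
    exact hB.hi

/-- `½ log (k²) = log k`. -/
theorem half_log (k : ℚ) : 1 / 2 * Real.log ((k * k : ℚ) : ℝ) = Real.log k := by
  push_cast
  rw [← sq, Real.log_pow]
  push_cast
  ring

/-- The ratio is in the rectangle. -/
theorem Ct.rc_in (h : x.OK B) (hB : InB B b) : (x.rc B).In (log b - log x.b.c) := by
  have hk0 := h.k0
  have hbn : (0 : ℝ) < ‖b‖ := norm_pos_iff.2 hB.ne
  have hk0' : (0 : ℝ) < (B.k0 : ℝ) := by exact_mod_cast hk0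
  have hk1 : 0 < B.k1 := by
    have : (0 : ℝ) < (B.k1 : ℝ) := lt_of_lt_of_le hbn hB.k1
    exact_mod_cast this
  obtain ⟨l1, l2⟩ := log_right h.bre h.o3
  have l1 := abs_le.1 l1
  have l2 := abs_le.1 l2
  have s0 := lnR_sound h.o1
  have s1 := lnR_sound h.o2
  rw [half_log] at s0
  rw [half_log] at s1
  have s0 := abs_le.1 s0
  have s1 := abs_le.1 s1
  have t0 := abs_le.1 (atR_sound B.lo)
  have t1 := abs_le.1 (atR_sound B.hi)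
  obtain ⟨u0, u1⟩ := hB.arg
  have n0 : Real.log B.k0 ≤ Real.log ‖b‖ := Real.log_le_log hk0' hB.k0
  have n1 : Real.log ‖b‖ ≤ Real.log B.k1 := Real.log_le_log hbn hB.k1
  have e1 : (log b - log x.b.c).re = Real.log ‖b‖ - (log x.b.c).re := by rw [sub_re, log_re]
  have e2 : (log b - log x.b.c).im = b.arg - (log x.b.c).im := by rw [sub_im, log_im]
  refine ⟨?_, ?_, ?_, ?_⟩
  · rw [e1]
    unfold Ct.rc Ct.lbr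
    push_cast
    linarith
  · rw [e1]
    unfold Ct.rc Ct.lbr
    push_cast
    linarith
  · rw [e2]
    unfold Ct.rc Ct.lbi
    push_cast
    linarith
  · rw [e2]
    unfold Ct.rc Ct.lbi
    push_cast
    linarith

/-- The centre is in the box. -/
theorem Ct.ctr_in (h : x.OK B) (hB : InB B b) : Real.log B.k0 ≤ (log x.b.c).re ∧
    (log x.b.c).re ≤ Real.log B.k1 ∧ Real.arctan B.lo ≤ (log x.b.c).im ∧
    (log x.b.c).im ≤ Real.arctan B.hi := by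
  have hk0 := h.k0
  have hbn : (0 : ℝ) < ‖b‖ := norm_pos_iff.2 hB.ne
  have hk1 : 0 < B.k1 := by
    have : (0 : ℝ) < (B.k1 : ℝ) := lt_of_lt_of_le hbn hB.k1
    exact_mod_cast this
  obtain ⟨l1, l2⟩ := log_right h.bre h.o3
  have l1 := abs_le.1 l1
  have l2 := abs_le.1 l2
  have s0 := lnR_sound h.o1
  have s1 := lnR_sound h.o2
  rw [half_log] at s0
  rw [half_log] at s1
  have s0 := abs_le.1 s0
  have s1 := abs_le.1 s1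
  have t0 := abs_le.1 (atR_sound B.lo)
  have t1 := abs_le.1 (atR_sound B.hi)
  have r1 : (((x.rc B).a0 + 2 / 10 ^ 11 : ℚ) : ℝ) ≤ 0 := by exact_mod_cast h.ra0
  have r2 : ((2 / 10 ^ 11 : ℚ) : ℝ) ≤ ((x.rc B).a1 : ℝ) := by exact_mod_cast h.ra1
  have r3 : (((x.rc B).c0 + 2 / 10 ^ 11 : ℚ) : ℝ) ≤ 0 := by exact_mod_cast h.rc0
  have r4 : ((2 / 10 ^ 11 : ℚ) : ℝ) ≤ ((x.rc B).c1 : ℝ) := by exact_mod_cast h.rc1
  unfold Ct.rc Ct.lbr at r1 r2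
  unfold Ct.rc Ct.lbi at r3 r4
  push_cast at r1 r2 r3 r4
  refine ⟨?_, ?_, ?_, ?_⟩ <;> linarith

/-- The lower bound of the sine. -/
theorem Ct.sin_ge (h : x.OK B) {τ : ℝ} (h0 : Real.arctan B.lo ≤ τ) (h1 : τ ≤ Real.pi / 2) :
    (x.sg : ℝ) ≤ Real.sin τ := by
  have h2 := Real.neg_pi_div_two_lt_arctan (B.lo : ℝ)
  have h3 : Real.sin (Real.arctan B.lo) ≤ Real.sin τ :=
    Real.sin_le_sin_of_le_of_le_pi_div_two h2.le h1 h0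
  refine le_trans ?_ h3
  rw [Real.sin_arctan]
  have hp : (0 : ℝ) < 1 + (B.lo : ℝ) ^ 2 := by positivity
  have hsq := Real.sq_sqrt hp.le
  have hs := Real.sqrt_pos.2 hp
  rw [le_div_iff₀ hs]
  rcases h.sgl with ⟨h4, h5⟩ | ⟨h4, h5⟩
  · have h4' : (0 : ℝ) ≤ (B.lo : ℝ) := by exact_mod_cast h4
    have h5' : (x.sg : ℝ) * x.sg * (1 + (B.lo : ℝ) * B.lo) ≤ (B.lo : ℝ) * B.lo := by
      exact_mod_cast h5
    rw [← sq (B.lo : ℝ)] at h5'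
    rw [← hsq] at h5'
    apply le_of_sq_le_sq _ h4'
    calc ((x.sg : ℝ) * Real.sqrt (1 + (B.lo : ℝ) ^ 2)) ^ 2
        = (x.sg : ℝ) * x.sg * Real.sqrt (1 + (B.lo : ℝ) ^ 2) ^ 2 := by ring
      _ ≤ _ := h5'
  · have h4' : (x.sg : ℝ) ≤ 0 := by exact_mod_cast h4
    have h5' : (B.lo : ℝ) * B.lo ≤ (x.sg : ℝ) * x.sg * (1 + (B.lo : ℝ) * B.lo) := by
      exact_mod_cast h5
    rw [← sq (B.lo : ℝ), ← hsq] at h5'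
    rcases le_total 0 (B.lo : ℝ) with h6 | h6
    · have := mul_nonpos_of_nonpos_of_nonneg h4' hs.le
      linarith
    · have h7 : -(B.lo : ℝ) ≤ -((x.sg : ℝ) * Real.sqrt (1 + (B.lo : ℝ) ^ 2)) := by
        apply le_of_sq_le_sq
        · calc (-(B.lo : ℝ)) ^ 2 = (B.lo : ℝ) ^ 2 := by ring
            _ ≤ _ := h5'
            _ = _ := by ring
        · have := mul_nonpos_of_nonpos_of_nonneg h4' hs.le
          linarith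
      linarith

end Pool.Agent.S5.E.E4
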