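import Pool.Agent.S5.E.E4.Mdl2

/-!
# The linear model: the constants of the path
-/

set_option autoImplicit false

namespace Pool.Agent.S5.E.E4

open Complex Set Pool.Agent.S5.Num Pool.Agent.S5.G
open Pool.Agent.H63.VC3 (hh)

variable {x : Ct} {B : Bx} {z b : ℂ}

theorem line_re' (l d : ℂ) (s : ℝ) : (l + s * d).re = l.re + s * d.re := by
  rw [add_re, re_ofReal_mul]

theorem line_im' (l d : ℂ) (s : ℝ) : (l + s * d).im = l.im + s * d.im := by
  rw [add_im, im_ofReal_mul]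

theorem conv_le {u v w s : ℝ} (h0 : 0 ≤ s) (h1 : s ≤ 1) (hu : u ≤ w) (hv : v ≤ w) :
    u + s * (v - u) ≤ w := by nlinarith

theorem le_conv {u v w s : ℝ} (h0 : 0 ≤ s) (h1 : s ≤ 1) (hu : w ≤ u) (hv : w ≤ v) :
    w ≤ u + s * (v - u) := by nlinarith

theorem Ct.pth (h : x.OK B) (hB : InB B b) :
    Pth (log x.b.c) (log b - log x.b.c) B.k1 x.m := by
  have hk0 := h.k0
  have hbn : (0 : ℝ) < ‖b‖ := norm_pos_iff.2 hB.ne
  have hk0' : (0 : ℝ) < (B.k0 : ℝ) := by exact_mod_cast hk0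
  have hk1 : (0 : ℝ) < (B.k1 : ℝ) := lt_of_lt_of_le hbn hB.k1
  obtain ⟨c1, c2, c3, c4⟩ := Ct.ctr_in h hB
  obtain ⟨u0, u1⟩ := hB.arg
  have n0 : Real.log B.k0 ≤ Real.log ‖b‖ := Real.log_le_log hk0' hB.k0
  have n1 : Real.log ‖b‖ ≤ Real.log B.k1 := Real.log_le_log hbn hB.k1
  have e1 : (log b - log x.b.c).re = Real.log ‖b‖ - (log x.b.c).re := by rw [sub_re, log_re]
  have e2 : (log b - log x.b.c).im = b.arg - (log x.b.c).im := by rw [sub_im, log_im]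
  have hm0 : (0 : ℝ) < (x.m : ℝ) := by exact_mod_cast h.m0
  have a1 := Real.neg_pi_div_two_lt_arctan (B.lo : ℝ)
  have a2 := Real.arctan_lt_pi_div_two (B.hi : ℝ)
  have key : ∀ s ∈ Icc (0 : ℝ) 1, (B.k0 : ℝ) ≤ ‖bb (log x.b.c) (log b - log x.b.c) s‖ ∧
      ‖bb (log x.b.c) (log b - log x.b.c) s‖ ≤ B.k1 ∧
      Real.arctan B.lo ≤ (log x.b.c + s * (log b - log x.b.c)).im ∧
      (log x.b.c + s * (log b - log x.b.c)).im ≤ Real.arctan B.hi := by
    intro s hs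
    unfold bb
    rw [norm_exp, line_re', line_im', e1, e2]
    refine ⟨?_, ?_, ?_, ?_⟩
    · rw [← Real.exp_log hk0']
      exact Real.exp_le_exp.2 (le_conv hs.1 hs.2 c1 n0)
    · rw [← Real.exp_log hk1]
      exact Real.exp_le_exp.2 (conv_le hs.1 hs.2 c2 n1)
    · exact le_conv hs.1 hs.2 c3 u0
    · exact conv_le hs.1 hs.2 c4 u1
  have hre : ∀ s ∈ Icc (0 : ℝ) 1, 0 < (bb (log x.b.c) (log b - log x.b.c) s).re := by
    intro s hs
    obtain ⟨-, -, k3, k4⟩ := key s hs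
    unfold bb
    rw [exp_re]
    exact mul_pos (Real.exp_pos _) (Real.cos_pos_of_mem_Ioo ⟨by linarith, by linarith⟩)
  refine ⟨hm0, fun s hs => (key s hs).2.1, hre, fun s hs => ?_⟩
  obtain ⟨k1, k2, k3, k4⟩ := key s hs
  have hr := hre s hs
  -- `|u|⁴ = 1 + 4 Im b + 4 |b|²`
  have hsl : 1 - 2 * I * bb (log x.b.c) (log b - log x.b.c) s ∈ slitPlane := by
    apply slit_of_im
    rw [im_one_sub]
    linarith
  have hsq : uu (log x.b.c) (log b - log x.b.c) s ^ 2 =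
      1 - 2 * I * bb (log x.b.c) (log b - log x.b.c) s := by
    unfold uu
    exact sq_exp_half (slitPlane_ne_zero hsl)
  have h4 : ‖uu (log x.b.c) (log b - log x.b.c) s‖ ^ 4 =
      1 + 4 * (bb (log x.b.c) (log b - log x.b.c) s).im +
        4 * ‖bb (log x.b.c) (log b - log x.b.c) s‖ ^ 2 := by
    have e3 : ‖uu (log x.b.c) (log b - log x.b.c) s‖ ^ 4 =
        ‖1 - 2 * I * bb (log x.b.c) (log b - log x.b.c) s‖ ^ 2 := by
      rw [← hsq, norm_pow]
      ring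
    rw [e3, ← normSq_eq_norm_sq, ← normSq_eq_norm_sq, normSq_apply, normSq_apply, im_one_sub,
      re_one_sub]
    ring
  have him : ‖bb (log x.b.c) (log b - log x.b.c) s‖ * x.sg ≤
      (bb (log x.b.c) (log b - log x.b.c) s).im := by
    have h5 := Ct.sin_ge h k3 (by linarith)
    have e4 : (bb (log x.b.c) (log b - log x.b.c) s).im =
        ‖bb (log x.b.c) (log b - log x.b.c) s‖ *
          Real.sin (log x.b.c + s * (log b - log x.b.c)).im := by
      unfold bb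
      rw [norm_exp, exp_im]
    rw [e4]
    exact mul_le_mul_of_nonneg_left h5 (norm_nonneg _)
  have hsg2 : (0 : ℝ) ≤ x.sg + 2 * B.k0 := by exact_mod_cast h.sg2
  have hm : (x.m : ℝ) ^ 4 ≤ 1 + 4 * B.k0 * x.sg + 4 * B.k0 * B.k0 := by exact_mod_cast h.hm
  have h5 : (x.m : ℝ) ^ 4 ≤ ‖uu (log x.b.c) (log b - log x.b.c) s‖ ^ 4 := by
    rw [h4]
    generalize ‖bb (log x.b.c) (log b - log x.b.c) s‖ = β at *
    have h6 : 0 ≤ (β - B.k0) * (x.sg + (β + B.k0)) :=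
      mul_nonneg (by linarith) (by linarith)
    nlinarith
  exact le_of_pow_le_pow_left₀ (by norm_num) (norm_nonneg _) h5

/-- The error of the logarithms. -/
def Ct.n123 (x : Ct) : ℚ :=
  x.K * x.D ^ 2 * ((1 / (x.m * x.mc)) + (1 / (x.m * x.mc)) * (1 / x.m + 1 / x.mc) +
    (x.n3 + x.ρ * x.g) / (x.q * x.qc))

/-- The error of the slope. -/
def Ct.eL (x : Ct) : ℚ := x.K * x.D ^ 2 * (1 / (x.m * x.mc)) / 4

/-- The error of the node variable. -/
def Ct.eZ (x : Ct) : ℚ := x.K * x.D ^ 2 * ((1 + 1 / (x.m * x.mc)) * (5 / 4) +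
  x.vc * ((x.w1 + x.ρ / 2) / 2 * (125 / 128))) / 16

theorem Ct.cs (h : x.OK B) (hB : InB B b) :
    Cs (log x.b.c) (log b - log x.b.c) B.k1 x.m x.D x.K x.ρ x.mc x.g x.q x.qc x.n3 x.w1 x.vc := by
  have hP := Ct.pth h hB
  have hR := Ct.rc_in h hB
  have hC := Ct.ctr h
  have hu := hC.uu0 (log b - log x.b.c)
  have d0 : (0 : ℝ) ≤ x.D := by exact_mod_cast h.D0
  refine ⟨hP, ?_, ?_, ?_, ?_, ?_, ?_, ?_, ?_, ?_, ?_, ?_, ?_, ?_, ?_⟩
  · -- the norm of the ratio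
    have h1 := hR.a0
    have h2 := hR.a1
    have h3 := hR.c0
    have h4 := hR.c1
    have h5 : ((max (-(x.rc B).a0) (x.rc B).a1 : ℚ) : ℝ) ^ 2 +
        ((max (-(x.rc B).c0) (x.rc B).c1 : ℚ) : ℝ) ^ 2 ≤ (x.D : ℝ) * x.D := by
      exact_mod_cast h.hD
    have h6 : ∀ (u v : ℚ) (w : ℝ), (u : ℝ) ≤ w → w ≤ (v : ℝ) →
        w ^ 2 ≤ ((max (-u) v : ℚ) : ℝ) ^ 2 := by
      intro u v w hu hv
      have m1 : (-(u : ℝ)) ≤ ((max (-u) v : ℚ) : ℝ) := by
        have : -u ≤ max (-u) v := le_max_left _ _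
        exact_mod_cast this
      have m2 : (v : ℝ) ≤ ((max (-u) v : ℚ) : ℝ) := by
        have : v ≤ max (-u) v := le_max_right _ _
        exact_mod_cast this
      apply sq_le_sq'
      · linarith
      · linarith
    have h7 := h6 _ _ _ h1 h2
    have h8 := h6 _ _ _ h3 h4
    apply le_of_sq_le_sq _ d0
    rw [← normSq_eq_norm_sq, normSq_apply]
    nlinarith
  · exact_mod_cast h.hK
  · unfold Ct.ρ
    push_cast
    exact le_rfl
  · exact_mod_cast h.mc0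
  · rw [hu]
    exact G.le_norm h.mc0.le h.hmc
  · rw [hu, ← Ct.d1_eq]
    exact G.norm_le h.g0 h.hg
  · exact_mod_cast h.q0
  · unfold Ct.q
    push_cast
    linarith
  · rw [hu, ← Ct.Q_eq]
    exact G.le_norm h.qc0.le h.hqc
  · rw [hu, ← Ct.d3_eq]
    exact G.norm_le h.n30 h.hn3
  · rw [hu]
    have e : x.c.c - 1 = (x.c.sub ⟨1, 0⟩).c := by
      rw [G.c_sub]
      congr 1
      apply Complex.ext <;> simp [G.c]
    rw [e]
    apply G.norm_le h.w10
    have h1 := h.hw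
    simp only [G.ns, G.sub, sub_zero]
    linarith
  · exact_mod_cast h.hw1
  · rw [hu, G.c_re]
    have h1 : ((1 / 2 + x.ρ : ℚ) : ℝ) < (x.c.re : ℝ) := by exact_mod_cast h.hx
    push_cast at h1
    exact h1
  · rw [hu]
    have e : x.c.c - (x.c.c)⁻¹ = (x.c.sub x.ci).c := by
      rw [G.c_sub, Ct.ci, G.c_inv]
    rw [e]
    exact G.norm_le h.vc0 h.hv

end Pool.Agent.S5.E.E4
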