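import Pool.Agent.S5.E.E4.Mdl3

/-!
# The linear model: the quantities
-/

set_option autoImplicit false

namespace Pool.Agent.S5.E.E4

open Complex Set Pool.Agent.S5.Num Pool.Agent.S5.G
open Pool.Agent.H63.VC3 (hh)

/-- A linear function of the logarithm of the ratio with an error. -/
structure Lin where
  v : ℚ
  a : ℚ
  b : ℚ
  e : ℚ

/-- The quantity is described by the linear function. -/
def Lin.Ok (L : Lin) (d : ℂ) (y : ℝ) : Prop :=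
  |y - ((L.v : ℝ) + L.a * d.re + L.b * d.im)| ≤ L.e

def Lin.add (L M : Lin) : Lin := ⟨L.v + M.v, L.a + M.a, L.b + M.b, L.e + M.e⟩
def Lin.sm (q : ℚ) (L : Lin) : Lin := ⟨q * L.v, q * L.a, q * L.b, |q| * L.e⟩
def Lin.ac (L : Lin) (q : ℚ) : Lin := ⟨L.v + q, L.a, L.b, L.e⟩

theorem Lin.Ok.add {L M : Lin} {d : ℂ} {y z : ℝ} (h : L.Ok d y) (h' : M.Ok d z) :
    (L.add M).Ok d (y + z) := by
  unfold Lin.Ok at *
  unfold Lin.add
  push_cast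
  rw [abs_le] at *
  constructor <;> linarith [h.1, h.2, h'.1, h'.2]

theorem Lin.Ok.sm {L : Lin} {d : ℂ} {y : ℝ} (h : L.Ok d y) (q : ℚ) : (L.sm q).Ok d (q * y) := by
  unfold Lin.Ok at *
  unfold Lin.sm
  push_cast
  have e : (q : ℝ) * y - (q * L.v + q * L.a * d.re + q * L.b * d.im) =
      q * (y - (L.v + L.a * d.re + L.b * d.im)) := by ring
  rw [e, abs_mul]
  exact mul_le_mul_of_nonneg_left h (abs_nonneg _)

theorem Lin.Ok.ac {L : Lin} {d : ℂ} {y : ℝ} (h : L.Ok d y) (q : ℚ) : (L.ac q).Ok d (y + q) := by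
  unfold Lin.Ok at *
  unfold Lin.ac
  push_cast
  rw [abs_le] at *
  constructor <;> linarith [h.1, h.2]

/-- The lower bound of a product. -/
def mlo (a u v : ℚ) : ℚ := min (a * u) (a * v)

theorem mlo_le {a u v : ℚ} {w : ℝ} (h0 : (u : ℝ) ≤ w) (h1 : w ≤ v) : ((mlo a u v : ℚ) : ℝ) ≤ a * w := by
  unfold mlo
  push_cast
  rcases le_total 0 (a : ℝ) with h | h
  · exact (min_le_left _ _).trans (mul_le_mul_of_nonneg_left h0 h)
  · exact (min_le_right _ _).trans (mul_le_mul_of_nonpos_left h1 h)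

/-- The lower bound on the rectangle. -/
def Lin.lo (L : Lin) (R : Rc) : ℚ := L.v + mlo L.a R.a0 R.a1 + mlo L.b R.c0 R.c1 - L.e

/-- The upper bound on the rectangle. -/
def Lin.hi (L : Lin) (R : Rc) : ℚ := L.v - mlo (-L.a) R.a0 R.a1 - mlo (-L.b) R.c0 R.c1 + L.e

theorem Lin.Ok.lo {L : Lin} {R : Rc} {d : ℂ} {y : ℝ} (h : L.Ok d y) (hR : R.In d) :
    ((L.lo R : ℚ) : ℝ) ≤ y := by
  unfold Lin.Ok at h
  have h1 := mlo_le (a := L.a) hR.a0 hR.a1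
  have h2 := mlo_le (a := L.b) hR.c0 hR.c1
  unfold Lin.lo
  push_cast
  rw [abs_le] at h
  linarith [h.1, h.2]

theorem Lin.Ok.hi {L : Lin} {R : Rc} {d : ℂ} {y : ℝ} (h : L.Ok d y) (hR : R.In d) :
    y ≤ ((L.hi R : ℚ) : ℝ) := by
  unfold Lin.Ok at h
  have h1 := mlo_le (a := -L.a) hR.a0 hR.a1
  have h2 := mlo_le (a := -L.b) hR.c0 hR.c1
  unfold Lin.hi
  push_cast at *
  rw [abs_le] at h
  linarith [h.1, h.2]

/-- The deviation from a number. -/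
def Lin.dev (L : Lin) (R : Rc) (q : ℚ) : ℚ := max (L.hi R - q) (q - L.lo R)

theorem Lin.Ok.dev {L : Lin} {R : Rc} {d : ℂ} {y : ℝ} (h : L.Ok d y) (hR : R.In d) (q : ℚ) :
    |y - q| ≤ ((L.dev R q : ℚ) : ℝ) := by
  have h1 := h.lo hR
  have h2 := h.hi hR
  unfold Lin.dev
  push_cast
  rw [abs_le]
  constructor
  · have := le_max_right ((L.hi R : ℝ) - q) (q - L.lo R)
    linarith
  · have := le_max_left ((L.hi R : ℝ) - q) (q - L.lo R)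
    linarith

/-! ### The eight quantities -/

/-- `1 / π`. -/
def ip : ℚ := 3183098861837907 / 10 ^ 16

theorem ip_ok : |1 / Real.pi - (ip : ℝ)| ≤ 1 / 10 ^ 14 := by
  have h1 := Real.pi_gt_d20
  have h2 := Real.pi_lt_d20
  have hp := Real.pi_pos
  unfold ip
  push_cast
  rw [abs_le]
  constructor
  · rw [le_sub_iff_add_le, le_div_iff₀ hp]
    nlinarith
  · rw [sub_le_iff_le_add, div_le_iff₀ hp]
    nlinarith

theorem ip_lt : 1 / Real.pi ≤ 31831 / 100000 := by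
  rw [div_le_iff₀ Real.pi_pos]
  have := Real.pi_gt_d6
  linarith

/-- Multiplication with `1 / π`. -/
theorem ip_mul {X w e : ℝ} (h : |X - w| ≤ e) (hw : |w| ≤ 10 ^ 4) :
    |X / Real.pi - ip * w| ≤ e * (31831 / 100000) + 1 / 10 ^ 10 := by
  have h1 := ip_ok
  have h2 := ip_lt
  have h3 : 0 < 1 / Real.pi := by have := Real.pi_pos; positivity
  have e1 : X / Real.pi - ip * w = (X - w) * (1 / Real.pi) + (1 / Real.pi - ip) * w := by ring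
  rw [e1]
  refine (abs_add_le _ _).trans ?_
  rw [abs_mul, abs_mul, abs_of_pos h3]
  have h4 := mul_le_mul h h2 h3.le ((abs_nonneg _).trans h)
  have h5 := mul_le_mul h1 hw (abs_nonneg _) (by norm_num)
  have h6 : (1 : ℝ) / 10 ^ 14 * 10 ^ 4 = 1 / 10 ^ 10 := by norm_num
  linarith

def Ct.lcr (x : Ct) : ℚ := lnR x.c.ns
def Ct.lci (x : Ct) : ℚ := atR (x.c.im / x.c.re)
def Ct.lQr (x : Ct) : ℚ := lnR x.Q.ns
def Ct.lQi (x : Ct) : ℚ := atR (x.Q.im / x.Q.re)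
def Ct.l1r (x : Ct) : ℚ := lnR (((1 + x.c.re) * (1 + x.c.re) + x.c.im * x.c.im) / 16)
def Ct.l1i (x : Ct) : ℚ := atR (x.c.im / (1 + x.c.re))
def Ct.ltr (x : Ct) : ℚ := lnR x.t.ns
def Ct.lti (x : Ct) : ℚ := atR (x.t.re / x.t.im)

/-- Real part of `ys`. -/
def Ct.oT (x : Ct) : Lin := ⟨1 / 2 + ip / 2 * (x.lci - x.lQi), ip / 4 * x.gy.im, ip / 4 * x.gy.re,
  x.n123 / 8 * (31831 / 100000) + 1 / 10 ^ 9⟩
/-- Imaginary part of `ys`. -/
def Ct.oE (x : Ct) : Lin := ⟨-(ip / 2 * (x.lcr - x.lQr)), -(ip / 4 * x.gy.re), ip / 4 * x.gy.im,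
  x.n123 / 8 * (31831 / 100000) + 1 / 10 ^ 9⟩
/-- Real part of `vs`. -/
def Ct.oX (x : Ct) : Lin := ⟨1 / 4 - ip / 2 * x.lti, -(ip / 8 * x.gz.re), ip / 8 * x.gz.im,
  x.eZ * (31831 / 100000) + 1 / 10 ^ 9⟩
/-- Imaginary part of `vs`. -/
def Ct.oN (x : Ct) : Lin := ⟨-(ip / 2 * x.ltr), -(ip / 8 * x.gz.im), -(ip / 8 * x.gz.re),
  x.eZ * (31831 / 100000) + 1 / 10 ^ 9⟩
/-- Real part of the slope. -/
def Ct.oLr (x : Ct) : Lin := ⟨2 * x.lbr - x.l1r, 3 / 2 + x.ci.re / 2, -(x.ci.im / 2),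
  x.eL + 1 / 10 ^ 9⟩
/-- Imaginary part of the slope. -/
def Ct.oLi (x : Ct) : Lin := ⟨2 * x.lbi - x.l1i, x.ci.im / 2, 3 / 2 + x.ci.re / 2,
  x.eL + 1 / 10 ^ 9⟩
/-- Real part of `log 2 cos π ys`. -/
def Ct.oHr (x : Ct) : Lin := ⟨lnR 4 + x.lbr - (x.lcr + x.lQr) / 2, x.gh.re / 4, -(x.gh.im / 4),
  x.n123 / 8 + 1 / 10 ^ 9⟩
/-- Imaginary part of `log 2 cos π ys`. -/
def Ct.oHi (x : Ct) : Lin := ⟨x.lbi - (x.lci + x.lQi) / 2, x.gh.im / 4, x.gh.re / 4,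
  x.n123 / 8 + 1 / 10 ^ 9⟩

/-- The eight quantities. -/
structure Md8 (x : Ct) (d : ℂ) (y v l H : ℂ) : Prop where
  T : x.oT.Ok d y.re
  S : x.oE.Ok d y.im
  X : x.oX.Ok d v.re
  N : x.oN.Ok d v.im
  Lr : x.oLr.Ok d l.re
  Li : x.oLi.Ok d l.im
  Hr : x.oHr.Ok d H.re
  Hi : x.oHi.Ok d H.im

end Pool.Agent.S5.E.E4
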