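import Pool.Agent.S5.E.E4.Mdl4

/-!
# The linear model: soundness
-/

set_option autoImplicit false

namespace Pool.Agent.S5.E.E4

open Complex Set Pool.Agent.S5.Num Pool.Agent.S5.G
open Pool.Agent.H63.VC3 (hh)

/-- Crude bounds. -/
def Ct.ok2 (x : Ct) (B : Bx) : Bool :=
  decide (|x.lcr| ≤ 100) && decide (|x.lQr| ≤ 100) && decide (|x.ltr| ≤ 100) &&
    decide (x.oHi.hi (x.rc B) ≤ 3 / 2) && decide (-(3 / 2) ≤ x.oHi.lo (x.rc B)) && okR 4

variable {x : Ct} {B : Bx} {z b : ℂ}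

theorem atR_le (q : ℚ) : |(atR q : ℝ)| ≤ 2 := by
  have h1 := abs_le.1 (atR_sound q)
  have h2 := Real.neg_pi_div_two_lt_arctan (q : ℝ)
  have h3 := Real.arctan_lt_pi_div_two (q : ℝ)
  have h4 := Real.pi_lt_d6
  rw [abs_le]
  constructor <;> linarith

/-- The parts of a product are bounded. -/
theorem parts_le {g : G} {d : ℂ} (hg : g.ns ≤ 10 ^ 6) (hd : ‖d‖ ≤ 1) :
    |d.re * (g.re : ℝ) - d.im * (g.im : ℝ)| ≤ 1000 ∧ |d.re * (g.im : ℝ) + d.im * (g.re : ℝ)| ≤ 1000 := by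
  have h1 : ‖g.c‖ ≤ ((1000 : ℚ) : ℝ) := G.norm_le (by norm_num) (by linarith)
  have h2 : ‖d * g.c‖ ≤ 1000 := by
    rw [norm_mul]
    push_cast at h1
    have := mul_le_mul hd h1 (norm_nonneg _) zero_le_one
    linarith
  have e1 : (d * g.c).re = d.re * (g.re : ℝ) - d.im * (g.im : ℝ) := by rw [mul_re, G.c_re, G.c_im]
  have e2 : (d * g.c).im = d.re * (g.im : ℝ) + d.im * (g.re : ℝ) := by rw [mul_im, G.c_re, G.c_im]
  rw [← e1, ← e2]
  exact ⟨(abs_re_le_norm _).trans h2, (abs_im_le_norm _).trans h2⟩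

theorem Ct.d_le (h : x.OK B) (hB : InB B b) : ‖log b - log x.b.c‖ ≤ 1 := by
  have h1 := (Ct.cs h hB).hD
  have h2 : (x.D : ℝ) ≤ 1 := by exact_mod_cast h.D1
  linarith

theorem Ct.n123_eq (x : Ct) : ((x.n123 : ℚ) : ℝ) = N123 x.D x.K x.m x.mc x.ρ x.g x.q x.qc x.n3 := by
  unfold Ct.n123 N123
  push_cast
  ring

theorem sum_eq (l b : ℂ) : l + (log b - l) = log b := by ring

theorem Ct.mL (h : x.OK B) (hz : Z4 z b) (hB : InB B b) :
    x.oLr.Ok (log b - log x.b.c) (2 * (log b - log (cos z))).re ∧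
      x.oLi.Ok (log b - log x.b.c) (2 * (log b - log (cos z))).im := by
  have hC := Ct.cs h hB
  have hc := Ct.ctr h
  have h1 := hC.LL_lin
  rw [hz.LL1 hB.ne (sum_eq _ _), hc.LL0, hc.uu0, ← G.c_inv] at h1
  obtain ⟨b1, b2⟩ := log_right h.bre h.o3
  have hg : ((1 + x.c.c) / 4 : ℂ) = (⟨(1 + x.c.re) / 4, x.c.im / 4⟩ : G).c := by
    apply Complex.ext
    · simp [G.c]
    · simp [G.c]
  have hns : (⟨(1 + x.c.re) / 4, x.c.im / 4⟩ : G).ns =
      ((1 + x.c.re) * (1 + x.c.re) + x.c.im * x.c.im) / 16 := by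
    simp only [G.ns]
    ring
  have hcr := h.cre
  have hat : (⟨(1 + x.c.re) / 4, x.c.im / 4⟩ : G).im / (⟨(1 + x.c.re) / 4, x.c.im / 4⟩ : G).re =
      x.c.im / (1 + x.c.re) := by
    show x.c.im / 4 / ((1 + x.c.re) / 4) = _
    rw [div_div_div_cancel_right₀ (by norm_num)]
  obtain ⟨c1, c2⟩ := log_right (g := ⟨(1 + x.c.re) / 4, x.c.im / 4⟩) (by
    show 0 < (1 + x.c.re) / 4
    linarith) (by rw [hns]; exact h.o7)
  rw [hns, ← hg] at c1
  rw [hat, ← hg] at c2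
  set d := log b - log x.b.c
  have he : (x.K : ℝ) * (x.D : ℝ) ^ 2 * (1 / ((x.m : ℝ) * x.mc)) / 4 = ((x.eL : ℚ) : ℝ) := by
    unfold Ct.eL
    push_cast
    ring
  rw [he] at h1
  have k1 := abs_le.1 ((abs_re_le_norm _).trans h1)
  have k2 := abs_le.1 ((abs_im_le_norm _).trans h1)
  have w1 : (3 / 2 + 1 / 2 * x.c.inv.c).re = 3 / 2 + (x.c.inv.re : ℝ) / 2 := by
    simp [G.c]
    ring
  have w2 : (3 / 2 + 1 / 2 * x.c.inv.c).im = (x.c.inv.im : ℝ) / 2 := by
    simp [G.c]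
    ring
  have t1 : ∀ w : ℂ, (2 * w).re = 2 * w.re := fun w => by simp
  have t2 : ∀ w : ℂ, (2 * w).im = 2 * w.im := fun w => by simp
  simp only [sub_re, mul_re d, w1, w2, t1] at k1
  simp only [sub_im, mul_im d, w1, w2, t2] at k2
  have b1 := abs_le.1 b1
  have b2 := abs_le.1 b2
  have c1 := abs_le.1 c1
  have c2 := abs_le.1 c2
  constructor
  · unfold Lin.Ok Ct.oLr Ct.lbr Ct.l1r Ct.ci
    rw [t1, sub_re]
    push_cast
    rw [abs_le]
    constructor <;> linarith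
  · unfold Lin.Ok Ct.oLi Ct.lbi Ct.l1i Ct.ci
    rw [t2, sub_im]
    push_cast
    rw [abs_le]
    constructor <;> linarith

theorem Ct.mH (h : x.OK B) (hz : Z4 z b) (hB : InB B b) (hs : Slot (q4 z) z)
    (h2 : x.ok2 B = true) :
    x.oHr.Ok (log b - log x.b.c) (hh (1 / 2 - sy (q4 z) z)).re ∧
      x.oHi.Ok (log b - log x.b.c) (hh (1 / 2 - sy (q4 z) z)).im := by
  have hC := Ct.cs h hB
  have hc := Ct.ctr h
  have hR := Ct.rc_in h hB
  have h1 := hC.HH_lin
  rw [hc.HH0, hc.uu0, ← Ct.gh_eq, ← Ct.Q_eq] at h1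
  obtain ⟨b1, b2⟩ := log_right h.bre h.o3
  obtain ⟨c1, c2⟩ := log_right h.cre h.o5
  obtain ⟨q1, q2⟩ := log_right h.Qre h.o6
  unfold Ct.ok2 at h2
  simp only [Bool.and_eq_true, decide_eq_true_eq] at h2
  obtain ⟨⟨⟨⟨⟨-, -⟩, -⟩, m1⟩, m2⟩, m3⟩ := h2
  have ln := lnR_sound m3
  have e4 : 1 / 2 * Real.log ((4 : ℚ) : ℝ) = Real.log 2 := by
    push_cast
    rw [show (4 : ℝ) = 2 ^ 2 by norm_num, Real.log_pow]
    push_cast
    ring
  rw [e4] at ln
  rw [← Ct.n123_eq] at h1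
  have key : x.oHr.Ok (log b - log x.b.c) (HH (log x.b.c) (log b - log x.b.c) 1).re ∧
      x.oHi.Ok (log b - log x.b.c) (HH (log x.b.c) (log b - log x.b.c) 1).im := by
    set d := log b - log x.b.c
    set w := HH (log x.b.c) d 1
    have k1 := abs_le.1 ((abs_re_le_norm _).trans h1)
    have k2 := abs_le.1 ((abs_im_le_norm _).trans h1)
    have t1 : ∀ w : ℂ, (w / 2).re = w.re / 2 := fun w => by simp
    have t2 : ∀ w : ℂ, (w / 2).im = w.im / 2 := fun w => by simp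
    have t3 : ∀ w : ℂ, (w / 4).re = w.re / 4 := fun w => by simp
    have t4 : ∀ w : ℂ, (w / 4).im = w.im / 4 := fun w => by simp
    simp only [sub_re, add_re, mul_re d, t1, t3, ofReal_re, G.c_re, G.c_im] at k1
    simp only [sub_im, add_im, mul_im d, t2, t4, ofReal_im, G.c_re, G.c_im] at k2
    have b1 := abs_le.1 b1
    have b2 := abs_le.1 b2
    have c1 := abs_le.1 c1
    have c2 := abs_le.1 c2
    have q1 := abs_le.1 q1
    have q2 := abs_le.1 q2
    have ln := abs_le.1 ln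
    constructor
    · unfold Lin.Ok Ct.oHr Ct.lbr Ct.lcr Ct.lQr
      push_cast
      rw [abs_le]
      constructor <;> linarith
    · unfold Lin.Ok Ct.oHi Ct.lbi Ct.lci Ct.lQi
      push_cast
      rw [abs_le]
      constructor <;> linarith
  have hi := key.2.hi hR
  have lo := key.2.lo hR
  have m1' : ((x.oHi.hi (x.rc B) : ℚ) : ℝ) ≤ 3 / 2 := by
    have : ((x.oHi.hi (x.rc B) : ℚ) : ℝ) ≤ ((3 / 2 : ℚ) : ℝ) := by exact_mod_cast m1
    push_cast at this
    exact this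
  have m2' : -(3 / 2) ≤ ((x.oHi.lo (x.rc B) : ℚ) : ℝ) := by
    have : ((-(3 / 2) : ℚ) : ℝ) ≤ ((x.oHi.lo (x.rc B) : ℚ) : ℝ) := by exact_mod_cast m2
    push_cast at this
    exact this
  have hp := Real.pi_gt_d2
  have e := hz.HH1 hC hB.ne (sum_eq _ _) hs (by
    rw [abs_lt]
    constructor <;> linarith)
  rw [e] at key
  exact key

theorem Ct.mY (h : x.OK B) (hz : Z4 z b) (hB : InB B b) (hs : Slot (q4 z) z)
    (h2 : x.ok2 B = true) :
    x.oT.Ok (log b - log x.b.c) (sy (q4 z) z).re ∧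
      x.oE.Ok (log b - log x.b.c) (sy (q4 z) z).im := by
  have hpi := Real.pi_pos
  have hC := Ct.cs h hB
  have hc := Ct.ctr h
  have h1 := hC.YY_lin
  rw [hz.YY1 hC hB.ne (sum_eq _ _) hs, hc.YY0, hc.uu0, ← Ct.gy_eq, ← Ct.Q_eq] at h1
  obtain ⟨c1, c2⟩ := log_right h.cre h.o5
  obtain ⟨q1, q2⟩ := log_right h.Qre h.o6
  unfold Ct.ok2 at h2
  simp only [Bool.and_eq_true, decide_eq_true_eq] at h2
  obtain ⟨⟨⟨⟨⟨m1, m2⟩, -⟩, -⟩, -⟩, -⟩ := h2
  rw [← Ct.n123_eq] at h1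
  obtain ⟨p1, p2⟩ := parts_le h.hgy (Ct.d_le h hB)
  set d := log b - log x.b.c
  set y := sy (q4 z) z
  -- multiplication with `π`
  have h3 : ‖(Real.pi : ℂ) * (y - 1 / 2) - (log x.c.c - log x.Q.c) / (2 * I) -
      d * x.gy.c / (4 * I)‖ ≤ x.n123 / 8 := by
    have e1 : (Real.pi : ℂ) * (y - 1 / 2) - (log x.c.c - log x.Q.c) / (2 * I) -
        d * x.gy.c / (4 * I) = Real.pi * (y - (1 / 2 + (log x.c.c - log x.Q.c) /
        (2 * Real.pi * I)) - d * x.gy.c / (4 * Real.pi * I)) := by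
      have hI := I_ne_zero
      have hp : (Real.pi : ℂ) ≠ 0 := ofReal_ne_zero.2 hpi.ne'
      field_simp
      ring
    rw [e1, norm_mul, norm_real, Real.norm_of_nonneg hpi.le]
    calc _ ≤ Real.pi * (x.n123 / (8 * Real.pi)) := mul_le_mul_of_nonneg_left h1 hpi.le
      _ = _ := by field_simp
  have k1 := abs_le.1 ((abs_re_le_norm _).trans h3)
  have k2 := abs_le.1 ((abs_im_le_norm _).trans h3)
  have t1 : ∀ w : ℂ, (w / (2 * I)).re = w.im / 2 := fun w => by
    rw [show w / (2 * I) = ((1 / 2 : ℝ) : ℂ) * (-(I * w)) by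
      push_cast
      field_simp
      linear_combination w * I_sq, re_ofReal_mul, neg_re, I_mul_re]
    ring
  have t2 : ∀ w : ℂ, (w / (2 * I)).im = -(w.re / 2) := fun w => by
    rw [show w / (2 * I) = ((1 / 2 : ℝ) : ℂ) * (-(I * w)) by
      push_cast
      field_simp
      linear_combination w * I_sq, im_ofReal_mul, neg_im, I_mul_im]
    ring
  have t3 : ∀ w : ℂ, (w / (4 * I)).re = w.im / 4 := fun w => by
    rw [show w / (4 * I) = ((1 / 2 : ℝ) : ℂ) * (w / (2 * I)) by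
      push_cast
      field_simp
      ring, re_ofReal_mul, t1]
    ring
  have t4 : ∀ w : ℂ, (w / (4 * I)).im = -(w.re / 4) := fun w => by
    rw [show w / (4 * I) = ((1 / 2 : ℝ) : ℂ) * (w / (2 * I)) by
      push_cast
      field_simp
      ring, im_ofReal_mul, t2]
    ring
  have t5 : (Real.pi * (y - 1 / 2) : ℂ).re = Real.pi * (y.re - 1 / 2) := by
    rw [re_ofReal_mul, sub_re]
    norm_num
  have t6 : (Real.pi * (y - 1 / 2) : ℂ).im = Real.pi * y.im := by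
    rw [im_ofReal_mul, sub_im]
    norm_num
  simp only [sub_re, t5, t1, t3, sub_im, mul_im d, G.c_re, G.c_im] at k1
  simp only [sub_im, t6, t2, t4, sub_re, mul_re d, G.c_re, G.c_im] at k2
  have c1 := abs_le.1 c1
  have c2 := abs_le.1 c2
  have q1 := abs_le.1 q1
  have q2 := abs_le.1 q2
  have m1' : |((x.lcr : ℚ) : ℝ)| ≤ 100 := by exact_mod_cast m1
  have m2' : |((x.lQr : ℚ) : ℝ)| ≤ 100 := by exact_mod_cast m2
  have m1' := abs_le.1 m1'
  have m2' := abs_le.1 m2'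
  have n1 := abs_le.1 (atR_le (x.c.im / x.c.re))
  have n2 := abs_le.1 (atR_le (x.Q.im / x.Q.re))
  have p1 := abs_le.1 p1
  have p2 := abs_le.1 p2
  constructor
  · have key := ip_mul (X := Real.pi * (y.re - 1 / 2))
      (w := (((x.lci : ℚ) : ℝ) - ((x.lQi : ℚ) : ℝ)) / 2 +
        (d.re * (x.gy.im : ℝ) + d.im * (x.gy.re : ℝ)) / 4)
      (e := x.n123 / 8 + 1 / 10 ^ 11) (by
        unfold Ct.lci Ct.lQi
        rw [abs_le]
        constructor <;> linarith) (by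
        unfold Ct.lci Ct.lQi
        rw [abs_le]
        constructor <;> linarith)
    rw [mul_div_cancel_left₀ _ hpi.ne'] at key
    have key := abs_le.1 key
    unfold Lin.Ok Ct.oT
    push_cast
    rw [abs_le]
    constructor <;> linarith
  · have key := ip_mul (X := Real.pi * y.im)
      (w := -((((x.lcr : ℚ) : ℝ) - ((x.lQr : ℚ) : ℝ)) / 2) -
        (d.re * (x.gy.re : ℝ) - d.im * (x.gy.im : ℝ)) / 4)
      (e := x.n123 / 8 + 1 / 10 ^ 11) (by
        unfold Ct.lcr Ct.lQr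
        rw [abs_le]
        constructor <;> linarith) (by
        rw [abs_le]
        constructor <;> linarith)
    rw [mul_div_cancel_left₀ _ hpi.ne'] at key
    have key := abs_le.1 key
    unfold Lin.Ok Ct.oE
    push_cast
    rw [abs_le]
    constructor <;> linarith

theorem Ct.mZ (h : x.OK B) (hz : Z4 z b) (hB : InB B b) (h2 : x.ok2 B = true) :
    x.oX.Ok (log b - log x.b.c) (z / Real.pi).re ∧
      x.oN.Ok (log b - log x.b.c) (z / Real.pi).im := by
  have hpi := Real.pi_pos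
  have hC := Ct.cs h hB
  have hc := Ct.ctr h
  have h1 := hC.ZZ_lin
  rw [hz.ZZ1 hB.ne (sum_eq _ _), hc.ZZ0, hc.uu0, hc.rr0, ← Ct.gz_eq] at h1
  obtain ⟨c1, c2⟩ := log_upper h.ti0 h.o4
  unfold Ct.ok2 at h2
  simp only [Bool.and_eq_true, decide_eq_true_eq] at h2
  obtain ⟨⟨⟨⟨⟨-, -⟩, m1⟩, -⟩, -⟩, -⟩ := h2
  obtain ⟨p1, p2⟩ := parts_le h.hgz (Ct.d_le h hB)
  have he : (x.K : ℝ) * (x.D : ℝ) ^ 2 * ((1 + 1 / ((x.m : ℝ) * x.mc)) * (5 / 4) +
      x.vc * ((x.w1 + x.ρ / 2) / 2 * (125 / 128))) / 16 = ((x.eZ : ℚ) : ℝ) := by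
    unfold Ct.eZ
    push_cast
    ring
  rw [he] at h1
  set d := log b - log x.b.c
  have k1 := abs_le.1 ((abs_re_le_norm _).trans h1)
  have k2 := abs_le.1 ((abs_im_le_norm _).trans h1)
  have t1 : ∀ w : ℂ, (w / (2 * I)).re = w.im / 2 := fun w => by
    rw [show w / (2 * I) = ((1 / 2 : ℝ) : ℂ) * (-(I * w)) by
      push_cast
      field_simp
      linear_combination w * I_sq, re_ofReal_mul, neg_re, I_mul_re]
    ring
  have t2 : ∀ w : ℂ, (w / (2 * I)).im = -(w.re / 2) := fun w => by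
    rw [show w / (2 * I) = ((1 / 2 : ℝ) : ℂ) * (-(I * w)) by
      push_cast
      field_simp
      linear_combination w * I_sq, im_ofReal_mul, neg_im, I_mul_im]
    ring
  have t3 : ∀ w : ℂ, (w / 8).re = w.re / 8 := fun w => by simp
  have t4 : ∀ w : ℂ, (w / 8).im = w.im / 8 := fun w => by simp
  simp only [add_re, sub_re, t1, t3, mul_re d, G.c_re, G.c_im] at k1
  simp only [add_im, sub_im, t2, t4, mul_im d, G.c_re, G.c_im] at k2
  have c1 := abs_le.1 c1
  have c2 := abs_le.1 c2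
  have m1' : |((x.ltr : ℚ) : ℝ)| ≤ 100 := by exact_mod_cast m1
  have m1' := abs_le.1 m1'
  have n1 := abs_le.1 (atR_le (x.t.re / x.t.im))
  have p1 := abs_le.1 p1
  have p2 := abs_le.1 p2
  constructor
  · have key := ip_mul (X := z.re - Real.pi / 4)
      (w := -(((x.lti : ℚ) : ℝ) / 2) - (d.re * (x.gz.re : ℝ) - d.im * (x.gz.im : ℝ)) / 8)
      (e := x.eZ + 1 / 10 ^ 11) (by
        unfold Ct.lti
        rw [abs_le]
        constructor <;> linarith) (by
        unfold Ct.lti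
        rw [abs_le]
        constructor <;> linarith)
    have e1 : (z.re - Real.pi / 4) / Real.pi = (z / Real.pi).re - 1 / 4 := by
      rw [div_ofReal_re]
      field_simp
    rw [e1] at key
    have key := abs_le.1 key
    unfold Lin.Ok Ct.oX
    push_cast
    rw [abs_le]
    constructor <;> linarith
  · have key := ip_mul (X := z.im)
      (w := -(((x.ltr : ℚ) : ℝ) / 2) - (d.re * (x.gz.im : ℝ) + d.im * (x.gz.re : ℝ)) / 8)
      (e := x.eZ + 1 / 10 ^ 11) (by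
        unfold Ct.ltr
        rw [abs_le]
        constructor <;> linarith) (by
        rw [abs_le]
        constructor <;> linarith)
    have e1 : z.im / Real.pi = (z / Real.pi).im := by rw [div_ofReal_im]
    rw [e1] at key
    have key := abs_le.1 key
    unfold Lin.Ok Ct.oN
    push_cast
    rw [abs_le]
    constructor <;> linarith

/-- **Soundness of the model.** -/
theorem Ct.md8 (h : x.ok B = true) (h2 : x.ok2 B = true) (hz : Z4 z b) (hB : InB B b)
    (hs : Slot (q4 z) z) : (x.rc B).In (log b - log x.b.c) ∧ Md8 x (log b - log x.b.c)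
      (sy (q4 z) z) (z / Real.pi) (2 * (log b - log (cos z))) (hh (1 / 2 - sy (q4 z) z)) := by
  have h1 := Ct.OK_of h
  have hY := Ct.mY h1 hz hB hs h2
  have hZ := Ct.mZ h1 hz hB h2
  have hL := Ct.mL h1 hz hB
  have hH := Ct.mH h1 hz hB hs h2
  exact ⟨Ct.rc_in h1 hB, hY.1, hY.2, hZ.1, hZ.2, hL.1, hL.2, hH.1, hH.2⟩

end Pool.Agent.S5.E.E4
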