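import Mathlib

/-!
# The end with four half twists: the path in the logarithm of the slot

`b = i (u² - 1) / 2`, `u = 1 + 2 cos 2 z`. All quantities of an end with four half twists are analytic
functions of `log b`; here is the path between the centre of a box and a point of the box.
-/

set_option autoImplicit false

namespace Pool.Agent.S5.E.E4

open Complex Set

/-- A linear approximation with the error of a Lipschitz derivative. -/
theorem tay {F F' : ℝ → ℂ} {M : ℝ} (h : ∀ s ∈ Icc (0 : ℝ) 1, HasDerivAt F (F' s) s)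
    (hM : ∀ s ∈ Icc (0 : ℝ) 1, ‖F' s - F' 0‖ ≤ M * s) : ‖F 1 - F 0 - F' 0‖ ≤ M / 2 := by
  have key := image_norm_le_of_norm_deriv_right_le_deriv_boundary
    (f := fun s : ℝ => F s - F 0 - (s : ℂ) * F' 0) (f' := fun s => F' s - F' 0)
    (a := 0) (b := 1) (B := fun s : ℝ => M / 2 * s ^ 2) (B' := fun s => M * s)
    (by
      intro s hs
      have h1 := (h s hs).continuousAt
      have h2 : ContinuousAt (fun s : ℝ => (s : ℂ)) s := Complex.continuous_ofReal.continuousAt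
      exact ((h1.sub continuousAt_const).sub (h2.mul continuousAt_const)).continuousWithinAt)
    (by
      intro s hs
      have h1 := (h s ⟨hs.1, hs.2.le⟩).sub_const (F 0)
      have h2 : HasDerivAt (fun s : ℝ => (s : ℂ) * F' 0) (1 * F' 0) s :=
        (Complex.ofRealCLM.hasDerivAt (x := s)).mul_const (F' 0)
      rw [one_mul] at h2
      exact (h1.sub h2).hasDerivWithinAt)
    (by simp)
    (by
      intro s
      have h1 := ((hasDerivAt_pow 2 s).const_mul (M / 2))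
      refine h1.congr_deriv ?_
      simp
      ring)
    (by
      intro s hs
      exact hM s ⟨hs.1, hs.2.le⟩)
  have h1 := key (show (1 : ℝ) ∈ Icc (0 : ℝ) 1 by simp)
  simpa using h1

/-- The Lipschitz estimate of a path. -/
theorem lip {F F' : ℝ → ℂ} {K : ℝ} (h : ∀ s ∈ Icc (0 : ℝ) 1, HasDerivAt F (F' s) s)
    (hK : ∀ s ∈ Icc (0 : ℝ) 1, ‖F' s‖ ≤ K) {s : ℝ} (hs : s ∈ Icc (0 : ℝ) 1) :
    ‖F s - F 0‖ ≤ K * s := by
  have h1 := norm_image_sub_le_of_norm_deriv_le_segment' (f := F) (f' := F') (a := 0) (b := 1)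
    (C := K) (fun x hx => (h x hx).hasDerivWithinAt) (fun x hx => hK x ⟨hx.1, hx.2.le⟩) s hs
  simpa using h1

/-- The slot on the path. -/
noncomputable def bb (l d : ℂ) (s : ℝ) : ℂ := cexp (l + s * d)

/-- The path of `u`. -/
noncomputable def uu (l d : ℂ) (s : ℝ) : ℂ := cexp (log (1 - 2 * I * bb l d s) / 2)

theorem sq_exp_half {w : ℂ} (h : w ≠ 0) : cexp (log w / 2) ^ 2 = w := by
  rw [← Complex.exp_nat_mul]
  push_cast
  rw [mul_div_cancel₀ _ (two_ne_zero' ℂ), exp_log h]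

theorem exp_half_re {w : ℂ} (h : w ∈ slitPlane) : 0 < (cexp (log w / 2)).re := by
  have h1 := mem_slitPlane_iff_arg.1 h
  rw [exp_re]
  apply mul_pos (Real.exp_pos _)
  apply Real.cos_pos_of_mem_Ioo
  have e : (log w / 2).im = w.arg / 2 := by
    rw [show (2 : ℂ) = ((2 : ℝ) : ℂ) by norm_num, div_ofReal_im, log_im]
  rw [e]
  have h2 := neg_pi_lt_arg w
  have h3 := arg_le_pi w
  have h4 := lt_of_le_of_ne h3 h1.1
  constructor <;> linarith

theorem log_sq {u : ℂ} (hu : 0 < u.re) : log (u ^ 2) = 2 * log u := by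
  have hu0 : u ≠ 0 := fun h0 => by rw [h0] at hu; simp at hu
  have h1 := abs_lt.1 (abs_arg_lt_pi_div_two_iff.2 (Or.inl hu))
  have e : u ^ 2 = cexp (2 * log u) := by
    rw [two_mul, exp_add, exp_log hu0, sq]
  have e2 : (2 * log u).im = 2 * u.arg := by
    rw [show (2 : ℂ) = ((2 : ℝ) : ℂ) by norm_num, im_ofReal_mul, log_im]
  rw [e, log_exp]
  · rw [e2]; linarith
  · rw [e2]; linarith

/-- A square root with positive real part. -/
theorem exp_half_eq {w u : ℂ} (h : w = u ^ 2) (hu : 0 < u.re) : cexp (log w / 2) = u := by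
  have hu0 : u ≠ 0 := fun h0 => by rw [h0] at hu; simp at hu
  rw [h, log_sq hu, mul_div_cancel_left₀ _ (two_ne_zero' ℂ), exp_log hu0]

/-! ### The data of the path -/

/-- The hypotheses on the path: `k0 ≤ |b| ≤ k1`, `Re b > 0`, `|u| ≥ m`. -/
structure Pth (l d : ℂ) (k1 m : ℝ) : Prop where
  m0 : 0 < m
  hk : ∀ s ∈ Icc (0 : ℝ) 1, ‖bb l d s‖ ≤ k1
  hr : ∀ s ∈ Icc (0 : ℝ) 1, 0 < (bb l d s).re
  hm : ∀ s ∈ Icc (0 : ℝ) 1, m ≤ ‖uu l d s‖

variable {l d : ℂ} {k1 m : ℝ}

theorem im_one_sub (b : ℂ) : (1 - 2 * I * b).im = -(2 * b.re) := by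
  simp [mul_re, mul_im]

theorem re_one_sub (b : ℂ) : (1 - 2 * I * b).re = 1 + 2 * b.im := by
  simp [mul_re, mul_im]

theorem slit_of_im {w : ℂ} (h : w.im ≠ 0) : w ∈ slitPlane := Or.inr h

theorem Pth.slit (h : Pth l d k1 m) {s : ℝ} (hs : s ∈ Icc (0 : ℝ) 1) :
    1 - 2 * I * bb l d s ∈ slitPlane := by
  apply slit_of_im
  rw [im_one_sub]
  have := h.hr s hs
  linarith

theorem Pth.sq (h : Pth l d k1 m) {s : ℝ} (hs : s ∈ Icc (0 : ℝ) 1) :
    uu l d s ^ 2 = 1 - 2 * I * bb l d s := by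
  unfold uu
  exact sq_exp_half (slitPlane_ne_zero (h.slit hs))

theorem Pth.re (h : Pth l d k1 m) {s : ℝ} (hs : s ∈ Icc (0 : ℝ) 1) : 0 < (uu l d s).re :=
  exp_half_re (h.slit hs)

theorem Pth.im (h : Pth l d k1 m) {s : ℝ} (hs : s ∈ Icc (0 : ℝ) 1) : (uu l d s).im < 0 := by
  have h1 := congrArg Complex.im (h.sq hs)
  rw [im_one_sub, pow_two, mul_im] at h1
  have h2 := h.hr s hs
  have h3 := h.re hs
  nlinarith

theorem Pth.ne (h : Pth l d k1 m) {s : ℝ} (hs : s ∈ Icc (0 : ℝ) 1) : uu l d s ≠ 0 := fun h0 => by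
  have := h.re hs
  rw [h0] at this
  simp at this

theorem bb_der (l d : ℂ) (s : ℝ) : HasDerivAt (bb l d) (d * bb l d s) s := by
  unfold bb
  have h1 : HasDerivAt (fun s : ℝ => l + (s : ℂ) * d) (1 * d) s :=
    ((Complex.ofRealCLM.hasDerivAt (x := s)).mul_const d).const_add l
  rw [one_mul] at h1
  refine h1.cexp.congr_deriv ?_
  ring

/-- The derivative of `u`. -/
theorem Pth.du (h : Pth l d k1 m) {s : ℝ} (hs : s ∈ Icc (0 : ℝ) 1) :
    HasDerivAt (uu l d) (d * ((uu l d s ^ 2 - 1) / (2 * uu l d s))) s := by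
  have h1 : HasDerivAt (fun s => 1 - 2 * I * bb l d s) (-(2 * I * (d * bb l d s))) s := by
    have := ((bb_der l d s).const_mul (2 * I)).const_sub 1
    exact this
  have h2 := (h1.clog_real (h.slit hs)).div_const 2
  have h3 := h2.cexp
  refine h3.congr_deriv ?_
  have e : cexp (log (1 - 2 * I * bb l d s) / 2) = uu l d s := rfl
  have hq := h.sq hs
  have hu := h.ne hs
  rw [e, ← hq]
  have e2 : -(2 * I * (d * bb l d s)) = d * (uu l d s ^ 2 - 1) := by
    rw [hq]
    ring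
  rw [e2]
  field_simp

theorem Pth.lipU (h : Pth l d k1 m) {s : ℝ} (hs : s ∈ Icc (0 : ℝ) 1) :
    ‖uu l d s - uu l d 0‖ ≤ k1 / m * ‖d‖ * s := by
  apply lip (F' := fun s => d * ((uu l d s ^ 2 - 1) / (2 * uu l d s)))
    (fun s hs => h.du hs) _ hs
  intro s hs
  have hm := h.hm s hs
  have hk := h.hk s hs
  have e : uu l d s ^ 2 - 1 = -(2 * I * bb l d s) := by
    rw [h.sq hs]
    ring
  rw [e, norm_mul, norm_div, norm_neg, norm_mul, norm_mul, norm_mul, norm_I, Complex.norm_two,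
    mul_comm]
  apply mul_le_mul_of_nonneg_right _ (norm_nonneg _)
  rw [mul_one, mul_div_mul_left _ _ (two_ne_zero' ℝ)]
  have h0 := h.m0
  exact div_le_div₀ ((norm_nonneg _).trans hk) hk h0 hm

end Pool.Agent.S5.E.E4
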