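import Pool.Agent.S5.E.E4.Cls
import Pool.Agent.S5.E.B2.Base

/-!
# The regions of an end with four half twists: rows
-/

set_option autoImplicit false

namespace Pool.Agent.S5.E.E4

open Complex Set Pool.Agent.S5.Num Pool.Agent.S5.G
open Pool.Agent.H63.VC3 (hh)
open Pool.Agent.S5.Tb (P4 Gd Rd Q4)
open Pool.Agent.S5.E.B2 (InR)

/-- The check of a leaf. -/
def lfc (x : Ct) (c : Vd) (B : Bx) (l : List (ℕ × Gd)) (r : List Rd) : Bool :=
  x.ok B && x.ok2 B && vok x (x.rc B) c && l.all (fun p => cls x (x.rc B) c p.1 p.2) &&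
    r.all (fun r => qls x (x.rc B) r)

/-- **The slot of an end with four half twists.** -/
structure H4 (s : Bool) (c q z : ℂ) : Prop where
  sd : Sd s c q z
  eq : 4 * z = Real.pi + I * q
  u0 : 0 < (4 * cos z ^ 2 - 1).re
  lam : ly 2 (sy q z) (z / Real.pi) = 2 * (log (kp s c) - log (cos z))

variable {s : Bool} {c q z : ℂ}

theorem H4.q_eq (h : H4 s c q z) : q4 z = q := by
  have h1 := h.eq
  unfold q4
  linear_combination (-I) * h1 - q * I_sq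

theorem H4.z4 (h : H4 s c q z) : Z4 z (kp s c) := by
  refine ⟨h.sd.z0, h.sd.z1, h.sd.zi, ?_, h.u0⟩
  have h1 := h.sd.sn'
  have hs := h.sd.sz
  apply mul_right_cancel₀ hs
  rw [← h1, ← h.q_eq]
  have e : q4 z = (Real.pi - 4 * z) * I := by unfold q4; ring
  rw [e, sinh_mul_I, sin_pi_sub, show 4 * z = 2 * (2 * z) by ring, sin_two_mul (2 * z),
    sin_two_mul z]
  ring

/-- A tree of leaves. -/
inductive Tr where
  | L (x : Ct) (c : Vd)
  | K (m : ℚ) (a b : Tr)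
  | T (m : ℚ) (a b : Tr)

/-- The check of a tree. -/
def Tr.chk (l : List (ℕ × Gd)) (r : List Rd) : Tr → Bx → Bool
  | .L x c, B => lfc x c B l r
  | .K m a b, B => a.chk l r ⟨B.k0, m, B.lo, B.hi⟩ && b.chk l r ⟨m, B.k1, B.lo, B.hi⟩
  | .T m a b, B => a.chk l r ⟨B.k0, B.k1, B.lo, m⟩ && b.chk l r ⟨B.k0, B.k1, m, B.hi⟩

/-- The conclusions. -/
structure Con (l : List (ℕ × Gd)) (r : List Rd) (ys vs : ℂ) : Prop where
  p : ∀ p ∈ l, P4 (p.1 : ℝ) p.2 ys vs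
  q : ∀ g ∈ r, Q4 g ys vs

theorem lfc_sound {x : Ct} {v : Vd} {B : Bx} {l : List (ℕ × Gd)} {r : List Rd}
    (h : lfc x v B l r = true) (hH : H4 s c q z) (hB : InB B (kp s c)) :
    Con l r (sy q z) (z / Real.pi) := by
  unfold lfc at h
  simp only [Bool.and_eq_true, List.all_eq_true] at h
  obtain ⟨⟨⟨⟨h1, h2⟩, h3⟩, h4⟩, h5⟩ := h
  have hs : Slot (q4 z) z := by
    rw [hH.q_eq]
    exact hH.sd.slot
  obtain ⟨hR, hM⟩ := Ct.md8 h1 h2 hH.z4 hB hs
  rw [hH.q_eq, ← hH.lam] at hM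
  have hF := vok_sound h3
  exact ⟨fun p hp => cls_sound hF hR hM (h4 p hp), fun g hg => qls_sound hR hM (h5 g hg)⟩

theorem Tr.chk_sound {l : List (ℕ × Gd)} {r : List Rd} (hH : H4 s c q z) (t : Tr) :
    ∀ B : Bx, t.chk l r B = true → InB B (kp s c) → Con l r (sy q z) (z / Real.pi) := by
  induction t with
  | L x v => exact fun B h hB => lfc_sound h hH hB
  | K m a b iha ihb =>
    intro B h hB
    unfold Tr.chk at h
    rw [Bool.and_eq_true] at h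
    rcases le_total ‖kp s c‖ (m : ℝ) with h1 | h1
    · exact iha _ h.1 ⟨hB.b0, hB.k0, h1, hB.lo, hB.hi⟩
    · exact ihb _ h.2 ⟨hB.b0, h1, hB.k1, hB.lo, hB.hi⟩
  | T m a b iha ihb =>
    intro B h hB
    unfold Tr.chk at h
    rw [Bool.and_eq_true] at h
    rcases le_total (kp s c).im ((m : ℝ) * (kp s c).re) with h1 | h1
    · exact iha _ h.1 ⟨hB.b0, hB.k0, hB.k1, hB.lo, h1⟩
    · exact ihb _ h.2 ⟨hB.b0, hB.k0, hB.k1, h1, hB.hi⟩

/-- The box of a region. -/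
def bxR (s : Bool) (k0 k1 t0 t1 : ℕ) : Bx :=
  cond s ⟨(k0 : ℚ) / 1000, (k1 : ℚ) / 1000, -((t1 : ℚ) / 1000), -((t0 : ℚ) / 1000)⟩
    ⟨(k0 : ℚ) / 1000, (k1 : ℚ) / 1000, (t0 : ℚ) / 1000, (t1 : ℚ) / 1000⟩

theorem norm_kp (s : Bool) (c : ℂ) : ‖kp s c‖ ^ 2 = c.re ^ 2 + (-c.im) ^ 2 := by
  rw [← normSq_eq_norm_sq, normSq_apply]
  cases s
  · rw [kp_false, conj_re, conj_im]; ring
  · rw [kp_true]; ring

theorem inB_of {k0 k1 t0 t1 : ℕ} (hc : 0 < c.re)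
    (h0 : ((k0 : ℝ) / 1000) ^ 2 ≤ c.re ^ 2 + (-c.im) ^ 2)
    (h1 : c.re ^ 2 + (-c.im) ^ 2 ≤ ((k1 : ℝ) / 1000) ^ 2)
    (h2 : (t0 : ℝ) / 1000 * c.re ≤ -c.im) (h3 : -c.im ≤ (t1 : ℝ) / 1000 * c.re) :
    InB (bxR s k0 k1 t0 t1) (kp s c) := by
  rw [← norm_kp s] at h0 h1
  have n0 : (k0 : ℝ) / 1000 ≤ ‖kp s c‖ := by
    apply le_of_sq_le_sq h0 (norm_nonneg _)
  have n1 : ‖kp s c‖ ≤ (k1 : ℝ) / 1000 := by
    apply le_of_sq_le_sq h1 (by positivity)
  cases s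
  · rw [kp_false] at *
    refine ⟨?_, ?_, ?_, ?_, ?_⟩
    · rw [conj_re]; exact hc
    · unfold bxR; rw [cond_false]; push_cast; exact n0
    · unfold bxR; rw [cond_false]; push_cast; exact n1
    · unfold bxR; rw [cond_false, conj_re, conj_im]; push_cast; exact h2
    · unfold bxR; rw [cond_false, conj_re, conj_im]; push_cast; exact h3
  · rw [kp_true] at *
    refine ⟨?_, ?_, ?_, ?_, ?_⟩
    · exact hc
    · unfold bxR; rw [cond_true]; push_cast; exact n0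
    · unfold bxR; rw [cond_true]; push_cast; exact n1
    · unfold bxR; rw [cond_true]; push_cast; linarith
    · unfold bxR; rw [cond_true]; push_cast; linarith

/-- The region is smaller than the box. -/
def sub (g : E.B2.Rg) (k0 k1 t0 t1 : ℕ) : Bool :=
  Nat.ble k0 g.k0 && Nat.ble g.k1 k1 && Nat.ble t0 g.t0 && Nat.ble g.t1 t1

/-- The box of a region of the table. -/
theorem inB_reg {k0 k1 t0 t1 : ℕ} {g : E.B2.Rg} (hg : sub g k0 k1 t0 t1 = true) (hc : 0 < c.re)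
    (h : InR g c.re (-c.im)) : InB (bxR s k0 k1 t0 t1) (kp s c) := by
  unfold sub at hg
  simp only [Bool.and_eq_true] at hg
  obtain ⟨⟨⟨h1, h2⟩, h3⟩, h4⟩ := hg
  have k1' : (k0 : ℝ) ≤ g.k0 := by exact_mod_cast Nat.le_of_ble_eq_true h1
  have k2' : (g.k1 : ℝ) ≤ k1 := by exact_mod_cast Nat.le_of_ble_eq_true h2
  have k3' : (t0 : ℝ) ≤ g.t0 := by exact_mod_cast Nat.le_of_ble_eq_true h3
  have k4' : (g.t1 : ℝ) ≤ t1 := by exact_mod_cast Nat.le_of_ble_eq_true h4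
  refine inB_of hc (le_trans ?_ h.lo) (h.hi.trans ?_) (le_trans ?_ h.a0) (h.a1.trans ?_)
  · gcongr
  · gcongr
  · gcongr
  · gcongr

/-- **A row.** -/
theorem row {k0 k1 t0 t1 : ℕ} {l : List (ℕ × Gd)} {r : List Rd} {t : Tr}
    (ht : t.chk l r (bxR s k0 k1 t0 t1) = true) (hH : H4 s c q z) {g : E.B2.Rg}
    (hg : sub g k0 k1 t0 t1 = true) (h : InR g c.re (-c.im)) : Con l r (sy q z) (z / Real.pi) :=
  t.chk_sound hH _ ht (inB_reg hg hH.sd.c0 h)

/-- The side condition from a region for `cos z`. -/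
theorem u0_of {g : E.B2.Rg} (hg : InR g (cos z).re (-(cos z).im)) (k : 600 ≤ g.k0)
    (t : g.t1 ≤ 300) : 0 < (4 * cos z ^ 2 - 1).re := by
  have e : (4 * cos z ^ 2 - 1).re = 4 * ((cos z).re ^ 2 - (cos z).im ^ 2) - 1 := by
    rw [sub_re, one_re, show (4 : ℂ) = ((4 : ℝ) : ℂ) by norm_num, re_ofReal_mul, sq, mul_re]
    ring
  rw [e]
  have h1 := hg.lo
  have h2 := hg.a1
  have h3 := hg.x0
  have h4 := hg.y0
  have k' : (600 : ℝ) ≤ g.k0 := by exact_mod_cast k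
  have t' : (g.t1 : ℝ) ≤ 300 := by exact_mod_cast t
  have h5 : -(cos z).im ≤ 3 / 10 * (cos z).re := by nlinarith
  have h6 : (36 : ℝ) / 100 ≤ (cos z).re ^ 2 + (-(cos z).im) ^ 2 := by
    refine le_trans ?_ h1
    nlinarith
  nlinarith

/-! ### Alternatives -/

/-- A tree of alternatives. -/
inductive At where
  | L (g : Gd) (r : Rd) (t : Tr)
  | K (m : ℚ) (a b : At)
  | T (m : ℚ) (a b : At)

/-- The check of a tree of alternatives. -/
def At.chk (l : List (ℕ × Gd)) : At → Bx → Bool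
  | .L g r t, B => t.chk ((2, g) :: l) [r] B
  | .K m a b, B => a.chk l ⟨B.k0, m, B.lo, B.hi⟩ && b.chk l ⟨m, B.k1, B.lo, B.hi⟩
  | .T m a b, B => a.chk l ⟨B.k0, B.k1, B.lo, m⟩ && b.chk l ⟨B.k0, B.k1, m, B.hi⟩

/-- The alternatives. -/
def At.alts : At → List (Gd × Rd)
  | .L g r _ => [(g, r)]
  | .K _ a b => a.alts ++ b.alts
  | .T _ a b => a.alts ++ b.alts

/-- The conclusions. -/
structure Coa (l : List (ℕ × Gd)) (r : List (Gd × Rd)) (ys vs : ℂ) : Prop where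
  p : ∀ p ∈ l, P4 (p.1 : ℝ) p.2 ys vs
  q : ∃ p ∈ r, P4 2 p.1 ys vs ∧ Q4 p.2 ys vs

theorem Coa.left {l : List (ℕ × Gd)} {r r' : List (Gd × Rd)} {ys vs : ℂ} (h : Coa l r ys vs) :
    Coa l (r ++ r') ys vs := by
  obtain ⟨p, hp, h2⟩ := h.q
  exact ⟨h.p, p, List.mem_append_left _ hp, h2⟩

theorem Coa.right {l : List (ℕ × Gd)} {r r' : List (Gd × Rd)} {ys vs : ℂ} (h : Coa l r' ys vs) :
    Coa l (r ++ r') ys vs := by
  obtain ⟨p, hp, h2⟩ := h.q
  exact ⟨h.p, p, List.mem_append_right _ hp, h2⟩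

theorem At.chk_sound {l : List (ℕ × Gd)} (hH : H4 s c q z) (t : At) :
    ∀ B : Bx, t.chk l B = true → InB B (kp s c) → Coa l t.alts (sy q z) (z / Real.pi) := by
  induction t with
  | L g r t =>
    intro B h hB
    have h1 := t.chk_sound hH B h hB
    refine ⟨fun p hp => h1.p p (List.mem_cons_of_mem _ hp), (g, r), List.mem_singleton_self _, ?_,
      h1.q r (List.mem_singleton_self _)⟩
    have h2 := h1.p (2, g) List.mem_cons_self
    have e : (((2, g) : ℕ × Gd).1 : ℝ) = 2 := by norm_num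
    rw [e] at h2
    exact h2
  | K m a b iha ihb =>
    intro B h hB
    unfold At.chk at h
    rw [Bool.and_eq_true] at h
    rcases le_total ‖kp s c‖ (m : ℝ) with h1 | h1
    · exact (iha _ h.1 ⟨hB.b0, hB.k0, h1, hB.lo, hB.hi⟩).left
    · exact (ihb _ h.2 ⟨hB.b0, h1, hB.k1, hB.lo, hB.hi⟩).right
  | T m a b iha ihb =>
    intro B h hB
    unfold At.chk at h
    rw [Bool.and_eq_true] at h
    rcases le_total (kp s c).im ((m : ℝ) * (kp s c).re) with h1 | h1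
    · exact (iha _ h.1 ⟨hB.b0, hB.k0, hB.k1, hB.lo, h1⟩).left
    · exact (ihb _ h.2 ⟨hB.b0, hB.k0, hB.k1, h1, hB.hi⟩).right

/-- **A row with alternatives.** -/
theorem rowa {k0 k1 t0 t1 : ℕ} {l : List (ℕ × Gd)} {t : At}
    (ht : t.chk l (bxR s k0 k1 t0 t1) = true) (hH : H4 s c q z) {g : E.B2.Rg}
    (hg : sub g k0 k1 t0 t1 = true) (h : InR g c.re (-c.im)) :
    Coa l t.alts (sy q z) (z / Real.pi) :=
  t.chk_sound hH _ ht (inB_reg hg hH.sd.c0 h)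

theorem Con.p1 {g : Gd} {l : List (ℕ × Gd)} {n : ℕ} {r : List Rd} {ys vs : ℂ} (h : Con ((n, g) :: l) r ys vs) :
    P4 (n : ℝ) g ys vs := h.p (n, g) List.mem_cons_self

theorem Con.q1 {l : List (ℕ × Gd)} {g : Rd} {ys vs : ℂ} (h : Con l [g] ys vs) : Q4 g ys vs :=
  h.q g (List.mem_singleton_self _)

end Pool.Agent.S5.E.E4
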