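import Pool.Agent.S5.E.E4.Chk

/-!
# Soundness of the check of a leaf
-/

set_option autoImplicit false

namespace Pool.Agent.S5.E.E4

open Complex Set Pool.Agent.S5.Num Pool.Agent.S5.G
open Pool.Agent.H63.VC3 (hh)
open Pool.Agent.S3 (Rf)
open Pool.Agent.S5.Tb (Vw pla P4 Gd Ps)

theorem Pt.Ok.tay1 {g : Pt} (hg : g.Ok) {z : ℂ} {K a b A B : ℝ}
    (h : |Rf z - Rf g.z - (hh g.z * (z - g.z)).re| ≤ K / 2 * ‖z - g.z‖ ^ 2) (hK : 0 ≤ K)
    (ha : z.re - g.z.re = a) (hb : z.im - g.z.im = b) (hA : |a| ≤ A) (hB : |b| ≤ B) :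
    |Rf z - g.f - (g.l * a - g.a * b)| ≤
      g.ef + K / 2 * (A ^ 2 + B ^ 2) + (|a| + |b|) / 10 ^ 8 := by
  have e1 : (hh g.z * (z - g.z)).re = (hh g.z).re * a - (hh g.z).im * b := by
    rw [mul_re, sub_re, sub_im, ha, hb]
  have e2 : ‖z - g.z‖ ^ 2 = a ^ 2 + b ^ 2 := by
    rw [← normSq_eq_norm_sq, normSq_apply, sub_re, sub_im, ha, hb]
    ring
  rw [e1, e2] at h
  have h1 : a ^ 2 + b ^ 2 ≤ A ^ 2 + B ^ 2 := by
    have := sq_le_sq' (abs_le.1 hA).1 (abs_le.1 hA).2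
    have := sq_le_sq' (abs_le.1 hB).1 (abs_le.1 hB).2
    linarith
  have h2 := mul_le_mul_of_nonneg_left h1 (show 0 ≤ K / 2 by linarith)
  have e3 : Rf z - g.f - (g.l * a - g.a * b) =
      (Rf z - Rf g.z - ((hh g.z).re * a - (hh g.z).im * b)) + (Rf g.z - g.f) +
        ((hh g.z).re - g.l) * a - ((hh g.z).im - g.a) * b := by ring
  rw [e3]
  have h3 : |((hh g.z).re - g.l) * a| ≤ 1 / 10 ^ 8 * |a| := by
    rw [abs_mul]
    exact mul_le_mul_of_nonneg_right hg.l (abs_nonneg _)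
  have h4 : |((hh g.z).im - g.a) * b| ≤ 1 / 10 ^ 8 * |b| := by
    rw [abs_mul]
    exact mul_le_mul_of_nonneg_right hg.a (abs_nonneg _)
  have h5 := hg.f
  rw [abs_le] at h h3 h4 h5 ⊢
  constructor <;> linarith [h.1, h.2, h3.1, h3.2, h4.1, h4.2, h5.1, h5.2]

/-- The facts of the check of the values. -/
structure VF (x : Ct) (R : Rc) (c : Vd) : Prop where
  p1 : c.P1.Ok
  p2 : c.P2.Ok
  p3 : c.P3.Ok
  c1 : crv c.u1 c.s1 c.K1 (x.o1r.lo R) (x.o1r.hi R) (x.o1i.lo R) (x.o1i.hi R) c.P1 = true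
  c2 : crv c.u2 c.s2 c.K2 (x.o2r.lo R) (x.o2r.hi R) (x.o2i.lo R) (x.o2i.hi R) c.P2 = true
  c3 : crv c.u3 c.s3 c.K3 (x.o3r.lo R) (x.o3r.hi R) (x.o3i.lo R) (x.o3i.hi R) c.P3 = true
  x0 : (0 : ℝ) ≤ c.x
  x1 : (c.x : ℝ) ≤ 100000
  n0 : (0 : ℝ) ≤ c.n
  n1 : (c.n : ℝ) ≤ 100000

theorem vok_sound {x : Ct} {R : Rc} {c : Vd} (h : vok x R c = true) : VF x R c := by
  unfold vok at h
  simp only [Bool.and_eq_true, decide_eq_true_eq] at h
  obtain ⟨⟨⟨⟨⟨⟨⟨⟨⟨h1, h2⟩, h3⟩, h4⟩, h5⟩, h6⟩, h7⟩, h8⟩, h9⟩, h10⟩ := h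
  exact ⟨Pt.ok_sound h1, Pt.ok_sound h2, Pt.ok_sound h3, h4, h5, h6, by exact_mod_cast h7,
    by exact_mod_cast h8, by exact_mod_cast h9, by exact_mod_cast h10⟩

variable {x : Ct} {R : Rc} {c : Vd} {d y v l H : ℂ}

/-- The lower bound of the potential. -/
theorem val_ge (hF : VF x R c) (hR : R.In d) (hM : Md8 x d y v l H) {w : ℚ} (hw : 0 ≤ w) :
    (bas w c : ℝ) + gGr w c * (y.re - c.t / 100000) - gGi w c * (y.im - c.e / 100000) -
      pen w c (dvs x R c) - (w + 2) / 10 ^ 8 * ((dvs x R c).T + (dvs x R c).E) ≤ Vw w y v := by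
  have hw' : (0 : ℝ) ≤ w := by exact_mod_cast hw
  -- the deviations
  have dT := hM.T.dev hR (c.t / 100000)
  have dE := hM.S.dev hR (c.e / 100000)
  have dX := hM.X.dev hR (c.x / 100000)
  have dN := hM.N.dev hR (c.n / 100000)
  have m1r : x.o1r.Ok d (1 / 2 - y).re := by
    have := (hM.T.sm (-1)).ac (1 / 2)
    have e : ((-1 : ℚ) : ℝ) * y.re + ((1 / 2 : ℚ) : ℝ) = (1 / 2 - y).re := by
      rw [sub_re]
      push_cast
      norm_num
      ring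
    rw [e] at this
    exact this
  have m1i : x.o1i.Ok d (1 / 2 - y).im := by
    have := hM.S.sm (-1)
    have e : ((-1 : ℚ) : ℝ) * y.im = (1 / 2 - y).im := by
      rw [sub_im]
      push_cast
      norm_num
    rw [e] at this
    exact this
  have m2r : x.o2r.Ok d (y - v).re := by
    have := hM.T.add (hM.X.sm (-1))
    have e : y.re + ((-1 : ℚ) : ℝ) * v.re = (y - v).re := by
      rw [sub_re]
      push_cast
      ring
    rw [e] at this
    exact this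
  have m2i : x.o2i.Ok d (y - v).im := by
    have := hM.S.add (hM.N.sm (-1))
    have e : y.im + ((-1 : ℚ) : ℝ) * v.im = (y - v).im := by
      rw [sub_im]
      push_cast
      ring
    rw [e] at this
    exact this
  have m3r : x.o3r.Ok d (y + v).re := by
    rw [add_re]
    exact hM.T.add hM.X
  have m3i : x.o3i.Ok d (y + v).im := by
    rw [add_im]
    exact hM.S.add hM.N
  have d2r := m2r.dev hR ((c.t - c.x) / 100000)
  have d2i := m2i.dev hR ((c.e - c.n) / 100000)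
  have d3r := m3r.dev hR ((c.t + c.x) / 100000)
  have d3i := m3i.dev hR ((c.e + c.n) / 100000)
  obtain ⟨t1, K1⟩ := crv_sound hF.c1 (m1r.lo hR) (m1r.hi hR) (m1i.lo hR) (m1i.hi hR)
  obtain ⟨t2, K2⟩ := crv_sound hF.c2 (m2r.lo hR) (m2r.hi hR) (m2i.lo hR) (m2i.hi hR)
  obtain ⟨t3, K3⟩ := crv_sound hF.c3 (m3r.lo hR) (m3r.hi hR) (m3i.lo hR) (m3i.hi hR)
  have eT : ((dvs x R c).T : ℝ) = ((x.oT.dev R (c.t / 100000) : ℚ) : ℝ) := rfl
  have eE : ((dvs x R c).E : ℝ) = ((x.oE.dev R (c.e / 100000) : ℚ) : ℝ) := rfl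
  have eX : ((dvs x R c).X : ℝ) = ((x.oX.dev R (c.x / 100000) : ℚ) : ℝ) := rfl
  have eN : ((dvs x R c).N : ℝ) = ((x.oN.dev R (c.n / 100000) : ℚ) : ℝ) := rfl
  have e2r : ((dvs x R c).r2 : ℝ) = ((x.o2r.dev R ((c.t - c.x) / 100000) : ℚ) : ℝ) := rfl
  have e2i : ((dvs x R c).i2 : ℝ) = ((x.o2i.dev R ((c.e - c.n) / 100000) : ℚ) : ℝ) := rfl
  have e3r : ((dvs x R c).r3 : ℝ) = ((x.o3r.dev R ((c.t + c.x) / 100000) : ℚ) : ℝ) := rfl
  have e3i : ((dvs x R c).i3 : ℝ) = ((x.o3i.dev R ((c.e + c.n) / 100000) : ℚ) : ℝ) := rfl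
  rw [← eT] at dT
  rw [← eE] at dE
  rw [← eX] at dX
  rw [← eN] at dN
  rw [← e2r] at d2r
  rw [← e2i] at d2i
  rw [← e3r] at d3r
  rw [← e3i] at d3i
  generalize dvs x R c = D at *
  push_cast at dT dE dX dN d2r d2i d3r d3i
  -- the three terms
  have a1 : (1 / 2 - y).re - c.P1.z.re = -(y.re - c.t / 100000) := by
    rw [Pt.re, sub_re]
    unfold Vd.P1
    push_cast
    norm_num
    ring
  have b1 : (1 / 2 - y).im - c.P1.z.im = -(y.im - c.e / 100000) := by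
    rw [Pt.im, sub_im]
    unfold Vd.P1
    push_cast
    norm_num
    ring
  have a2 : (y - v).re - c.P2.z.re = (y - v).re - (c.t - c.x) / 100000 := by
    rw [Pt.re]
    unfold Vd.P2
    push_cast
    ring
  have b2 : (y - v).im - c.P2.z.im = (y - v).im - (c.e - c.n) / 100000 := by
    rw [Pt.im]
    unfold Vd.P2
    push_cast
    ring
  have a3 : (y + v).re - c.P3.z.re = (y + v).re - (c.t + c.x) / 100000 := by
    rw [Pt.re]
    unfold Vd.P3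
    push_cast
    ring
  have b3 : (y + v).im - c.P3.z.im = (y + v).im - (c.e + c.n) / 100000 := by
    rw [Pt.im]
    unfold Vd.P3
    push_cast
    ring
  have s1 := hF.p1.tay1 (A := (D.T : ℝ)) (B := (D.E : ℝ)) t1 K1 a1 b1
    (by rw [abs_neg]; exact dT) (by rw [abs_neg]; exact dE)
  have s2 := hF.p2.tay1 t2 K2 a2 b2 d2r d2i
  have s3 := hF.p3.tay1 t3 K3 a3 b3 d3r d3i
  have z2r : |(y - v).re - (c.t - c.x) / 100000| ≤ (D.T : ℝ) + D.X := by
    have e : (y - v).re - ((c.t : ℝ) - c.x) / 100000 = (y.re - c.t / 100000) -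
        (v.re - c.x / 100000) := by
      rw [sub_re]
      ring
    rw [e]
    exact (abs_sub _ _).trans (add_le_add dT dX)
  have z2i : |(y - v).im - (c.e - c.n) / 100000| ≤ (D.E : ℝ) + D.N := by
    have e : (y - v).im - ((c.e : ℝ) - c.n) / 100000 = (y.im - c.e / 100000) -
        (v.im - c.n / 100000) := by
      rw [sub_im]
      ring
    rw [e]
    exact (abs_sub _ _).trans (add_le_add dE dN)
  have z3r : |(y + v).re - (c.t + c.x) / 100000| ≤ (D.T : ℝ) + D.X := by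
    have e : (y + v).re - ((c.t : ℝ) + c.x) / 100000 = (y.re - c.t / 100000) +
        (v.re - c.x / 100000) := by
      rw [add_re]
      ring
    rw [e]
    exact (abs_add_le _ _).trans (add_le_add dT dX)
  have z3i : |(y + v).im - (c.e + c.n) / 100000| ≤ (D.E : ℝ) + D.N := by
    have e : (y + v).im - ((c.e : ℝ) + c.n) / 100000 = (y.im - c.e / 100000) +
        (v.im - c.n / 100000) := by
      rw [add_im]
      ring
    rw [e]
    exact (abs_add_le _ _).trans (add_le_add dE dN)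
  rw [abs_neg, abs_neg] at s1
  have f1 : (c.P1.f, c.P1.ef, c.P1.l, c.P1.a) = (c.f1, c.k1, c.l1, c.a1) := rfl
  have f2 : (c.P2.f, c.P2.ef, c.P2.l, c.P2.a) = (c.f2, c.k2, c.l2, c.a2) := rfl
  have f3 : (c.P3.f, c.P3.ef, c.P3.l, c.P3.a) = (c.f3, c.k3, c.l3, c.a3) := rfl
  rw [Prod.mk.injEq, Prod.mk.injEq, Prod.mk.injEq] at f1 f2 f3
  rw [f1.1, f1.2.1, f1.2.2.1, f1.2.2.2] at s1
  rw [f2.1, f2.2.1, f2.2.2.1, f2.2.2.2] at s2
  rw [f3.1, f3.2.1, f3.2.2.1, f3.2.2.2] at s3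
  clear f1 f2 f3 t1 t2 t3 a1 b1 a2 b2 a3 b3 m1r m1i m2r m2i m3r m3i eT eE eX eN e2r e2i e3r e3i
  -- the gaussian
  have hp := abs_le.1 pq_ok
  have hx0 := hF.x0
  have hx1 := hF.x1
  have hn0 := hF.n0
  have hn1 := hF.n1
  have hpi := Real.pi_pos
  have hDX : (0 : ℝ) ≤ D.X := (abs_nonneg _).trans dX
  have hDN : (0 : ℝ) ≤ D.N := (abs_nonneg _).trans dN
  have hDT : (0 : ℝ) ≤ D.T := (abs_nonneg _).trans dT
  have hDE : (0 : ℝ) ≤ D.E := (abs_nonneg _).trans dE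
  obtain ⟨X, hX⟩ : ∃ X : ℝ, X = (c.x : ℝ) / 100000 := ⟨_, rfl⟩
  obtain ⟨N, hN⟩ : ∃ N : ℝ, N = (c.n : ℝ) / 100000 := ⟨_, rfl⟩
  obtain ⟨dx, hdx⟩ : ∃ dx : ℝ, dx = v.re - X := ⟨_, rfl⟩
  obtain ⟨dn, hdn⟩ : ∃ dn : ℝ, dn = v.im - N := ⟨_, rfl⟩
  obtain ⟨dt, hdt⟩ : ∃ dt : ℝ, dt = y.re - c.t / 100000 := ⟨_, rfl⟩
  obtain ⟨de, hde⟩ : ∃ de : ℝ, de = y.im - c.e / 100000 := ⟨_, rfl⟩
  have X0 : 0 ≤ X := by rw [hX]; positivity
  have X1 : X ≤ 1 := by rw [hX]; linarith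
  have N0 : 0 ≤ N := by rw [hN]; positivity
  have N1 : N ≤ 1 := by rw [hN]; linarith
  rw [← hX, ← hdx] at dX
  rw [← hN, ← hdn] at dN
  rw [← hdt] at dT
  rw [← hde] at dE
  have g1 : gn 4 v = -(2 * Real.pi * N * (1 - 4 * X)) - 2 * Real.pi * (1 - 4 * X) * dn +
      8 * Real.pi * N * dx + 8 * Real.pi * (dx * dn) := by
    unfold gn
    have e1 : v.re = X + dx := by rw [hdx]; ring
    have e2 : v.im = N + dn := by rw [hdn]; ring
    rw [e1, e2]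
    ring
  have g2 : -(2 * (pq : ℝ) * N * (1 - 4 * X)) - 1 / 10 ^ 12 ≤ -(2 * Real.pi * N * (1 - 4 * X)) := by
    have h1 : |N * (1 - 4 * X)| ≤ 3 := by
      rw [abs_mul, abs_of_nonneg N0]
      have h0 : |1 - 4 * X| ≤ 3 := by rw [abs_le]; constructor <;> linarith
      calc N * |1 - 4 * X| ≤ 1 * 3 := mul_le_mul N1 h0 (abs_nonneg _) zero_le_one
        _ = 3 := by norm_num
    have h2 : |(Real.pi - pq) * (N * (1 - 4 * X))| ≤ 1 / 10 ^ 14 * 3 := by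
      rw [abs_mul]
      exact mul_le_mul pq_ok h1 (abs_nonneg _) (by norm_num)
    have h3 := abs_le.1 h2
    linarith [h3.1, h3.2]
  have g3 : -((|(gX c : ℝ)| + 1 / (2 * 10 ^ 7)) * D.X) ≤ (c.l2 - c.l3 + 8 * Real.pi * N) * dx := by
    have h1 : |(c.l2 - c.l3 + 8 * Real.pi * N : ℝ)| ≤ |(gX c : ℝ)| + 1 / (2 * 10 ^ 7) := by
      have e : (c.l2 - c.l3 + 8 * Real.pi * N : ℝ) = gX c + 8 * (Real.pi - pq) * N := by
        unfold gX
        push_cast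
        rw [hN]
        ring
      rw [e]
      refine (abs_add_le _ _).trans ?_
      have h2 : |8 * (Real.pi - pq) * N| ≤ 8 * (1 / 10 ^ 14) * 1 := by
        rw [abs_mul, abs_mul, abs_of_nonneg (show (0 : ℝ) ≤ 8 by norm_num), abs_of_nonneg N0]
        exact mul_le_mul (mul_le_mul_of_nonneg_left pq_ok (by norm_num)) N1 N0 (by norm_num)
      have h3 : (8 : ℝ) * (1 / 10 ^ 14) * 1 ≤ 1 / (2 * 10 ^ 7) := by norm_num
      linarith
    have h2 : |(c.l2 - c.l3 + 8 * Real.pi * N : ℝ) * dx| ≤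
        (|(gX c : ℝ)| + 1 / (2 * 10 ^ 7)) * D.X := by
      rw [abs_mul]
      exact mul_le_mul h1 dX (abs_nonneg _) ((abs_nonneg _).trans h1)
    exact (abs_le.1 h2).1
  have g4 : -((|(gN c : ℝ)| + 1 / (2 * 10 ^ 7)) * D.N) ≤
      (c.a3 - c.a2 - 2 * Real.pi * (1 - 4 * X)) * dn := by
    have h1 : |(c.a3 - c.a2 - 2 * Real.pi * (1 - 4 * X) : ℝ)| ≤ |(gN c : ℝ)| + 1 / (2 * 10 ^ 7) := by
      have e : (c.a3 - c.a2 - 2 * Real.pi * (1 - 4 * X) : ℝ) =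
          gN c - 2 * (Real.pi - pq) * (1 - 4 * X) := by
        unfold gN
        push_cast
        rw [hX]
        ring
      rw [e]
      refine (abs_sub _ _).trans ?_
      have h2 : |2 * (Real.pi - pq) * (1 - 4 * X)| ≤ 2 * (1 / 10 ^ 14) * 3 := by
        rw [abs_mul, abs_mul, abs_of_nonneg (show (0 : ℝ) ≤ 2 by norm_num)]
        have : |1 - 4 * X| ≤ 3 := by rw [abs_le]; constructor <;> linarith
        exact mul_le_mul (mul_le_mul_of_nonneg_left pq_ok (by norm_num)) this (abs_nonneg _)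
          (by norm_num)
      have h3 : (2 : ℝ) * (1 / 10 ^ 14) * 3 ≤ 1 / (2 * 10 ^ 7) := by norm_num
      linarith
    have h2 : |(c.a3 - c.a2 - 2 * Real.pi * (1 - 4 * X) : ℝ) * dn| ≤
        (|(gN c : ℝ)| + 1 / (2 * 10 ^ 7)) * D.N := by
      rw [abs_mul]
      exact mul_le_mul h1 dN (abs_nonneg _) ((abs_nonneg _).trans h1)
    exact (abs_le.1 h2).1
  have g5 : -(8 * ((pq : ℝ) + 1 / 10 ^ 14) * (D.X * D.N)) ≤ 8 * Real.pi * (dx * dn) := by
    have h1 : |dx * dn| ≤ D.X * D.N := by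
      rw [abs_mul]
      exact mul_le_mul dX dN (abs_nonneg _) hDX
    have h2 := (abs_le.1 h1).1
    have h3 : 8 * Real.pi * (D.X * D.N) ≤ 8 * ((pq : ℝ) + 1 / 10 ^ 14) * (D.X * D.N) := by
      apply mul_le_mul_of_nonneg_right _ (mul_nonneg hDX hDN)
      linarith
    have h4 := mul_le_mul_of_nonneg_left h2 (show 0 ≤ 8 * Real.pi by linarith)
    linarith
  have s1' := (abs_le.1 s1).2
  have s2' := (abs_le.1 s2).2
  have s3' := (abs_le.1 s3).2
  have q1 := mul_le_mul_of_nonneg_left s1' hw'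
  have e2r : (y - v).re - ((c.t : ℝ) - c.x) / 100000 = dt - dx := by
    rw [sub_re, hdt, hdx, hX]
    ring
  have e2i : (y - v).im - ((c.e : ℝ) - c.n) / 100000 = de - dn := by
    rw [sub_im, hde, hdn, hN]
    ring
  have e3r : (y + v).re - ((c.t : ℝ) + c.x) / 100000 = dt + dx := by
    rw [add_re, hdt, hdx, hX]
    ring
  have e3i : (y + v).im - ((c.e : ℝ) + c.n) / 100000 = de + dn := by
    rw [add_im, hde, hdn, hN]
    ring
  rw [e2r] at z2r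
  rw [e2i] at z2i
  rw [e3r] at z3r
  rw [e3i] at z3i
  rw [e2r, e2i] at s2'
  rw [e3r, e3i] at s3'
  rw [← hdt, ← hde] at q1
  have q2 := mul_le_mul_of_nonneg_left (add_le_add dT dE) hw'
  unfold Vw
  rw [g1, ← hdt, ← hde]
  unfold pen bas gGr gGi
  push_cast
  rw [← hX, ← hN]
  linarith [g2, g3, g4, g5, q1, q2, s2', s3', z2r, z2i, z3r, z3i, hDX, hDN]

end Pool.Agent.S5.E.E4
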