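import Pool.Agent.S5.E.E4.Path
import Pool.Agent.S5.I.Defs
import Pool.Agent.S5.G.Sh

/-!
# Taylor's formula for the potential
-/

set_option autoImplicit false

namespace Pool.Agent.S5.E.E4

open Pool.Agent.H63.VC3 Pool.Agent.S3 Complex Set
open Pool.Agent.S5.G (sin_re sin_im cos_re cos_im)

/-- `sin (π u) ≥ 3 u - 4 u³` on `[0, 1/2]`. -/
theorem sin_pi_ge {u : ℝ} (h0 : 0 ≤ u) (h1 : u ≤ 1 / 2) :
    3 * u - 4 * u ^ 3 ≤ Real.sin (Real.pi * u) := by
  have hpi := Real.pi_pos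
  -- `u ≤ sin (π u / 3)`
  have h2 : u ≤ Real.sin (Real.pi * u / 3) := by
    have hc := strictConcaveOn_sin_Icc.concaveOn.2 (show (0 : ℝ) ∈ Icc 0 Real.pi from ⟨le_rfl, hpi.le⟩)
      (show Real.pi / 6 ∈ Icc 0 Real.pi from ⟨by positivity, by linarith⟩)
      (show (0 : ℝ) ≤ 1 - 2 * u by linarith) (show (0 : ℝ) ≤ 2 * u by linarith) (by ring)
    simp only [smul_eq_mul, Real.sin_zero, mul_zero, zero_add, Real.sin_pi_div_six] at hc
    have e : 2 * u * (Real.pi / 6) = Real.pi * u / 3 := by ring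
    rw [e] at hc
    linarith
  have h3 : Real.sin (Real.pi * u / 3) ≤ 1 / 2 := by
    rw [← Real.sin_pi_div_six]
    apply Real.sin_le_sin_of_le_of_le_pi_div_two
    · have := mul_nonneg hpi.le h0
      linarith
    · linarith
    · nlinarith
  have h4 : Real.sin (Real.pi * u) = 3 * Real.sin (Real.pi * u / 3) -
      4 * Real.sin (Real.pi * u / 3) ^ 3 := by
    rw [← Real.sin_three_mul]
    congr 1
    ring
  rw [h4]
  set s := Real.sin (Real.pi * u / 3)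
  have h5 : 0 ≤ (s - u) * (3 - 4 * (s ^ 2 + s * u + u ^ 2)) := by
    apply mul_nonneg (by linarith)
    nlinarith
  nlinarith

/-- The sine at a point of `[u, 1 - u]`. -/
theorem sin_pi_ge' {u x : ℝ} (h0 : 0 ≤ u) (h1 : u ≤ x) (h2 : x ≤ 1 - u) :
    3 * u - 4 * u ^ 3 ≤ Real.sin (Real.pi * x) := by
  have hpi := Real.pi_pos
  have h3 : u ≤ 1 / 2 := by linarith
  refine (sin_pi_ge h0 h3).trans ?_
  rcases le_total x (1 / 2) with h | h
  · apply Real.sin_le_sin_of_le_of_le_pi_div_two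
    · have := mul_nonneg hpi.le h0
      linarith
    · nlinarith
    · nlinarith
  · have e : Real.sin (Real.pi * x) = Real.sin (Real.pi * (1 - x)) := by
      rw [← Real.sin_pi_sub]
      congr 1
      ring
    rw [e]
    apply Real.sin_le_sin_of_le_of_le_pi_div_two
    · have := mul_nonneg hpi.le h0
      linarith
    · nlinarith
    · nlinarith

theorem norm_sin_pi (z : ℂ) : ‖sin (Real.pi * z)‖ ^ 2 =
    Real.sin (Real.pi * z.re) ^ 2 + Real.sinh (Real.pi * z.im) ^ 2 := by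
  rw [← normSq_eq_norm_sq, normSq_apply, sin_re, sin_im, re_ofReal_mul, im_ofReal_mul]
  have h1 := Real.cosh_sq (Real.pi * z.im)
  have h2 := Real.sin_sq_add_cos_sq (Real.pi * z.re)
  linear_combination Real.sin (Real.pi * z.re) ^ 2 * h1 +
    Real.sinh (Real.pi * z.im) ^ 2 * h2

theorem norm_cos_pi (z : ℂ) : ‖cos (Real.pi * z)‖ ^ 2 ≤ 1 + ‖sin (Real.pi * z)‖ ^ 2 := by
  rw [norm_sin_pi, ← normSq_eq_norm_sq, normSq_apply, cos_re, cos_im, re_ofReal_mul, im_ofReal_mul]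
  have h1 := Real.cosh_sq (Real.pi * z.im)
  have h2 := Real.sin_sq_add_cos_sq (Real.pi * z.re)
  have h3 : Real.cos (Real.pi * z.re) * Real.cosh (Real.pi * z.im) *
      (Real.cos (Real.pi * z.re) * Real.cosh (Real.pi * z.im)) +
      -(Real.sin (Real.pi * z.re) * Real.sinh (Real.pi * z.im)) *
      -(Real.sin (Real.pi * z.re) * Real.sinh (Real.pi * z.im)) =
      Real.cos (Real.pi * z.re) ^ 2 + Real.sinh (Real.pi * z.im) ^ 2 := by
    linear_combination Real.cos (Real.pi * z.re) ^ 2 * h1 + Real.sinh (Real.pi * z.im) ^ 2 * h2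
  rw [h3]
  have := sq_nonneg (Real.sin (Real.pi * z.re))
  linarith

theorem sinh_sq_ge (x : ℝ) : x ^ 2 ≤ Real.sinh x ^ 2 := by
  rcases le_total 0 x with h | h
  · have := Real.self_le_sinh_iff.2 h
    nlinarith
  · have := Real.sinh_le_self_iff.2 h
    nlinarith

/-- The bound of the cotangent. -/
theorem cot_le {z : ℂ} {u s K : ℝ} (h0 : 0 < u) (h1 : u ≤ z.re) (h2 : z.re ≤ 1 - u)
    (h3 : s ^ 2 ≤ z.im ^ 2) (hK : 0 ≤ K)
    (h : 98697 / 10000 * ((3 * u - 4 * u ^ 3) ^ 2 + 98696 / 10000 * s ^ 2 + 1) ≤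
      K ^ 2 * ((3 * u - 4 * u ^ 3) ^ 2 + 98696 / 10000 * s ^ 2)) :
    ‖Real.pi * cot (Real.pi * z)‖ ≤ K := by
  have hpi := Real.pi_pos
  have hp1 := Real.pi_gt_d6
  have hp2 := Real.pi_lt_d6
  have hu : u ≤ 1 / 2 := by linarith
  have g0 : 0 < 3 * u - 4 * u ^ 3 := by
    have e : 3 * u - 4 * u ^ 3 = u * (3 - 4 * u ^ 2) := by ring
    rw [e]
    apply mul_pos h0
    nlinarith
  have g1 := sin_pi_ge' h0.le h1 h2
  set g := 3 * u - 4 * u ^ 3 with hg
  have q1 : 98696 / 10000 ≤ Real.pi ^ 2 := by nlinarith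
  have q2 : Real.pi ^ 2 ≤ 98697 / 10000 := by nlinarith
  have g2 : g ^ 2 + 98696 / 10000 * s ^ 2 ≤ ‖sin (Real.pi * z)‖ ^ 2 := by
    rw [norm_sin_pi]
    have h4 : g ^ 2 ≤ Real.sin (Real.pi * z.re) ^ 2 := by nlinarith
    have h5 := sinh_sq_ge (Real.pi * z.im)
    have h6 : 98696 / 10000 * s ^ 2 ≤ (Real.pi * z.im) ^ 2 := by
      rw [mul_pow]
      have := mul_le_mul q1 h3 (sq_nonneg s) (sq_nonneg Real.pi)
      linarith
    linarith
  set G := g ^ 2 + 98696 / 10000 * s ^ 2 with hG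
  have hG0 : 0 < G := by positivity
  have g3 := norm_cos_pi z
  have hs0 : 0 < ‖sin (Real.pi * z)‖ := by
    by_contra h7
    push Not at h7
    have h8 : ‖sin (Real.pi * z)‖ = 0 := le_antisymm h7 (norm_nonneg _)
    rw [h8] at g2
    nlinarith
  apply le_of_sq_le_sq _ hK
  rw [norm_mul, norm_real, Real.norm_of_nonneg hpi.le, Complex.cot, norm_div, mul_pow, div_pow,
    mul_div_assoc', div_le_iff₀ (by positivity)]
  -- `π² |cos|² ≤ π² (1 + S) ≤ K² S`
  set S := ‖sin (Real.pi * z)‖ ^ 2 with hS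
  have k1 : Real.pi ^ 2 * ‖cos (Real.pi * z)‖ ^ 2 ≤ 98697 / 10000 * (1 + S) :=
    mul_le_mul q2 g3 (sq_nonneg _) (by norm_num)
  have k2 : 98697 / 10000 ≤ (K ^ 2 - 98697 / 10000) * G := by nlinarith
  have k3 : 0 < K ^ 2 - 98697 / 10000 := by
    by_contra h7
    push Not at h7
    have := mul_nonpos_of_nonpos_of_nonneg h7 hG0.le
    linarith
  have k4 := mul_le_mul_of_nonneg_left g2 k3.le
  linarith

/-- The segment is in the strip. -/
theorem seg_re {g z : ℂ} {u s : ℝ} (h1 : u ≤ g.re) (h2 : u ≤ z.re) (hs : s ∈ Icc (0 : ℝ) 1) :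
    u ≤ (g + s * (z - g)).re := by
  rw [add_re, re_ofReal_mul, sub_re]
  nlinarith [hs.1, hs.2]

theorem seg_re' {g z : ℂ} {u s : ℝ} (h1 : g.re ≤ u) (h2 : z.re ≤ u) (hs : s ∈ Icc (0 : ℝ) 1) :
    (g + s * (z - g)).re ≤ u := by
  rw [add_re, re_ofReal_mul, sub_re]
  nlinarith [hs.1, hs.2]

/-- **Taylor's formula.** -/
theorem Rf_tay {g z : ℂ} {u K : ℝ} (h0 : 0 < u) (h1 : u ≤ g.re) (h2 : u ≤ z.re)
    (h3 : g.re ≤ 1 - u) (h4 : z.re ≤ 1 - u)
    (hK : ∀ s ∈ Icc (0 : ℝ) 1, ‖Real.pi * cot (Real.pi * (g + s * (z - g)))‖ ≤ K) :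
    |Rf z - Rf g - (hh g * (z - g)).re| ≤ K / 2 * ‖z - g‖ ^ 2 := by
  have hr : ∀ s ∈ Icc (0 : ℝ) 1, 0 < (g + s * (z - g)).re ∧ (g + s * (z - g)).re < 1 := by
    intro s hs
    have := seg_re h1 h2 hs
    have := seg_re' h3 h4 hs
    constructor <;> linarith
  have hl : ∀ s : ℝ, HasDerivAt (fun s : ℝ => g + (s : ℂ) * (z - g)) (z - g) s := by
    intro s
    have := ((Complex.ofRealCLM.hasDerivAt (x := s)).mul_const (z - g)).const_add g
    simpa using this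
  have d1 : ∀ s ∈ Icc (0 : ℝ) 1, HasDerivAt (fun s : ℝ => ff (g + (s : ℂ) * (z - g)))
      (hh (g + s * (z - g)) * (z - g)) s := fun s hs =>
    HasDerivAt.comp (h := fun s : ℝ => g + (s : ℂ) * (z - g)) s
      (ff_hasDerivAt _ (hr s hs).1 (hr s hs).2) (hl s)
  have d2 : ∀ s ∈ Icc (0 : ℝ) 1, HasDerivAt (fun s : ℝ => hh (g + (s : ℂ) * (z - g)) * (z - g))
      (Real.pi * cot (Real.pi * (g + s * (z - g))) * (z - g) * (z - g)) s := fun s hs =>
    (HasDerivAt.comp (h := fun s : ℝ => g + (s : ℂ) * (z - g)) s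
      (hh_hasDerivAt _ (hr s hs).1 (hr s hs).2) (hl s)).mul_const (z - g)
  have h5 := tay (M := K * ‖z - g‖ ^ 2) d1 (fun s hs => by
    have h6 := lip (K := K * ‖z - g‖ ^ 2) d2 (fun s hs => by
      rw [norm_mul, norm_mul, mul_assoc, ← sq]
      exact mul_le_mul_of_nonneg_right (hK s hs) (sq_nonneg _)) hs
    exact h6)
  simp only [ofReal_one, one_mul, ofReal_zero, zero_mul, add_zero, add_sub_cancel] at h5
  have h6 := (abs_re_le_norm _).trans h5
  rw [sub_re, sub_re, ← Rf_eq_ff (by linarith) (by linarith),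
    ← Rf_eq_ff (by linarith) (by linarith)] at h6
  linarith

end Pool.Agent.S5.E.E4
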