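import Pool.Agent.S5.E.E4.Mdl5
import Pool.Agent.S5.E.E4.Tay
import Pool.Agent.S5.I.NumPk
import Pool.Agent.S5.I.Rw

/-!
# The value of the tangent plane at an end with four half twists
-/

set_option autoImplicit false

namespace Pool.Agent.S5.E.E4

open Complex Set Pool.Agent.S5.Num
open Pool.Agent.H63.VC3 (hh hh_conj)
open Pool.Agent.S3 (Rf)
open Pool.Agent.S5.Tb (Vw pla P4 Gd Ps)

/-! ### Values at a point -/

/-- A point `(X + i S) / 100000` with the values of `Rf` and `hh`. -/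
structure Pt where
  X : ℤ
  S : ℤ
  f : ℚ
  ef : ℚ
  l : ℚ
  a : ℚ

noncomputable def Pt.z (p : Pt) : ℂ := ((p.X : ℝ) / 100000 : ℝ) + ((p.S : ℝ) / 100000 : ℝ) * I

structure Pt.Ok (p : Pt) : Prop where
  f : |Rf p.z - p.f| ≤ p.ef
  l : |(hh p.z).re - p.l| ≤ 1 / 10 ^ 8
  a : |(hh p.z).im - p.a| ≤ 1 / 10 ^ 8

/-- The basic test, for `X, S ≥ 0`, `2 X ≤ D`. -/
def tst0 (M X S : ℕ) (f ef l a : ℚ) : Bool :=
  ptK M X S 100000 (fun r e l' t eL _ _ _ =>
    decide (|((r : ℚ) - 4503599627370496) / 281474976710656 - f| + (e : ℚ) / 281474976710656 ≤ ef) &&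
    decide (|((l' : ℚ) - 4503599627370496) / 281474976710656 - l| +
      (eL : ℚ) / 281474976710656 ≤ 1 / 10 ^ 8) &&
    decide (|((t : ℚ) - 4503599627370496) / 281474976710656 - a| +
      (eL : ℚ) / 281474976710656 ≤ 1 / 10 ^ 8))

theorem tst0_aux {y : ℝ} {r e : ℕ} {f ef : ℚ} (h : |y * 281474976710656 + 4503599627370496 - r| ≤ e)
    (h' : |((r : ℚ) - 4503599627370496) / 281474976710656 - f| + (e : ℚ) / 281474976710656 ≤ ef) :
    |y - f| ≤ ef := by
  have h1 : |((r : ℝ) - 4503599627370496) / 281474976710656 - f| +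
      (e : ℝ) / 281474976710656 ≤ ef := by
    have h2 : ((|((r : ℚ) - 4503599627370496) / 281474976710656 - f| +
      (e : ℚ) / 281474976710656 : ℚ) : ℝ) ≤ (ef : ℝ) := Rat.cast_le.2 h'
    push_cast at h2
    exact h2
  have e1 : y - f = (((r : ℝ) - 4503599627370496) / 281474976710656 - f) +
      (y * 281474976710656 + 4503599627370496 - r) / 281474976710656 := by
    field_simp
    ring
  rw [e1]
  refine (abs_add_le _ _).trans (le_trans ?_ h1)
  rw [abs_div, abs_of_pos (show (0 : ℝ) < 281474976710656 by norm_num)]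
  have := div_le_div_of_nonneg_right h (show (0 : ℝ) ≤ 281474976710656 by norm_num)
  linarith

theorem tst0_sound {M X S : ℕ} {f ef l a : ℚ} (h : tst0 M X S f ef l a = true) :
    |Rf (((X : ℝ) / 100000 : ℝ) + ((S : ℝ) / 100000 : ℝ) * I) - f| ≤ ef ∧
    |(hh (((X : ℝ) / 100000 : ℝ) + ((S : ℝ) / 100000 : ℝ) * I)).re - l| ≤ 1 / 10 ^ 8 ∧
    |(hh (((X : ℝ) / 100000 : ℝ) + ((S : ℝ) / 100000 : ℝ) * I)).im - a| ≤ 1 / 10 ^ 8 := by
  unfold tst0 at h
  obtain ⟨r, e, l', t, eL, cr, ci, eC, h1, h2, h3⟩ := ptK_sound h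
  simp only [Bool.and_eq_true, decide_eq_true_eq] at h3
  obtain ⟨⟨h3, h4⟩, h5⟩ := h3
  have hU : UU = 281474976710656 := rfl
  have hK : KK = 4503599627370496 := rfl
  have e8 : ((1 / 10 ^ 8 : ℚ) : ℝ) = 1 / 10 ^ 8 := by push_cast; rfl
  refine ⟨?_, ?_, ?_⟩
  · apply tst0_aux _ h3
    rw [hU, hK] at h2
    exact_mod_cast h2
  · rw [← e8]
    apply tst0_aux (r := l') _ h4
    have h6 := h1.l
    rw [hU, hK] at h6
    have e1 : (hh (((X : ℝ) / 100000 : ℝ) + ((S : ℝ) / 100000 : ℝ) * I)).re =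
        Pool.Agent.S3.Lg ((S : ℝ) / 100000) ((X : ℝ) / 100000) := hh_re' _ _
    rw [e1]
    have e2 : ∀ u : ℝ, 4503599627370496 + 281474976710656 * u - (l' : ℝ) =
        u * 281474976710656 + 4503599627370496 - l' := fun u => by ring
    rw [e2] at h6
    exact_mod_cast h6
  · rw [← e8]
    apply tst0_aux (r := t) _ h5
    have h6 := h1.t
    rw [hU, hK] at h6
    have e2 : ∀ u : ℝ, 4503599627370496 + 281474976710656 * u - (t : ℝ) =
        u * 281474976710656 + 4503599627370496 - t := fun u => by ring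
    rw [e2] at h6
    exact_mod_cast h6

/-- The test of a point. -/
def Pt.ok (M : ℕ) (p : Pt) : Bool :=
  decide (0 < p.X) && decide (p.X < 100000) &&
  cond (decide (2 * p.X ≤ 100000))
    (cond (decide (0 ≤ p.S)) (tst0 M p.X.toNat p.S.toNat p.f p.ef p.l p.a)
      (tst0 M p.X.toNat (-p.S).toNat p.f p.ef p.l (-p.a)))
    (cond (decide (p.S ≤ 0)) (tst0 M (100000 - p.X).toNat (-p.S).toNat (-p.f) p.ef p.l p.a)
      (tst0 M (100000 - p.X).toNat p.S.toNat (-p.f) p.ef p.l (-p.a)))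

theorem Pt.re (p : Pt) : p.z.re = (p.X : ℝ) / 100000 := by
  unfold Pt.z
  simp

theorem Pt.im (p : Pt) : p.z.im = (p.S : ℝ) / 100000 := by
  unfold Pt.z
  simp

theorem mk_eq {X S : ℕ} {w : ℂ} (h1 : w.re = (X : ℝ) / 100000) (h2 : w.im = (S : ℝ) / 100000) :
    (((X : ℝ) / 100000 : ℝ) : ℂ) + (((S : ℝ) / 100000 : ℝ) : ℂ) * I = w := by
  apply Complex.ext
  · rw [h1]; simp
  · rw [h2]; simp

theorem toNat_cast {a : ℤ} (h : 0 ≤ a) : ((a.toNat : ℕ) : ℝ) = (a : ℝ) := by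
  have : ((a.toNat : ℕ) : ℤ) = a := Int.toNat_of_nonneg h
  exact_mod_cast this

theorem Pt.ok_sound {M : ℕ} {p : Pt} (h : p.ok M = true) : p.Ok := by
  unfold Pt.ok at h
  simp only [Bool.and_eq_true, decide_eq_true_eq] at h
  obtain ⟨⟨h1, h2⟩, h3⟩ := h
  have h1' : (0 : ℝ) < (p.X : ℝ) := by exact_mod_cast h1
  have h2' : (p.X : ℝ) < 100000 := by exact_mod_cast h2
  have r1 : 0 < p.z.re := by rw [Pt.re]; positivity
  have r2 : p.z.re < 1 := by rw [Pt.re, div_lt_one (by norm_num)]; exact h2'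
  have s1 : 0 < (1 - p.z).re := by rw [sub_re, one_re]; linarith
  have s2 : (1 - p.z).re < 1 := by rw [sub_re, one_re]; linarith
  by_cases hX : 2 * p.X ≤ 100000
  · rw [decide_eq_true hX, cond_true] at h3
    by_cases hS : 0 ≤ p.S
    · rw [decide_eq_true hS, cond_true] at h3
      have h4 := tst0_sound h3
      rw [mk_eq (w := p.z) (by rw [toNat_cast h1.le, Pt.re]) (by rw [toNat_cast hS, Pt.im])] at h4
      exact ⟨h4.1, h4.2.1, h4.2.2⟩
    · rw [decide_eq_false hS, cond_false] at h3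
      have h4 := tst0_sound h3
      rw [mk_eq (w := (starRingEnd ℂ) p.z) (by rw [toNat_cast h1.le, conj_re, Pt.re])
        (by rw [toNat_cast (by omega), conj_im, Pt.im]; push_cast; ring),
        Pool.Agent.S3.Rf_conj, hh_conj _ r1 r2, conj_re, conj_im] at h4
      refine ⟨h4.1, h4.2.1, ?_⟩
      have h5 := abs_le.1 h4.2.2
      push_cast at h5
      rw [abs_le]
      constructor <;> linarith
  · rw [decide_eq_false hX, cond_false] at h3
    have hc : ((100000 - p.X).toNat : ℝ) = 100000 - (p.X : ℝ) := by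
      rw [toNat_cast (by omega)]
      push_cast
      ring
    have e1 : (1 - p.z).re = (((100000 - p.X).toNat : ℕ) : ℝ) / 100000 := by
      rw [hc, sub_re, one_re, Pt.re]
      ring
    by_cases hS : p.S ≤ 0
    · rw [decide_eq_true hS, cond_true] at h3
      have h4 := tst0_sound h3
      rw [mk_eq (w := 1 - p.z) e1 (by
        rw [toNat_cast (by omega), sub_im, one_im, Pt.im]
        push_cast
        ring), Pool.Agent.S3.Rf_one_sub, hh_one_sub] at h4
      refine ⟨?_, h4.2.1, h4.2.2⟩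
      have h5 := abs_le.1 h4.1
      push_cast at h5
      rw [abs_le]
      constructor <;> linarith
    · rw [decide_eq_false hS, cond_false] at h3
      have h4 := tst0_sound h3
      rw [mk_eq (w := (starRingEnd ℂ) (1 - p.z)) (by rw [conj_re, e1]) (by
        rw [toNat_cast (by omega), conj_im, sub_im, one_im, Pt.im]
        ring), Pool.Agent.S3.Rf_conj, hh_conj _ s1 s2, conj_re, conj_im, Pool.Agent.S3.Rf_one_sub,
        hh_one_sub] at h4
      refine ⟨?_, h4.2.1, ?_⟩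
      · have h5 := abs_le.1 h4.1
        push_cast at h5
        rw [abs_le]
        constructor <;> linarith
      · have h5 := abs_le.1 h4.2.2
        push_cast at h5
        rw [abs_le]
        constructor <;> linarith

/-! ### Curvature -/

/-- The bound of the curvature on a segment. -/
def crv (u s K : ℚ) (rlo rhi ilo ihi : ℚ) (g : Pt) : Bool :=
  decide (0 < u) && decide (u ≤ rlo) && decide (rhi ≤ 1 - u) &&
  decide (100000 * u ≤ g.X) && decide ((g.X : ℚ) ≤ 100000 * (1 - u)) &&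
  decide (0 ≤ s) && decide (0 ≤ K) &&
  (decide (s = 0) || (decide (s ≤ ilo) && decide (100000 * s ≤ g.S)) ||
    (decide (ihi ≤ -s) && decide ((g.S : ℚ) ≤ -(100000 * s)))) &&
  decide (98697 / 10000 * ((3 * u - 4 * u ^ 3) ^ 2 + 98696 / 10000 * s ^ 2 + 1) ≤
      K ^ 2 * ((3 * u - 4 * u ^ 3) ^ 2 + 98696 / 10000 * s ^ 2))

theorem crv_sound {u s K rlo rhi ilo ihi : ℚ} {g : Pt} {z : ℂ}
    (h : crv u s K rlo rhi ilo ihi g = true) (h1 : (rlo : ℝ) ≤ z.re) (h2 : z.re ≤ rhi)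
    (h3 : (ilo : ℝ) ≤ z.im) (h4 : z.im ≤ ihi) :
    |Rf z - Rf g.z - (hh g.z * (z - g.z)).re| ≤ K / 2 * ‖z - g.z‖ ^ 2 ∧ (0 : ℝ) ≤ K := by
  unfold crv at h
  simp only [Bool.and_eq_true, decide_eq_true_eq, Bool.or_eq_true] at h
  obtain ⟨⟨⟨⟨⟨⟨⟨⟨c1, c2⟩, c3⟩, c4⟩, c5⟩, c6⟩, c7⟩, c8⟩, c9⟩ := h
  have c1 : (0 : ℝ) < u := by exact_mod_cast c1
  have c2 : (u : ℝ) ≤ rlo := by exact_mod_cast c2
  have c3 : (rhi : ℝ) ≤ 1 - u := by exact_mod_cast c3
  have c4 : 100000 * (u : ℝ) ≤ g.X := by exact_mod_cast c4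
  have c5 : (g.X : ℝ) ≤ 100000 * (1 - u) := by exact_mod_cast c5
  have c6 : (0 : ℝ) ≤ s := by exact_mod_cast c6
  have c7 : (0 : ℝ) ≤ K := by exact_mod_cast c7
  have c9 : 98697 / 10000 * ((3 * (u : ℝ) - 4 * u ^ 3) ^ 2 + 98696 / 10000 * s ^ 2 + 1) ≤
      K ^ 2 * ((3 * u - 4 * u ^ 3) ^ 2 + 98696 / 10000 * s ^ 2) := by
    have h9 : ((98697 / 10000 * ((3 * u - 4 * u ^ 3) ^ 2 + 98696 / 10000 * s ^ 2 + 1) : ℚ) : ℝ) ≤
      ((K ^ 2 * ((3 * u - 4 * u ^ 3) ^ 2 + 98696 / 10000 * s ^ 2) : ℚ) : ℝ) := Rat.cast_le.2 c9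
    push_cast at h9
    exact h9
  have g1 : (u : ℝ) ≤ g.z.re := by rw [Pt.re]; linarith
  have g2 : g.z.re ≤ 1 - u := by rw [Pt.re]; linarith
  refine ⟨?_, c7⟩
  apply Rf_tay c1 g1 (c2.trans h1) g2 (h2.trans c3)
  intro t ht
  have k1 := seg_re g1 (c2.trans h1) ht
  have k2 := seg_re' g2 (h2.trans c3) ht
  apply cot_le c1 k1 k2 _ c7 c9
  have e1 : (g.z + t * (z - g.z)).im = g.z.im + t * (z.im - g.z.im) := by
    rw [add_im, im_ofReal_mul, sub_im]
  rw [e1]
  rcases c8 with (c8 | ⟨c8, c8'⟩) | ⟨c8, c8'⟩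
  · have : (s : ℝ) = 0 := by exact_mod_cast c8
    rw [this]
    have := sq_nonneg (g.z.im + t * (z.im - g.z.im))
    nlinarith
  · have m1 : (s : ℝ) ≤ ilo := by exact_mod_cast c8
    have m2 : 100000 * (s : ℝ) ≤ g.S := by exact_mod_cast c8'
    have m3 : (s : ℝ) ≤ g.z.im := by rw [Pt.im]; linarith
    have m4 : (s : ℝ) ≤ g.z.im + t * (z.im - g.z.im) := by nlinarith [ht.1, ht.2]
    nlinarith
  · have m1 : (ihi : ℝ) ≤ -s := by exact_mod_cast c8
    have m2 : (g.S : ℝ) ≤ -(100000 * s) := by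
      have h9 : (((g.S : ℚ)) : ℝ) ≤ ((-(100000 * s) : ℚ) : ℝ) := Rat.cast_le.2 c8'
      push_cast at h9
      exact h9
    have m3 : g.z.im ≤ -s := by rw [Pt.im]; linarith
    have m4 : g.z.im + t * (z.im - g.z.im) ≤ -s := by nlinarith [ht.1, ht.2]
    nlinarith

end Pool.Agent.S5.E.E4
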